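import Pool.Agent.W444.CC.Twist

/-!
# The dense `*`-algebra
-/

noncomputable section

namespace Pool.Agent.W444.CC

open Quaternion Matrix

/-- triples of unit quaternions -/
abbrev K : Type := Fin 3 → S3

/-- the matrix valued functions on `K` -/
abbrev E : Type := K → Matrix W W ℂ

/-- the element of `K` given by an element of `V` -/
def hat (h : V) : K := fun i => eS (h i)

/-- the index set of the generators -/
abbrev G : Type := Fin 3 × Q4 × Q4

/-- matrix entries of rotations as functions on `K` -/
def rf (g : G) : K → ℂ := fun k => ((r (k g.1) g.2.1 g.2.2 : ℝ) : ℂ)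

/-- the weight of a generator -/
def gw (g : G) : W := (wt g.1 g.2.1, wt g.1 g.2.2)

/-- the generators -/
def w (g : G) : E := fun k => rf g k • T (gw g)

/-- the `*`-algebra -/
def A : StarSubalgebra ℂ E := StarAlgebra.adjoin ℂ (Set.range w)

/-- the algebra of the polynomial functions on `K` -/
def O : Subalgebra ℂ (K → ℂ) := Algebra.adjoin ℂ (Set.range rf)

lemma w_mem (g : G) : w g ∈ A := StarAlgebra.subset_adjoin _ _ ⟨g, rfl⟩

lemma rf_mem (g : G) : rf g ∈ O := Algebra.subset_adjoin ⟨g, rfl⟩

lemma star_rf (g : G) (k : K) : star (rf g k) = rf g k := by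
  simp [rf]

lemma star_mem_O {f : K → ℂ} (hf : f ∈ O) : star f ∈ O := by
  induction hf using Algebra.adjoin_induction with
  | mem x hx =>
    obtain ⟨g, rfl⟩ := hx
    have : star (rf g) = rf g := by ext k; exact star_rf g k
    rw [this]; exact rf_mem g
  | algebraMap c =>
    have : star (algebraMap ℂ (K → ℂ) c) = algebraMap ℂ (K → ℂ) (star c) := by
      ext k; simp
    rw [this]; exact O.algebraMap_mem _
  | add x y _ _ hx hy => rw [star_add]; exact add_mem hx hy
  | mul x y _ _ hx hy => rw [star_mul']; exact mul_mem hx hy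

/-- component of weight `x` -/
def comp (x : W) (F : E) : E := fun k => F k x 0 • T x

lemma comp_apply (x : W) (F : E) (k : K) : comp x F k = F k x 0 • T x := rfl

lemma rf_hat (g : G) (h : W) (k : K) : rf g (hat h.1 * k * hat h.2) = pr (gw g) h * rf g k := by
  have h1 : r ((eS (h.1 g.1) : ℍ[ℝ]) * (k g.1 : ℍ[ℝ]) * (eS (h.2 g.1) : ℍ[ℝ])) g.2.1 g.2.2 =
      ((sgn (om g.2.1 (h.1 g.1)) : ℤ) : ℝ) * r (k g.1) g.2.1 g.2.2 *
        ((sgn (om g.2.2 (h.2 g.1)) : ℤ) : ℝ) := by
    rw [r_comp, Finset.sum_eq_single g.2.2]
    · rw [r_comp, Finset.sum_eq_single g.2.1]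
      · change r (e _) _ _ * _ * r (e _) _ _ = _
        rw [r_e, if_pos rfl, r_e, if_pos rfl]
      · intro c _ hc
        change r (e _) _ _ * _ = _
        rw [r_e, if_neg (Ne.symm hc), zero_mul]
      · simp
    · intro c _ hc
      change _ * r (e _) _ _ = _
      rw [r_e, if_neg hc, mul_zero]
    · simp
  have h2 : (((hat h.1 * k * hat h.2) g.1 : S3) : ℍ[ℝ]) =
      (eS (h.1 g.1) : ℍ[ℝ]) * (k g.1 : ℍ[ℝ]) * (eS (h.2 g.1) : ℍ[ℝ]) := rfl
  rw [rf, h2, h1, pr, gw, omV_wt, omV_wt, sgn_add]
  push_cast
  rw [rf]
  ring

lemma continuous_rf (g : G) : Continuous (rf g) := by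
  unfold rf
  refine Complex.continuous_ofReal.comp ?_
  exact (continuous_r g.2.1 g.2.2).comp (continuous_subtype_val.comp (continuous_apply g.1))

lemma w_coef (g : G) (k : K) (x : W) : w g k x 0 = if x = gw g then rf g k else 0 := by
  rw [w, Matrix.smul_apply, T_apply_zero, smul_eq_mul]
  split_ifs <;> simp

/-- the properties of the elements of `A` -/
structure Nice (F : E) : Prop where
  good : ∀ k, Good (F k)
  comp_mem : ∀ x, comp x F ∈ A
  cont : ∀ x, Continuous fun k => F k x 0
  hat : ∀ (x h : W) (k : K), F (hat h.1 * k * hat h.2) x 0 = pr x h * F k x 0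
  poly : ∀ x, (fun k => F k x 0) ∈ O

lemma nice_w (g : G) : Nice (w g) where
  good k := (good_T _).smul _
  comp_mem x := by
    by_cases hx : x = gw g
    · have : comp x (w g) = w g := by
        ext1 k
        rw [comp_apply, w_coef, if_pos hx, hx]; rfl
      rw [this]; exact w_mem g
    · have : comp x (w g) = 0 := by
        ext1 k
        rw [comp_apply, w_coef, if_neg hx, zero_smul]; rfl
      rw [this]; exact zero_mem _
  cont x := by
    simp only [w_coef]
    split_ifs
    · exact continuous_rf g
    · exact continuous_const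
  hat x h k := by
    rw [w_coef, w_coef]
    split_ifs with hx
    · rw [rf_hat, hx]
    · simp
  poly x := by
    simp only [w_coef]
    split_ifs
    · exact rf_mem g
    · exact zero_mem O

lemma one_coef (x : W) : (1 : Matrix W W ℂ) x 0 = if x = 0 then 1 else 0 := by
  rw [Matrix.one_apply]

lemma algMap_apply (c : ℂ) (k : K) : (algebraMap ℂ E c) k = c • (1 : Matrix W W ℂ) := by
  rw [Pi.algebraMap_apply, Algebra.algebraMap_eq_smul_one]

lemma nice_algebraMap (c : ℂ) : Nice (algebraMap ℂ E c) where
  good k := by
    rw [algMap_apply, ← T_zero]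
    exact (good_T 0).smul c
  comp_mem x := by
    by_cases hx : x = 0
    · have : comp x (algebraMap ℂ E c) = algebraMap ℂ E c := by
        ext1 k
        rw [comp_apply, algMap_apply, Matrix.smul_apply, one_coef, if_pos hx, hx, T_zero,
          smul_eq_mul, mul_one]
      rw [this]; exact A.algebraMap_mem c
    · have : comp x (algebraMap ℂ E c) = 0 := by
        ext1 k
        rw [comp_apply, algMap_apply, Matrix.smul_apply, one_coef, if_neg hx, smul_zero,
          zero_smul]; rfl
      rw [this]; exact zero_mem _
  cont x := by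
    simp only [algMap_apply]
    exact continuous_const
  hat x h k := by
    rw [algMap_apply, algMap_apply, Matrix.smul_apply, one_coef]
    split_ifs with hx
    · rw [hx, pr_zero_left, one_mul]
    · simp
  poly x := by
    simp only [algMap_apply]
    exact O.algebraMap_mem (c * (1 : Matrix W W ℂ) x 0)

lemma Nice.add {F F' : E} (h : Nice F) (h' : Nice F') : Nice (F + F') where
  good k := (h.good k).add (h'.good k)
  comp_mem x := by
    have : comp x (F + F') = comp x F + comp x F' := by
      ext1 k
      rw [comp_apply, Pi.add_apply, Matrix.add_apply, add_smul]; rfl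
    rw [this]; exact add_mem (h.comp_mem x) (h'.comp_mem x)
  cont x := by
    have : (fun k => (F + F') k x 0) = (fun k => F k x 0) + fun k => F' k x 0 := rfl
    rw [this]; exact (h.cont x).add (h'.cont x)
  hat x g k := by
    rw [Pi.add_apply, Pi.add_apply, Matrix.add_apply, Matrix.add_apply, h.hat, h'.hat, mul_add]
  poly x := by
    have : (fun k => (F + F') k x 0) = (fun k => F k x 0) + fun k => F' k x 0 := rfl
    rw [this]; exact add_mem (h.poly x) (h'.poly x)

lemma comp_mul {F F' : E} (h : ∀ k, Good (F k)) (x : W) :
    comp x (F * F') = ∑ p, comp (x + p) F * comp p F' := by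
  ext1 k
  rw [comp_apply, Pi.mul_apply, (h k).mul_coef, Finset.sum_apply, Finset.sum_smul]
  refine Finset.sum_congr rfl fun p _ => ?_
  have h1 : T (x + p) * T p = sg (x + p) p • T x := by
    rw [T_mul, add_assoc, W.add_self, add_zero]
  rw [Pi.mul_apply, comp_apply, comp_apply, smul_mul_smul_comm, h1, smul_smul]
  rw [mul_comm (sg (x + p) p)]

lemma Nice.mul {F F' : E} (h : Nice F) (h' : Nice F') : Nice (F * F') where
  good k := (h.good k).mul (h'.good k)
  comp_mem x := by
    rw [comp_mul h.good]
    exact sum_mem fun p _ => mul_mem (h.comp_mem _) (h'.comp_mem _)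
  cont x := by
    simp only [Pi.mul_apply, (h.good _).mul_coef]
    exact continuous_finsetSum _ fun p _ =>
      continuous_const.mul ((h.cont _).mul (h'.cont _))
  hat x g k := by
    rw [Pi.mul_apply, Pi.mul_apply, (h.good _).mul_coef, (h.good _).mul_coef, Finset.mul_sum]
    refine Finset.sum_congr rfl fun p _ => ?_
    rw [h.hat, h'.hat]
    have : pr x g = pr (x + p) g * pr p g := by
      rw [← pr_add_left, add_assoc, W.add_self, add_zero]
    rw [this]; ring
  poly x := by
    have : (fun k => (F * F') k x 0) = ∑ p, sg (x + p) p • ((fun k => F k (x + p) 0) *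
        (fun k => F' k p 0)) := by
      ext1 k
      rw [Pi.mul_apply, (h.good _).mul_coef, Finset.sum_apply]
      rfl
    rw [this]
    exact sum_mem fun p _ => O.smul_mem (mul_mem (h.poly _) (h'.poly _)) _

lemma Nice.star {F : E} (h : Nice F) : Nice (star F) where
  good k := (h.good k).conjTranspose
  comp_mem x := by
    have : comp x (Star.star F) = Star.star (comp x F) := by
      ext1 k
      rw [comp_apply, Pi.star_apply, Pi.star_apply, comp_apply, StarModule.star_smul,
        Matrix.star_eq_conjTranspose, Matrix.star_eq_conjTranspose, (h.good k).conjTranspose_coef,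
        T_conjTranspose, smul_smul, mul_comm]
    rw [this]; exact star_mem (h.comp_mem x)
  cont x := by
    simp only [Pi.star_apply, Matrix.star_eq_conjTranspose, (h.good _).conjTranspose_coef]
    exact continuous_const.mul (h.cont x).star
  hat x g k := by
    rw [Pi.star_apply, Pi.star_apply, Matrix.star_eq_conjTranspose, Matrix.star_eq_conjTranspose,
      (h.good _).conjTranspose_coef, (h.good _).conjTranspose_coef, h.hat, star_mul', star_pr]
    ring
  poly x := by
    have : (fun k => (Star.star F) k x 0) = sg x x • Star.star (fun k => F k x 0) := by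
      ext1 k
      rw [Pi.star_apply, Matrix.star_eq_conjTranspose, (h.good _).conjTranspose_coef]
      rfl
    rw [this]
    exact O.smul_mem (star_mem_O (h.poly x)) _

/-- all elements of `A` are nice -/
lemma nice_of_mem {F : E} (hF : F ∈ A) : Nice F := by
  induction hF using StarAlgebra.adjoin_induction with
  | mem x hx => obtain ⟨g, rfl⟩ := hx; exact nice_w g
  | algebraMap c => exact nice_algebraMap c
  | add x y _ _ hx hy => exact hx.add hy
  | mul x y _ _ hx hy => exact hx.mul hy
  | star x _ hx => exact hx.star

end Pool.Agent.W444.CC
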