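import Pool.Agent.W444.CC.Quat

/-!
# Analysis of one block
-/

noncomputable section

namespace Pool.Agent.W444.CC

/-- the pairing of the Klein four-group with itself -/
def sq (x a : Q4) : ℂ := ((sgn (om x a) : ℤ) : ℂ)

lemma sq_add_left (x y a : Q4) : sq (x + y) a = sq x a * sq y a := by
  rw [sq, sq, sq, ← Int.cast_mul, ← sgn_add, om_add_left]

lemma sq_add_right (x a b : Q4) : sq x (a + b) = sq x a * sq x b := by
  rw [sq, sq, sq, ← Int.cast_mul, ← sgn_add, om_add_right]

lemma sq_mul_self (x a : Q4) : sq x a * sq x a = 1 := by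
  rw [sq, ← Int.cast_mul, sgn_mul_self, Int.cast_one]

lemma sq_comm (x a : Q4) : sq x a = sq a x := by
  have : ∀ x a : Q4, om x a = om a x := by decide
  rw [sq, sq, this]

lemma sq_zero_right (x : Q4) : sq x 0 = 1 := by simp [sq, om]

lemma sum_sq (a : Q4) : ∑ x, sq x a = if a = 0 then 4 else 0 := by
  have h : ∑ x, sgn (om x a) = if a = 0 then 4 else 0 := by revert a; decide
  have h2 := congrArg (fun z : ℤ => (z : ℂ)) h
  simp only [Int.cast_sum] at h2
  simp only [sq]
  rw [h2]
  split_ifs <;> simp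

/-- Fourier transform -/
def ft (f : Q4 → ℂ) (x : Q4) : ℂ := ∑ c, sq x c * f c

lemma ft_inv (f : Q4 → ℂ) (c : Q4) : f c = (1/4) * ∑ x, sq x c * ft f x := by
  have h1 : ∑ x, sq x c * ft f x = ∑ d, (∑ x, sq x (c + d)) * f d := by
    simp only [ft, Finset.mul_sum, Finset.sum_mul]
    rw [Finset.sum_comm]
    refine Finset.sum_congr rfl fun d _ => Finset.sum_congr rfl fun x _ => ?_
    rw [sq_add_right]; ring
  rw [h1, Finset.sum_eq_single c]
  · rw [Q4.add_self, sum_sq, if_pos rfl]; ring
  · intro d _ hd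
    rw [sum_sq, if_neg, zero_mul]
    intro h
    apply hd
    have : ∀ c d : Q4, c + d = 0 → d = c := by decide
    exact this c d h
  · simp

lemma ft_single (a : Q4) (x : Q4) : ft (Pi.single a 1) x = sq x a := by
  rw [ft, Finset.sum_eq_single a]
  · simp
  · intro b _ hb
    rw [Pi.single_eq_of_ne hb, mul_zero]
  · simp

/-- convolution -/
def conv (f f' : Q4 → ℂ) (c : Q4) : ℂ := ∑ a, f a * f' (c + a)

lemma sum_shift {M : Type*} [AddCommMonoid M] (c : Q4) (f : Q4 → M) :
    ∑ a, f (c + a) = ∑ a, f a :=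
  (Equiv.addLeft c : Q4 ≃ Q4).bijective.sum_comp f

lemma ft_conv (f f' : Q4 → ℂ) (x : Q4) : ft (conv f f') x = ft f x * ft f' x := by
  rw [ft, ft, ft, Finset.sum_mul_sum]
  simp only [conv, Finset.mul_sum]
  rw [Finset.sum_comm]
  refine Finset.sum_congr rfl fun a _ => ?_
  rw [← sum_shift a (fun c => sq x c * (f a * f' (c + a)))]
  refine Finset.sum_congr rfl fun c _ => ?_
  have h : a + c + a = c := by revert a c; decide
  rw [h, sq_add_right]; ring

/-- a unital algebra of functions on the Klein four-group -/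
structure FAlg (D : Set (Q4 → ℂ)) : Prop where
  const : ∀ c : ℂ, (fun _ => c) ∈ D
  add : ∀ f ∈ D, ∀ g ∈ D, f + g ∈ D
  mul : ∀ f ∈ D, ∀ g ∈ D, f * g ∈ D

/-- indicator function -/
def ind (S : Finset Q4) : Q4 → ℂ := fun x => if x ∈ S then 1 else 0

lemma key1 : ∀ (L : Finset Q4) (x0 y z : Q4), (y ≠ x0 ∧ z ≠ x0 ∧ y ∈ L ∧ ¬ z ∈ L) →
    ((L ∩ {x0}ᶜ).card = 2 ∨ ((L ∩ {x0}ᶜ) ∪ {x0}).card = 2) := by
  decide

lemma key2 : ∀ (L : Finset Q4) (y z : Q4), y ∈ L → z ∉ L →
    L.card = 2 ∨ (∃ x0, L = {x0}) ∨ ∃ x0, Lᶜ = {x0} := by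
  decide

section falg

variable {D : Set (Q4 → ℂ)} (hD : FAlg D)

include hD

lemma FAlg.smul (c : ℂ) {f : Q4 → ℂ} (hf : f ∈ D) : (fun x => c * f x) ∈ D :=
  hD.mul _ (hD.const c) _ hf

lemma FAlg.prod {ι : Type*} (s : Finset ι) (f : ι → Q4 → ℂ) (h : ∀ i ∈ s, f i ∈ D) :
    (fun x => ∏ i ∈ s, f i x) ∈ D := by
  classical
  induction s using Finset.induction_on with
  | empty => simpa using hD.const 1
  | insert i s hi ih =>
    have h1 : (fun x => ∏ j ∈ insert i s, f j x) = f i * fun x => ∏ j ∈ s, f j x := by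
      funext x
      rw [Finset.prod_insert hi]; rfl
    rw [h1]
    exact hD.mul _ (h i (Finset.mem_insert_self _ _)) _
      (ih fun j hj => h j (Finset.mem_insert_of_mem hj))

/-- level sets -/
lemma FAlg.level {f : Q4 → ℂ} (hf : f ∈ D) (x : Q4) :
    ind (Finset.univ.filter fun y => f y = f x) ∈ D := by
  classical
  have h1 : (fun y => ∏ z ∈ Finset.univ.filter (fun z => f z ≠ f x),
      (f x - f z)⁻¹ * (f y + -f z)) ∈ D := by
    refine hD.prod _ (fun z y => (f x - f z)⁻¹ * (f y + -f z)) fun z _ => ?_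
    exact hD.smul _ (hD.add _ hf _ (hD.const (-f z)))
  have h2 : (fun y => ∏ z ∈ Finset.univ.filter (fun z => f z ≠ f x),
      (f x - f z)⁻¹ * (f y + -f z)) = ind (Finset.univ.filter fun y => f y = f x) := by
    funext y
    rw [ind]
    simp only [Finset.mem_filter, Finset.mem_univ, true_and]
    split_ifs with hy
    · refine Finset.prod_eq_one fun z hz => ?_
      rw [hy]
      simp only [Finset.mem_filter, Finset.mem_univ, true_and] at hz
      rw [← sub_eq_add_neg, inv_mul_cancel₀]
      exact sub_ne_zero.2 (Ne.symm hz)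
    · refine Finset.prod_eq_zero (i := y) (by simpa using hy) ?_
      rw [add_neg_cancel, mul_zero]
  rw [← h2]
  exact h1

lemma FAlg.compl {S : Finset Q4} (hS : ind S ∈ D) : ind Sᶜ ∈ D := by
  have h : ind Sᶜ = (fun _ => 1) + fun x => (-1) * ind S x := by
    funext x
    rw [Pi.add_apply, ind, ind]
    by_cases hx : x ∈ S <;> simp [hx]
  rw [h]
  exact hD.add _ (hD.const 1) _ (hD.smul _ hS)

lemma FAlg.inter {S S' : Finset Q4} (hS : ind S ∈ D) (hS' : ind S' ∈ D) : ind (S ∩ S') ∈ D := by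
  have h : ind (S ∩ S') = ind S * ind S' := by
    funext x
    rw [Pi.mul_apply, ind, ind, ind]
    by_cases hx : x ∈ S <;> by_cases hx' : x ∈ S' <;> simp [hx, hx']
  rw [h]
  exact hD.mul _ hS _ hS'

lemma FAlg.union {S S' : Finset Q4} (hS : ind S ∈ D) (hS' : ind S' ∈ D) : ind (S ∪ S') ∈ D := by
  have h : S ∪ S' = (Sᶜ ∩ S'ᶜ)ᶜ := by
    rw [Finset.compl_inter, compl_compl, compl_compl]
  rw [h]
  exact hD.compl (hD.inter (hD.compl hS) (hD.compl hS'))

omit hD in
lemma two_sets : ∀ S : Finset Q4, S.card = 2 → ∃ a : Q4, a ≠ 0 ∧ ∃ t : ZMod 2,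
    ∀ x, (if x ∈ S then (1 : ℤ) else -1) = sgn t * sgn (om x a) := by
  decide

lemma FAlg.axis_of_two {S : Finset Q4} (hS : ind S ∈ D) (h2 : S.card = 2) :
    ∃ a : Q4, a ≠ 0 ∧ (fun x => sq x a) ∈ D := by
  obtain ⟨a, ha, t, h⟩ := two_sets S h2
  refine ⟨a, ha, ?_⟩
  have h3 : (fun x => sq x a) = (fun x => (2 * (sgn t : ℤ) : ℂ) * ind S x) +
      fun _ => (-(sgn t : ℤ) : ℂ) := by
    funext x
    have h4 := h x
    have h5 : (sgn (om x a) : ℤ) = sgn t * (if x ∈ S then (1 : ℤ) else -1) := by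
      rw [h4, ← mul_assoc, sgn_mul_self, one_mul]
    rw [Pi.add_apply, sq, h5, ind]
    by_cases hx : x ∈ S
    · simp [hx]; ring
    · simp [hx]
  rw [h3]
  exact hD.add _ (hD.smul _ hS) _ (hD.const _)

/-- If there is no axis, the functions are constant off one point. -/
lemma FAlg.classify (hno : ∀ a : Q4, a ≠ 0 → (fun x => sq x a) ∉ D) :
    ∃ x0 : Q4, ∀ f ∈ D, ∀ y z, y ≠ x0 → z ≠ x0 → f y = f z := by
  classical
  have hcard : ∀ S : Finset Q4, ind S ∈ D → S.card ≠ 2 := by
    intro S hS h2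
    obtain ⟨a, ha, h⟩ := hD.axis_of_two hS h2
    exact hno a ha h
  by_cases hS : ∃ x0 : Q4, ind {x0} ∈ D
  · obtain ⟨x0, hx0⟩ := hS
    refine ⟨x0, fun f hf y z hy hz => ?_⟩
    by_contra hyz
    have hL := hD.level hf y
    set L := Finset.univ.filter fun w => f w = f y with hLdef
    have hyL : y ∈ L := by simp [hLdef]
    have hzL : z ∉ L := by
      simp only [hLdef, Finset.mem_filter, Finset.mem_univ, true_and]
      exact fun h => hyz h.symm
    have hL' := hD.inter hL (hD.compl hx0)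
    rcases key1 L x0 y z ⟨hy, hz, hyL, hzL⟩ with h | h
    · exact hcard _ hL' h
    · exact hcard _ (hD.union hL' hx0) h
  · push Not at hS
    refine ⟨0, fun f hf y z _ _ => ?_⟩
    by_contra hyz
    have hL := hD.level hf y
    set L := Finset.univ.filter fun w => f w = f y with hLdef
    have hyL : y ∈ L := by simp [hLdef]
    have hzL : z ∉ L := by
      simp only [hLdef, Finset.mem_filter, Finset.mem_univ, true_and]
      exact fun h => hyz h.symm
    rcases key2 L y z hyL hzL with h | ⟨x0, h⟩ | ⟨x0, h⟩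
    · exact hcard _ hL h
    · rw [h] at hL; exact hS x0 hL
    · have hL' := hD.compl hL
      rw [h] at hL'; exact hS x0 hL'

end falg

section block

variable {B : Type} [Ring B] [Algebra ℂ B] (U : Q4 → Q4 → B)

/-- invariant elements -/
def Inv : Set (Q4 → ℂ) := {f | ∀ c, ∑ b, f b • U c b = f c • (1 : B)}

/-- the relations of one block -/
structure IsBlock : Prop where
  zero_right : ∀ a, U a 0 = if a = 0 then 1 else 0
  zero_left : ∀ b, U 0 b = if b = 0 then 1 else 0
  mul : ∀ c b b', ∑ a, U a b * U (c + a) b' = U c (b + b')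
  row : ∀ a a', ∑ b, U a b * U a' b = if a = a' then 1 else 0
  col : ∀ b b', ∑ a, U a b * U a b' = if b = b' then 1 else 0

variable {U} (hU : IsBlock U)

include hU

lemma IsBlock.conv_mul (f f' : Q4 → ℂ) (c : Q4) :
    ∑ b, conv f f' b • U c b = ∑ a, (∑ b, f b • U a b) * (∑ b, f' b • U (c + a) b) := by
  have h1 : ∀ a, (∑ b, f b • U a b) * (∑ b, f' b • U (c + a) b) =
      ∑ b, ∑ b', (f b * f' b') • (U a b * U (c + a) b') := by
    intro a
    rw [Finset.sum_mul_sum]
    refine Finset.sum_congr rfl fun b _ => Finset.sum_congr rfl fun b' _ => ?_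
    rw [smul_mul_smul_comm]
  simp only [h1]
  rw [Finset.sum_comm]
  have h2 : ∀ b, ∑ a, ∑ b', (f b * f' b') • (U a b * U (c + a) b') =
      ∑ b', (f b * f' b') • U c (b + b') := by
    intro b
    rw [Finset.sum_comm]
    refine Finset.sum_congr rfl fun b' _ => ?_
    rw [← Finset.smul_sum, hU.mul]
  simp only [h2]
  have h3 : ∀ b, ∑ b', (f b * f' b') • U c (b + b') = ∑ d, (f b * f' (d + b)) • U c d := by
    intro b
    rw [← sum_shift b (fun d => (f b * f' (d + b)) • U c d)]
    refine Finset.sum_congr rfl fun b' _ => ?_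
    have h : b + b' + b = b' := by revert b b'; decide
    rw [h]
  simp only [h3]
  rw [Finset.sum_comm]
  refine Finset.sum_congr rfl fun d _ => ?_
  rw [conv, Finset.sum_smul]

/-- products of eigenvectors with inverse eigenvalues are invariant -/
lemma IsBlock.conv_mem {f f' : Q4 → ℂ} {g g' : B} (hg : g * g' = 1)
    (hf : ∀ c, ∑ b, f b • U c b = f c • g) (hf' : ∀ c, ∑ b, f' b • U c b = f' c • g') :
    conv f f' ∈ Inv U := by
  intro c
  rw [hU.conv_mul]
  simp only [hf, hf', smul_mul_smul_comm, hg]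
  rw [conv, Finset.sum_smul]

/-- the Fourier transforms of the invariant elements form an algebra -/
lemma IsBlock.falg : FAlg {F | ∃ f ∈ Inv U, F = ft f} where
  const c := by
    refine ⟨fun a => if a = 0 then c else 0, ?_, ?_⟩
    · intro a
      rw [Finset.sum_eq_single 0]
      · show (if (0 : Q4) = 0 then c else 0) • U a 0 = (if a = 0 then c else 0) • (1 : B)
        rw [if_pos rfl, hU.zero_right]
        split_ifs <;> simp
      · intro b _ hb
        show (if b = 0 then c else 0) • U a b = 0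
        rw [if_neg hb, zero_smul]
      · simp
    · funext x
      rw [ft, Finset.sum_eq_single 0]
      · rw [if_pos rfl, sq_zero_right, one_mul]
      · intro b _ hb
        rw [if_neg hb, mul_zero]
      · simp
  add := by
    rintro _ ⟨f, hf, rfl⟩ _ ⟨f', hf', rfl⟩
    refine ⟨f + f', ?_, ?_⟩
    · intro c
      simp only [Pi.add_apply, add_smul, Finset.sum_add_distrib]
      rw [hf c, hf' c]
    · funext x
      rw [Pi.add_apply, ft, ft, ft, ← Finset.sum_add_distrib]
      exact Finset.sum_congr rfl fun a _ => by rw [Pi.add_apply, mul_add]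
  mul := by
    rintro _ ⟨f, hf, rfl⟩ _ ⟨f', hf', rfl⟩
    refine ⟨conv f f', hU.conv_mem (one_mul (1 : B)) hf hf', ?_⟩
    funext x
    rw [ft_conv]; rfl

omit hU in
lemma ft_injective {f f' : Q4 → ℂ} (h : ft f = ft f') : f = f' := by
  funext c
  rw [ft_inv f, ft_inv f', h]

/-- one row of the Fourier transform of `U` -/
def Rx (U : Q4 → Q4 → B) (x b : Q4) : B := ∑ c, sq x c • U c b

lemma IsBlock.Rx_mul (x b b' : Q4) : Rx U x b * Rx U x b' = Rx U x (b + b') := by
  rw [Rx, Rx, Rx, Finset.sum_mul_sum]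
  simp only [← hU.mul, Finset.smul_sum]
  rw [Finset.sum_comm (f := fun c a => sq x c • (U a b * U (c + a) b'))]
  refine Finset.sum_congr rfl fun a _ => ?_
  rw [← sum_shift a (fun a' => sq x a • U a b * sq x a' • U a' b')]
  refine Finset.sum_congr rfl fun c _ => ?_
  rw [smul_mul_smul_comm, sq_add_right, ← mul_assoc, sq_mul_self, one_mul, add_comm a c]

/-- the diagonal entries of the magic unitary -/
def px (U : Q4 → Q4 → B) (x : Q4) : B := (1/4 : ℂ) • ∑ b, sq x b • Rx U x b

lemma IsBlock.px_mul_self (x : Q4) : px U x * px U x = px U x := by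
  rw [px, smul_mul_smul_comm, Finset.sum_mul_sum]
  have h1 : ∀ b, ∑ b', sq x b • Rx U x b * sq x b' • Rx U x b' = ∑ d, sq x d • Rx U x d := by
    intro b
    rw [← sum_shift b (fun d => sq x d • Rx U x d)]
    refine Finset.sum_congr rfl fun b' _ => ?_
    rw [smul_mul_smul_comm, hU.Rx_mul, sq_add_right]
  simp only [h1]
  rw [Finset.sum_const, ← Nat.cast_smul_eq_nsmul ℂ, smul_smul]
  congr 1
  simp

/-- diagonal sums -/
def Xc (U : Q4 → Q4 → B) (d : Q4) : B := ∑ c, U c (d + c)

omit hU in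
lemma px_eq (x : Q4) : px U x = (1/4 : ℂ) • ∑ d, sq x d • Xc U d := by
  rw [px]
  congr 1
  simp only [Rx, Xc, Finset.smul_sum]
  rw [Finset.sum_comm]
  conv_rhs => rw [Finset.sum_comm]
  refine Finset.sum_congr rfl fun c _ => ?_
  rw [← sum_shift c (fun b => sq x b • sq x c • U c b)]
  refine Finset.sum_congr rfl fun d _ => ?_
  rw [smul_smul, sq_add_right, mul_right_comm, sq_mul_self, one_mul, add_comm]

/-- `X_c` is a combination of invariant vectors -/
def XInv (U : Q4 → Q4 → B) : Prop := ∃ (M : Finset B) (d : B → Q4 → ℂ), (∀ h ∈ M, d h ∈ Inv U) ∧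
  ∀ c, Xc U c = ∑ h ∈ M, d h c • h

omit [Algebra ℂ B] hU in
lemma factor_zero_of_sq {X : B} (h : X * X = 4 * X) : (X - 1) * X * (X - 4) = 0 := by
  have h4 : X * (X - 4) = 0 := by
    have : X * (X - 4) = X * X - 4 * X := by noncomm_ring
    rw [this, h, sub_self]
  rw [mul_assoc, h4, mul_zero]

/-- A block without axes. -/
lemma IsBlock.noaxis (hX : XInv U) (hno : ∀ a : Q4, a ≠ 0 → Pi.single a 1 ∉ Inv U) :
    (Xc U 0 - 1) * Xc U 0 * (Xc U 0 - 4) = 0 := by
  obtain ⟨x0, hx0⟩ := hU.falg.classify (by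
    rintro a ha ⟨f, hf, h⟩
    apply hno a ha
    have : Pi.single a 1 = f := by
      apply ft_injective
      rw [← h]
      funext x
      exact ft_single a x
    rw [this]; exact hf)
  obtain ⟨M, d, hd, hXd⟩ := hX
  have hc1 : ((1, 0) : Q4) ≠ 0 := by decide
  -- the form of the invariant vectors
  let t : (Q4 → ℂ) → ℂ := fun f => (1/4) * (ft f x0 - ft f (x0 + (1, 0)))
  have hy0 : ∀ x0 : Q4, x0 + (1, 0) ≠ x0 := by decide
  have hform : ∀ f ∈ Inv U, ∀ c, c ≠ 0 → f c = sq x0 c * t f := by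
    intro f hf c hc
    have hk : ∀ y, y ≠ x0 → ft f y = ft f (x0 + (1, 0)) := fun y hy =>
      hx0 _ ⟨f, hf, rfl⟩ _ _ hy (hy0 x0)
    have h1 : ∑ x, sq x c * ft f x = ∑ x, sq x c * (ft f x - ft f (x0 + (1, 0))) := by
      simp only [mul_sub, Finset.sum_sub_distrib, ← Finset.sum_mul, sum_sq]
      rw [if_neg hc, zero_mul, sub_zero]
    rw [ft_inv f c, h1, Finset.sum_eq_single x0]
    · simp only [t]; ring
    · intro y _ hy
      rw [hk y hy, sub_self, mul_zero]
    · simp
  set Y : B := ∑ h ∈ M, t (d h) • h with hY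
  have hXc : ∀ c, c ≠ 0 → Xc U c = sq x0 c • Y := by
    intro c hc
    rw [hXd, hY, Finset.smul_sum]
    refine Finset.sum_congr rfl fun h hh => ?_
    rw [hform _ (hd h hh) c hc, smul_smul]
  have hpx : ∀ x, px U x = (1/4 : ℂ) • (Xc U 0 + ((∑ c, sq (x + x0) c) - 1) • Y) := by
    intro x
    rw [px_eq]
    congr 1
    have h2 : ∑ c, sq x c • Xc U c = ∑ c, ((if c = 0 then Xc U 0 - Y else 0) +
        sq (x + x0) c • Y) := by
      refine Finset.sum_congr rfl fun c _ => ?_
      by_cases hc : c = 0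
      · subst hc
        rw [sq_zero_right, if_pos rfl, sq_zero_right, one_smul, one_smul, sub_add_cancel]
      · rw [hXc c hc, if_neg hc, zero_add, smul_smul, sq_add_left]
    rw [h2, Finset.sum_add_distrib, Finset.sum_ite_eq' Finset.univ (0 : Q4), ← Finset.sum_smul,
      if_pos (Finset.mem_univ _)]
    module
  have hpy : px U (x0 + (1, 0)) = (1/4 : ℂ) • (Xc U 0 - Y) := by
    rw [hpx]
    have h3 : ∑ c, sq (x0 + (1, 0) + x0) c = 0 := by
      have h4 : ∀ c, sq (x0 + (1, 0) + x0) c = sq c (1, 0) := by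
        intro c
        have h5 : ∀ x : Q4, x + (1, 0) + x = (1, 0) := by decide
        rw [h5, sq_comm]
      simp only [h4, sum_sq]
      rw [if_neg hc1]
    rw [h3]
    module
  have hidem := hU.px_mul_self (x0 + (1, 0))
  by_cases ht : ∀ f ∈ Inv U, t f = 0
  · -- the invariant vectors are the constants
    have hY0 : Y = 0 := by
      rw [hY]
      exact Finset.sum_eq_zero fun h hh => by rw [ht _ (hd h hh), zero_smul]
    rw [hY0, sub_zero] at hpy
    apply factor_zero_of_sq
    rw [hpy, smul_mul_smul_comm] at hidem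
    have h5 := congrArg (fun z : B => (16 : ℂ) • z) hidem
    simp only [smul_smul] at h5
    norm_num at h5
    rw [h5]
    have h6 : (4 : B) = algebraMap ℂ B 4 := (map_ofNat (algebraMap ℂ B) 4).symm
    rw [h6, Algebra.algebraMap_eq_smul_one, smul_mul_assoc, one_mul]
  · push Not at ht
    obtain ⟨f, hf, htf⟩ := ht
    have hs : ∀ c, ∑ b, sq x0 b • U c b = sq x0 c • (1 : B) := by
      intro c
      have h7 : ∀ b, f b = t f * sq x0 b + if b = 0 then f 0 - t f else 0 := by
        intro b
        by_cases hb : b = 0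
        · subst hb
          rw [if_pos rfl, sq_zero_right]; ring
        · rw [if_neg hb, hform f hf b hb]; ring
      have h8 := hf c
      have h9 : ∑ b, f b • U c b = t f • (∑ b, sq x0 b • U c b) + (f 0 - t f) • U c 0 := by
        have : ∀ b, f b • U c b = t f • (sq x0 b • U c b) +
            (if b = 0 then (f 0 - t f) • U c 0 else 0) := by
          intro b
          rw [h7 b, add_smul, mul_smul]
          by_cases hb : b = 0
          · subst hb; simp
          · simp [hb]
        simp only [this]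
        rw [Finset.sum_add_distrib, ← Finset.smul_sum, Finset.sum_ite_eq' Finset.univ (0 : Q4),
          if_pos (Finset.mem_univ _)]
      rw [h9, hU.zero_right] at h8
      have h10 : t f • (∑ b, sq x0 b • U c b) = t f • (sq x0 c • (1 : B)) := by
        rw [eq_sub_of_add_eq h8]
        by_cases hc : c = 0
        · subst hc
          rw [if_pos rfl, sq_zero_right]
          module
        · rw [if_neg hc, smul_zero, sub_zero, hform f hf c hc, smul_smul, mul_comm]
      have h11 := congrArg (fun z : B => (t f)⁻¹ • z) h10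
      simpa only [smul_smul, inv_mul_cancel₀ htf, one_smul, ← mul_assoc, one_mul] using h11
    have hpx0 : px U x0 = 1 := by
      rw [px]
      simp only [Rx, Finset.smul_sum]
      rw [Finset.sum_comm]
      have h12 : ∀ c, ∑ b, (1/4 : ℂ) • sq x0 b • sq x0 c • U c b = (1/4 : ℂ) • (1 : B) := by
        intro c
        rw [← Finset.smul_sum]
        congr 1
        simp only [smul_comm (sq x0 _) (sq x0 c)]
        rw [← Finset.smul_sum, hs, smul_smul, sq_mul_self, one_smul]
      simp only [h12]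
      rw [Finset.sum_const, ← Nat.cast_smul_eq_nsmul ℂ, smul_smul]
      simp
    rw [hpx] at hpx0
    have h13 : ∑ c, sq (x0 + x0) c = 4 := by
      rw [Q4.add_self]
      have : ∀ c, sq 0 c = 1 := fun c => by rw [sq_comm, sq_zero_right]
      simp [this]
    rw [h13] at hpx0
    set p := px U (x0 + (1, 0)) with hp
    have hX0 : Xc U 0 = 1 + (3 : ℂ) • p := by
      rw [hpy]
      have h14 : Xc U 0 = (4 : ℂ) • (1 : B) - (3 : ℂ) • Y := by
        rw [← hpx0]; module
      rw [h14]; module
    have h15 : Xc U 0 - 1 = (3 : ℂ) • p := by rw [hX0]; module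
    have h16 : Xc U 0 - 4 = (3 : ℂ) • (p - 1) := by
      have h6 : (4 : B) = (4 : ℂ) • (1 : B) := by
        rw [← Algebra.algebraMap_eq_smul_one]; exact (map_ofNat (algebraMap ℂ B) 4).symm
      rw [hX0, h6]; module
    have h17 : p * Xc U 0 = (4 : ℂ) • p := by
      rw [hX0, mul_add, mul_one, mul_smul_comm, hidem]; module
    rw [h15, h16, smul_mul_assoc, h17, smul_smul, smul_mul_smul_comm, mul_sub, mul_one, hidem,
      sub_self, smul_zero]

/-- axes -/
lemma IsBlock.axis_right {a : Q4} (ha : Pi.single a 1 ∈ Inv U) (c : Q4) :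
    U c a = if c = a then 1 else 0 := by
  have h := ha c
  rw [Finset.sum_eq_single a] at h
  · rw [Pi.single_eq_same, one_smul] at h
    rw [h]
    by_cases hc : c = a
    · subst hc; simp
    · simp [hc]
  · intro b _ hb
    rw [Pi.single_eq_of_ne hb, zero_smul]
  · simp

lemma IsBlock.axis_left {a : Q4} (ha : Pi.single a 1 ∈ Inv U) (c : Q4) :
    U a c = if a = c then 1 else 0 := by
  rw [← hU.col a c, Finset.sum_eq_single a]
  · rw [hU.axis_right ha, if_pos rfl, one_mul]
  · intro b _ hb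
    rw [hU.axis_right ha, if_neg hb, zero_mul]
  · simp

omit hU in
lemma key3 : ∀ t a c d : Q4, (om t a = 1 ∧ c ≠ d ∧ c ≠ 0 ∧ d ≠ 0 ∧ c ≠ a ∧ d ≠ a) →
    om t c + om t d = 1 := by
  decide

/-- A block with an axis anticommuting with another axis. -/
lemma IsBlock.diag {a : Q4} (ha : Pi.single a 1 ∈ Inv U) (t : Q4) (hta : om t a = 1)
    (hcomm : ∀ c d, U c d = ((sgn (om t c + om t d) : ℤ) : ℂ) • U c d) :
    (Xc U 0 - 1) * Xc U 0 * (Xc U 0 - 4) = 0 := by
  have hoff : ∀ c d, c ≠ d → U c d = 0 := by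
    intro c d hcd
    by_cases h1 : c = 0
    · subst h1; rw [hU.zero_left, if_neg (Ne.symm hcd)]
    by_cases h2 : d = 0
    · subst h2; rw [hU.zero_right, if_neg hcd]
    by_cases h3 : c = a
    · subst h3; rw [hU.axis_left ha, if_neg hcd]
    by_cases h4 : d = a
    · subst h4; rw [hU.axis_right ha, if_neg hcd]
    have h5 := hcomm c d
    rw [key3 t a c d ⟨hta, hcd, h1, h2, h3, h4⟩, sgn_one] at h5
    have h6 : (2 : ℂ) • U c d = 0 := by
      have : (2 : ℂ) • U c d = U c d - ((-1 : ℤ) : ℂ) • U c d := by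
        push_cast; module
      rw [this, ← h5, sub_self]
    rcases smul_eq_zero.1 h6 with h | h
    · norm_num at h
    · exact h
  have hmul : ∀ b b', U b b * U b' b' = U (b + b') (b + b') := by
    intro b b'
    rw [← hU.mul (b + b') b b', Finset.sum_eq_single b]
    · have : b + b' + b = b' := by revert b b'; decide
      rw [this]
    · intro c _ hc
      rw [hoff c b hc, zero_mul]
    · simp
  apply factor_zero_of_sq
  have hX0 : Xc U 0 = ∑ c, U c c := by
    rw [Xc]; exact Finset.sum_congr rfl fun c _ => by rw [zero_add]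
  rw [hX0, Finset.sum_mul_sum]
  have h1 : ∀ b, ∑ b', U b b * U b' b' = ∑ c, U c c := by
    intro b
    simp only [hmul]
    exact sum_shift b (fun c => U c c)
  simp only [h1]
  rw [Finset.sum_const, nsmul_eq_mul]
  congr 1

end block

end Pool.Agent.W444.CC
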