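import Pool.Agent.W444.CC.Hopf

/-!
# Characters of commutative subalgebras and a bound for C*-seminorms
-/

noncomputable section

namespace Pool.Agent.W444.CC

open Pool.Agent.W444.QG

/-- characters of commutative Banach algebras -/
lemma exists_character {D : Type*} [NormedRing D] [NormedAlgebra ℂ D] [CompleteSpace D]
    (hcomm : ∀ x y : D, x * y = y * x) (a : D) (z : ℂ) (hz : z ∈ spectrum ℂ a) :
    ∃ f : D →ₐ[ℂ] ℂ, f a = z := by
  let _ : NormedCommRing D := { (inferInstance : NormedRing D) with mul_comm := hcomm }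
  obtain ⟨f, hf⟩ := (WeakDual.CharacterSpace.mem_spectrum_iff_exists).1 hz
  exact ⟨WeakDual.CharacterSpace.toAlgHom f, hf⟩

/-- norm attaining characters of commutative subalgebras of C*-algebras -/
lemma exists_norm_character {D : Type*} [CStarAlgebra D] [Nontrivial D] (S : StarSubalgebra ℂ D)
    (hS : ∀ x y : S, x * y = y * x) (z : D) (hz : z ∈ S) (hsa : IsSelfAdjoint z) :
    ∃ ω : S →ₐ[ℂ] ℂ, ‖ω ⟨z, hz⟩‖ = ‖z‖ ∧
      ∀ (y : D) (h : star y * y ∈ S), ∃ t : ℝ, 0 ≤ t ∧ ω ⟨star y * y, h⟩ = (t : ℂ) := by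
  set T := S.topologicalClosure with hT
  have hle : S ≤ T := S.le_topologicalClosure
  have hclosed : IsClosed (T : Set D) := S.isClosed_topologicalClosure
  have hTcomm : ∀ x y : T, x * y = y * x := by
    let _ := S.commRingTopologicalClosure hS
    intro x y
    exact mul_comm x y
  have hcomplete : CompleteSpace T := hclosed.completeSpace_coe
  obtain ⟨l, hl, hl2⟩ := spectrum.exists_nnnorm_eq_spectralRadius z
  rw [hsa.spectralRadius_eq_nnnorm] at hl2
  have hl3 : ‖l‖ = ‖z‖ := by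
    have := ENNReal.coe_injective hl2
    exact congrArg NNReal.toReal this
  have hl4 : l ∈ spectrum ℂ (⟨z, hle hz⟩ : T) := by
    rw [StarSubalgebra.spectrum_eq (hS := hclosed)]
    exact hl
  obtain ⟨f, hf⟩ := exists_character hTcomm _ l hl4
  refine ⟨f.comp (StarSubalgebra.inclusion hle : S →ₐ[ℂ] T), ?_, ?_⟩
  · show ‖f ⟨z, hle hz⟩‖ = ‖z‖
    rw [hf, hl3]
  · intro y h
    have h1 : f ⟨star y * y, hle h⟩ ∈ spectrum ℂ (⟨star y * y, hle h⟩ : T) :=
      AlgHom.apply_mem_spectrum f _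
    rw [StarSubalgebra.spectrum_eq (hS := hclosed)] at h1
    have hsa2 : IsSelfAdjoint (star y * y) := IsSelfAdjoint.star_mul_self y
    have h2 : f ⟨star y * y, hle h⟩ = ((f ⟨star y * y, hle h⟩).re : ℂ) :=
      hsa2.mem_spectrum_eq_re h1
    refine ⟨(f ⟨star y * y, hle h⟩).re, ?_, h2⟩
    rw [h2] at h1
    exact spectrum_star_mul_self_nonneg _ ((spectrum.algebraMap_mem_iff ℂ).1 h1)

end Pool.Agent.W444.CC
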