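import Pool.Agent.W444.CC.Four
import Pool.Agent.W444.QG.Square

/-!
# The comultiplication
-/

noncomputable section

namespace Pool.Agent.W444.CC

open Quaternion Matrix
open scoped TensorProduct Kronecker

/-- Two commuting `*`-homomorphisms give a `*`-homomorphism of the algebraic tensor product. -/
def pairStar {A B D : Type*} [Ring A] [StarRing A] [Algebra ℂ A] [StarModule ℂ A]
    [Ring B] [StarRing B] [Algebra ℂ B] [StarModule ℂ B]
    [Ring D] [StarRing D] [Algebra ℂ D] [StarModule ℂ D]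
    (φ : A →⋆ₐ[ℂ] D) (ψ : B →⋆ₐ[ℂ] D) (h : ∀ a b, φ a * ψ b = ψ b * φ a) :
    A ⊗[ℂ] B →⋆ₐ[ℂ] D where
  __ := Algebra.TensorProduct.lift (φ : A →ₐ[ℂ] D) (ψ : B →ₐ[ℂ] D) (fun a b => h a b)
  map_star' t := by
    show Algebra.TensorProduct.lift (φ : A →ₐ[ℂ] D) (ψ : B →ₐ[ℂ] D) _ (star t) =
      star (Algebra.TensorProduct.lift (φ : A →ₐ[ℂ] D) (ψ : B →ₐ[ℂ] D) _ t)
    induction t with
    | zero => simp
    | tmul a b =>
      rw [TensorProduct.star_tmul]
      show φ (star a) * ψ (star b) = star (φ a * ψ b)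
      rw [h, star_mul, StarHomClass.map_star, StarHomClass.map_star]
    | add s t hs ht => rw [star_add, map_add, map_add, star_add, hs, ht]

lemma pairStar_tmul {A B D : Type*} [Ring A] [StarRing A] [Algebra ℂ A] [StarModule ℂ A]
    [Ring B] [StarRing B] [Algebra ℂ B] [StarModule ℂ B]
    [Ring D] [StarRing D] [Algebra ℂ D] [StarModule ℂ D]
    (φ : A →⋆ₐ[ℂ] D) (ψ : B →⋆ₐ[ℂ] D) (h : ∀ a b, φ a * ψ b = ψ b * φ a) (a : A) (b : B) :
    pairStar φ ψ h (a ⊗ₜ b) = φ a * ψ b := rfl

instance instDecWW : DecidableEq (W × W) := inferInstance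
instance instFinWW : Fintype (W × W) := inferInstance

/-- matrix valued functions of two variables -/
abbrev E2 : Type := K × K → Matrix (W × W) (W × W) ℂ

/-- permutation of the legs -/
def legs : (W × W) ≃ (W × W) where
  toFun p := ((p.1.1, p.2.1), (p.2.2, p.1.2))
  invFun p := ((p.1.1, p.2.2), (p.1.2, p.2.1))
  left_inv _ := rfl
  right_inv _ := rfl

/-- the embedding of the left factor -/
def kL : Matrix W W ℂ →⋆ₐ[ℂ] Matrix (W × W) (W × W) ℂ where
  toFun M := (M ⊗ₖ (1 : Matrix W W ℂ)).submatrix legs legs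
  map_one' := by rw [Matrix.one_kronecker_one, Matrix.submatrix_one_equiv]
  map_mul' M N := by rw [Matrix.submatrix_mul_equiv, ← Matrix.mul_kronecker_mul, Matrix.mul_one]
  map_zero' := by rw [Matrix.zero_kronecker]; rfl
  map_add' M N := by rw [Matrix.add_kronecker]; rfl
  commutes' c := by
    rw [Algebra.algebraMap_eq_smul_one, Algebra.algebraMap_eq_smul_one, Matrix.smul_kronecker,
      Matrix.one_kronecker_one, Matrix.submatrix_smul]
    exact congrArg (fun Z : Matrix (W × W) (W × W) ℂ => c • Z) (Matrix.submatrix_one_equiv legs)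
  map_star' M := by
    rw [Matrix.star_eq_conjTranspose, Matrix.star_eq_conjTranspose, Matrix.conjTranspose_submatrix,
      Matrix.conjTranspose_kronecker, Matrix.conjTranspose_one]

/-- the embedding of the right factor -/
def kR : Matrix W W ℂ →⋆ₐ[ℂ] Matrix (W × W) (W × W) ℂ where
  toFun M := ((1 : Matrix W W ℂ) ⊗ₖ M).submatrix legs legs
  map_one' := by rw [Matrix.one_kronecker_one, Matrix.submatrix_one_equiv]
  map_mul' M N := by rw [Matrix.submatrix_mul_equiv, ← Matrix.mul_kronecker_mul, Matrix.mul_one]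
  map_zero' := by rw [Matrix.kronecker_zero]; rfl
  map_add' M N := by rw [Matrix.kronecker_add]; rfl
  commutes' c := by
    rw [Algebra.algebraMap_eq_smul_one, Algebra.algebraMap_eq_smul_one, Matrix.kronecker_smul,
      Matrix.one_kronecker_one, Matrix.submatrix_smul]
    exact congrArg (fun Z : Matrix (W × W) (W × W) ℂ => c • Z) (Matrix.submatrix_one_equiv legs)
  map_star' M := by
    rw [Matrix.star_eq_conjTranspose, Matrix.star_eq_conjTranspose, Matrix.conjTranspose_submatrix,
      Matrix.conjTranspose_kronecker, Matrix.conjTranspose_one]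

lemma kL_apply (M : Matrix W W ℂ) :
    kL M = (M ⊗ₖ (1 : Matrix W W ℂ)).submatrix legs legs := rfl
lemma kR_apply (M : Matrix W W ℂ) :
    kR M = ((1 : Matrix W W ℂ) ⊗ₖ M).submatrix legs legs := rfl

lemma kL_mul_kR (M N : Matrix W W ℂ) : kL M * kR N = (M ⊗ₖ N).submatrix legs legs := by
  rw [kL_apply, kR_apply, Matrix.submatrix_mul_equiv, ← Matrix.mul_kronecker_mul, Matrix.mul_one,
    Matrix.one_mul]

lemma kR_mul_kL (M N : Matrix W W ℂ) : kR N * kL M = (M ⊗ₖ N).submatrix legs legs := by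
  rw [kL_apply, kR_apply, Matrix.submatrix_mul_equiv, ← Matrix.mul_kronecker_mul, Matrix.mul_one,
    Matrix.one_mul]

/-- `F ↦ F ⊗ 1` -/
def JL : A →⋆ₐ[ℂ] E2 where
  toFun F := fun p => kL ((F : E) p.1)
  map_one' := funext fun _ => map_one kL
  map_mul' _ _ := funext fun _ => map_mul kL _ _
  map_zero' := funext fun _ => map_zero kL
  map_add' _ _ := funext fun _ => map_add kL _ _
  commutes' c := funext fun _ => AlgHomClass.commutes kL c
  map_star' _ := funext fun _ => StarHomClass.map_star kL _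

/-- `F ↦ 1 ⊗ F` -/
def JR : A →⋆ₐ[ℂ] E2 where
  toFun F := fun p => kR ((F : E) p.2)
  map_one' := funext fun _ => map_one kR
  map_mul' _ _ := funext fun _ => map_mul kR _ _
  map_zero' := funext fun _ => map_zero kR
  map_add' _ _ := funext fun _ => map_add kR _ _
  commutes' c := funext fun _ => AlgHomClass.commutes kR c
  map_star' _ := funext fun _ => StarHomClass.map_star kR _

lemma JL_comm (F F' : A) : JL F * JR F' = JR F' * JL F := by
  funext p
  show kL _ * kR _ = kR _ * kL _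
  rw [kL_mul_kR, kR_mul_kL]

/-- the embedding of `A ⊗ A` -/
def J : A ⊗[ℂ] A →⋆ₐ[ℂ] E2 := pairStar JL JR JL_comm

lemma J_tmul (F F' : A) (p : K × K) :
    J (F ⊗ₜ F') p = ((F : E) p.1 ⊗ₖ (F' : E) p.2).submatrix legs legs := by
  have h := congrFun (pairStar_tmul JL JR JL_comm F F') p
  exact h.trans (kL_mul_kR _ _)

lemma J_injective : Function.Injective J := by
  rw [injective_iff_map_eq_zero]
  intro t ht
  obtain ⟨c, rfl⟩ := TensorProduct.eq_repr_basis_left (Module.Basis.ofVectorSpace ℂ A) t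
  set b := Module.Basis.ofVectorSpace ℂ A with hb
  have h1 : ∀ i ∈ c.support, c i = 0 := by
    intro i hi
    apply A_ext
    intro l
    rw [zero_apply']
    ext p' q'
    have h2 : ∑ j ∈ c.support, (c j : E) l p' q' • b j = 0 := by
      apply A_ext
      intro k
      rw [sum_apply', zero_apply']
      ext p q
      have h3 := congrFun ht (k, l)
      rw [Finsupp.sum, map_sum, Finset.sum_apply] at h3
      have h4 := congrFun (congrFun h3 (legs.symm (p, p'))) (legs.symm (q, q'))
      rw [Matrix.sum_apply] at h4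
      rw [Matrix.sum_apply]
      simp only [J_tmul, Matrix.submatrix_apply, Equiv.apply_symm_apply,
        Matrix.kroneckerMap_apply] at h4
      rw [Matrix.zero_apply]
      refine Eq.trans ?_ h4
      refine Finset.sum_congr rfl fun j _ => ?_
      rw [smul_apply', Matrix.smul_apply, smul_eq_mul, mul_comm]
    have h5 := linearIndependent_iff'.1 b.linearIndependent c.support
      (fun j => (c j : E) l p' q') h2 i hi
    exact h5
  have h6 : c = 0 := by
    ext1 i
    by_cases hi : i ∈ c.support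
    · exact h1 i hi
    · simpa using hi
  rw [h6, Finsupp.sum_zero_index]

lemma r_hat (q q' : S3) (h a b : Q4) :
    r ((q : ℍ[ℝ]) * (eS h : ℍ[ℝ]) * (q' : ℍ[ℝ])) a b =
      ∑ c, (r q a c * ((sgn (om c h) : ℤ) : ℝ)) * r q' c b := by
  rw [r_comp]
  refine Finset.sum_congr rfl fun c _ => ?_
  rw [r_comp, Finset.sum_eq_single c]
  · change _ * r (e h) c c * _ = _
    rw [r_e, if_pos rfl]
  · intro d _ hd
    change _ * r (e h) d c = 0
    rw [r_e, if_neg hd, mul_zero]
  · simp

lemma kron_sum {ι : Type*} (s : Finset ι) (M : Matrix W W ℂ) (f : ι → Matrix W W ℂ) :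
    ∑ i ∈ s, M ⊗ₖ f i = M ⊗ₖ (∑ i ∈ s, f i) := by
  ext p q
  rw [Matrix.sum_apply, Matrix.kroneckerMap_apply, Matrix.sum_apply, Finset.mul_sum]
  rfl

/-- the comultiplication with values in functions -/
def D2 : A →⋆ₐ[ℂ] E2 where
  toFun F := fun p => ∑ h, (F : E) (p.1 * hat h * p.2) ⊗ₖ P h
  map_one' := by
    funext p
    simp only [one_apply']
    rw [kron_sum, sum_P, Matrix.one_kronecker_one]; rfl
  map_mul' F F' := by
    funext p
    rw [Pi.mul_apply, Finset.sum_mul_sum]
    refine Finset.sum_congr rfl fun h _ => ?_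
    rw [Finset.sum_eq_single h]
    · rw [← Matrix.mul_kronecker_mul, P_mul, if_pos rfl]; rfl
    · intro h' _ hh
      rw [← Matrix.mul_kronecker_mul, P_mul, if_neg (Ne.symm hh), Matrix.kronecker_zero]
    · simp
  map_zero' := by
    funext p
    simp only [zero_apply', Matrix.zero_kronecker, Finset.sum_const_zero]; rfl
  map_add' F F' := by
    funext p
    rw [Pi.add_apply, ← Finset.sum_add_distrib]
    refine Finset.sum_congr rfl fun h _ => ?_
    rw [← Matrix.add_kronecker]; rfl
  commutes' c := by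
    funext p
    have h1 : ∀ k : K, ((algebraMap ℂ A c : A) : E) k = c • 1 := fun k => algMap_apply c k
    simp only [h1, Matrix.smul_kronecker, ← Finset.smul_sum]
    rw [kron_sum, sum_P, Matrix.one_kronecker_one, Pi.algebraMap_apply,
      Algebra.algebraMap_eq_smul_one]
  map_star' F := by
    funext p
    rw [Pi.star_apply, Matrix.star_eq_conjTranspose, Matrix.conjTranspose_sum]
    refine Finset.sum_congr rfl fun h _ => ?_
    rw [Matrix.conjTranspose_kronecker, P_conjTranspose]; rfl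

lemma D2_apply (F : A) (p : K × K) :
    D2 F p = ∑ h, (F : E) (p.1 * hat h * p.2) ⊗ₖ P h := by
  exact rfl

lemma T_legs (x y : W) :
    (T x ⊗ₖ T y).submatrix legs legs = T (x.1, y.2) ⊗ₖ T (x.2, y.1) := by
  ext ⟨⟨a, b⟩, ⟨c, d⟩⟩ ⟨⟨a', b'⟩, ⟨c', d'⟩⟩
  simp only [Matrix.submatrix_apply, Matrix.kroneckerMap_apply, T_apply, legs, Equiv.coe_fn_mk, sg]
  simp only [Prod.ext_iff, Prod.fst_add, Prod.snd_add]
  by_cases h1 : a = x.1 + a' <;> by_cases h2 : b = y.2 + b' <;> by_cases h3 : c = x.2 + c' <;>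
    by_cases h4 : d = y.1 + d' <;> simp [h1, h2, h3, h4, sgn_add]
  ring

lemma D2_gen (i : Fin 3) (a b : Q4) : D2 (gen i a b) = J (∑ c, gen i a c ⊗ₜ gen i c b) := by
  funext ⟨k, l⟩
  rw [D2_apply, map_sum, Finset.sum_apply]
  simp only [J_tmul, gen_apply, Matrix.smul_kronecker, Matrix.kronecker_smul,
    Matrix.submatrix_smul, Pi.smul_apply]
  have h0 : ∀ h : V, r (((k * hat h * l) i : S3) : ℍ[ℝ]) a b =
      ∑ c, (r (k i) a c * ((sgn (om c (h i)) : ℤ) : ℝ)) * r (l i) c b := fun h =>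
    r_hat (k i) (l i) (h i) a b
  simp only [h0]
  have h1 : ∀ c, (T (wt i a, wt i c) ⊗ₖ T (wt i c, wt i b)).submatrix legs legs =
      T (wt i a, wt i b) ⊗ₖ T (wt i c, wt i c) := fun c => T_legs _ _
  simp only [h1]
  have h2 : ∀ h : V, (((∑ c, (r (k i) a c * ((sgn (om c (h i)) : ℤ) : ℝ)) * r (l i) c b : ℝ)) : ℂ) •
      (T (wt i a, wt i b) ⊗ₖ P h) = ∑ c, (((r (k i) a c : ℝ) : ℂ) * ((r (l i) c b : ℝ) : ℂ)) •
        (T (wt i a, wt i b) ⊗ₖ (pv (wt i c) h • P h)) := by
    intro h
    rw [Complex.ofReal_sum, Finset.sum_smul]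
    refine Finset.sum_congr rfl fun c _ => ?_
    rw [Matrix.kronecker_smul, smul_smul, pv, omV_wt]
    congr 1
    push_cast
    ring
  simp only [h2]
  rw [Finset.sum_comm]
  refine Finset.sum_congr rfl fun c _ => ?_
  rw [← Finset.smul_sum, kron_sum, fourier, mul_smul, smul_comm]

lemma D2_mem (F : A) : D2 F ∈ J.range := by
  have hle : A ≤ (J.range.comap D2).map A.subtype := by
    refine StarAlgebra.adjoin_le ?_
    rintro _ ⟨g, rfl⟩
    refine ⟨gen g.1 g.2.1 g.2.2, ?_, rfl⟩
    exact ⟨_, (D2_gen _ _ _).symm⟩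
  obtain ⟨F', hF', h⟩ := hle F.2
  have : F' = F := Subtype.ext h
  rw [← this]
  exact hF'

/-- the comultiplication -/
def Del : A →⋆ₐ[ℂ] A ⊗[ℂ] A :=
  ((StarAlgEquiv.ofInjective J J_injective).symm : J.range →⋆ₐ[ℂ] A ⊗[ℂ] A).comp
    (D2.codRestrict J.range D2_mem)

lemma J_Del (F : A) : J (Del F) = D2 F := by
  have h := (StarAlgEquiv.ofInjective J J_injective).apply_symm_apply
    (D2.codRestrict J.range D2_mem F)
  exact congrArg Subtype.val h

lemma Del_gen (i : Fin 3) (a b : Q4) : Del (gen i a b) = ∑ c, gen i a c ⊗ₜ gen i c b := by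
  apply J_injective
  rw [J_Del, D2_gen]

end Pool.Agent.W444.CC
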