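import Pool.Agent.W444.CC.Eval

/-!
# Connectedness
-/

set_option synthInstance.maxSize 1024

noncomputable section

namespace Pool.Agent.W444.CC

open Quaternion Matrix
open Pool.Agent.W444.QG
open scoped Matrix.Norms.L2Operator TensorProduct

/-- scalar multiples of the identity as a `*`-homomorphism -/
def scal (D : Type) [CStarAlgebra D] : ℂ →⋆ₐ[ℂ] D where
  __ := Algebra.ofId ℂ D
  map_star' c := algebraMap_star_comm c

lemma scal_apply (D : Type) [CStarAlgebra D] (c : ℂ) : scal D c = algebraMap ℂ D c := rfl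

/-- `χ_h ⊗ id` -/
lemma exists_left (h : V) : ∃ θ : QG.square.T →⋆ₐ[ℂ] CG,
    (∀ a, θ (QG.square.left a) = algebraMap ℂ CG (chiC h a)) ∧ ∀ b, θ (QG.square.right b) = b :=
  (QG.square.lift CG ((scal CG).comp (chiC h)) (StarAlgHom.id ℂ CG)
    (fun a b => Algebra.commutes (chiC h a) b)).exists

/-- `id ⊗ χ_h` -/
lemma exists_right (h : V) : ∃ θ : QG.square.T →⋆ₐ[ℂ] CG,
    (∀ a, θ (QG.square.left a) = a) ∧
      ∀ b, θ (QG.square.right b) = algebraMap ℂ CG (chiC h b) :=
  (QG.square.lift CG (StarAlgHom.id ℂ CG) ((scal CG).comp (chiC h))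
    (fun a b => (Algebra.commutes (chiC h b) a).symm)).exists

/-- the comultiplication on the generators -/
lemma comul_gen (i : Fin 3) (a b : Q4) : QG.comul (toC (gen i a b)) =
    ∑ c, QG.square.tmul (toC (gen i a c)) (toC (gen i c b)) := by
  have h1 := QG.comul_u (e12.symm (i, a)) (e12.symm (i, b))
  have h2 : ∀ p q, QG.u (e12.symm p) (e12.symm q) = toC (uA p q) := by
    intro p q
    show toC (uA (e12 (e12.symm p)) (e12 (e12.symm q))) = _
    rw [Equiv.apply_symm_apply, Equiv.apply_symm_apply]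
  rw [h2, uA_same] at h1
  refine h1.trans ?_
  rw [← e12.symm.sum_comp]
  simp only [h2]
  rw [sum_block i]
  · simp only [uA_same]
  · intro j hj c
    rw [uA_off (Ne.symm hj), map_zero]
    show QG.square.left 0 * _ = 0
    rw [map_zero, zero_mul]

/-- `*`-homomorphisms from `C(G)` agreeing on the generators agree -/
lemma hom_ext {D : Type} [CStarAlgebra D] (f g : CG →⋆ₐ[ℂ] D)
    (h : ∀ i a b, f (toC (gen i a b)) = g (toC (gen i a b))) (c : CG) : f c = g c := by
  have h1 : IsClosed {c : CG | f c = g c} :=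
    isClosed_eq (star_hom_continuous f) (star_hom_continuous g)
  refine denseRange_toC.induction_on (p := fun c => f c = g c) c h1 fun F => ?_
  induction F using A_induction with
  | hgen i a b => exact h i a b
  | halg c => rw [AlgHomClass.commutes toC c, AlgHomClass.commutes f, AlgHomClass.commutes g]
  | hadd x y hx hy => rw [map_add, map_add, map_add, hx, hy]
  | hmul x y hx hy => rw [map_mul, map_mul, map_mul, hx, hy]

lemma hat_zero : hat 0 = 1 := by
  funext i
  apply Subtype.ext
  exact e_zero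

lemma wt_left_pr (i : Fin 3) (a b : Q4) (h : V) : pr (wt i a, wt i b) (h, 0) = pv (wt i a) h := by
  rw [pr_eq]
  show pv (wt i a) h * pv (wt i b) 0 = _
  rw [pv_zero_right, mul_one]

lemma wt_right_pr (i : Fin 3) (a b : Q4) (h : V) : pr (wt i a, wt i b) (0, h) = pv (wt i b) h := by
  rw [pr_eq]
  show pv (wt i a) 0 * pv (wt i b) h = _
  rw [pv_zero_right, one_mul]

lemma gen_translate_left (i : Fin 3) (a b : Q4) (h : V) (k : K) :
    (gen i a b : E) (hat h * k) = pv (wt i a) h • (gen i a b : E) k := by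
  have h1 := rf_hat (i, a, b) (h, 0) k
  rw [hat_zero, mul_one] at h1
  have h2 : pr (gw (i, a, b)) (h, 0) = pv (wt i a) h := wt_left_pr i a b h
  rw [h2] at h1
  show rf (i, a, b) (hat h * k) • T _ = pv (wt i a) h • rf (i, a, b) k • T _
  rw [h1, mul_smul]

lemma gen_translate_right (i : Fin 3) (a b : Q4) (h : V) (k : K) :
    (gen i a b : E) (k * hat h) = pv (wt i b) h • (gen i a b : E) k := by
  have h1 := rf_hat (i, a, b) (0, h) k
  rw [hat_zero, one_mul] at h1
  have h2 : pr (gw (i, a, b)) (0, h) = pv (wt i b) h := wt_right_pr i a b h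
  rw [h2] at h1
  show rf (i, a, b) (k * hat h) • T _ = pv (wt i b) h • rf (i, a, b) k • T _
  rw [h1, mul_smul]

section stable

variable (B : StarSubalgebra ℂ CG)
  (hB : ∀ b ∈ B, QG.comul b ∈
    Submodule.span ℂ {t | ∃ x ∈ B, ∃ y ∈ B, t = QG.square.tmul x y})

include hB

lemma stable_left (h : V) (b : CG) (hb : b ∈ B) :
    ∃ b' ∈ B, ∀ k, evC k b' = evC (hat h * k) b := by
  obtain ⟨θ, hθ1, hθ2⟩ := exists_left h
  let L : CG →⋆ₐ[ℂ] CG := θ.comp QG.comul
  refine ⟨L b, ?_, ?_⟩
  · have h1 : ∀ t ∈ Submodule.span ℂ {t | ∃ x ∈ B, ∃ y ∈ B, t = QG.square.tmul x y},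
        θ t ∈ B := by
      intro t ht
      induction ht using Submodule.span_induction with
      | mem t ht =>
        obtain ⟨x, _, y, hy, rfl⟩ := ht
        rw [TensorSquare.tmul, map_mul, hθ1, hθ2, ← Algebra.smul_def]
        exact B.smul_mem hy _
      | zero => rw [map_zero]; exact zero_mem B
      | add x y _ _ hx hy => rw [map_add]; exact add_mem hx hy
      | smul c x _ hx => rw [map_smul]; exact B.smul_mem hx c
    exact h1 _ (hB b hb)
  · intro k
    refine hom_ext ((evC k).comp L) (evC (hat h * k)) ?_ b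
    intro i a c
    show evC k (θ (QG.comul (toC (gen i a c)))) = evC (hat h * k) (toC (gen i a c))
    rw [comul_gen, map_sum]
    have h2 : ∀ d, θ (QG.square.tmul (toC (gen i a d)) (toC (gen i d c))) =
        if a = d then pv (wt i a) h • toC (gen i d c) else 0 := by
      intro d
      rw [TensorSquare.tmul, map_mul, hθ1, hθ2, ← Algebra.smul_def, chiC_toC, chi_gen]
      split_ifs <;> simp
    simp only [h2]
    rw [Finset.sum_ite_eq, if_pos (Finset.mem_univ _), map_smul, evC_toC, evC_toC,
      gen_translate_left]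

lemma stable_right (h : V) (b : CG) (hb : b ∈ B) :
    ∃ b' ∈ B, ∀ k, evC k b' = evC (k * hat h) b := by
  obtain ⟨θ, hθ1, hθ2⟩ := exists_right h
  let L : CG →⋆ₐ[ℂ] CG := θ.comp QG.comul
  refine ⟨L b, ?_, ?_⟩
  · have h1 : ∀ t ∈ Submodule.span ℂ {t | ∃ x ∈ B, ∃ y ∈ B, t = QG.square.tmul x y},
        θ t ∈ B := by
      intro t ht
      induction ht using Submodule.span_induction with
      | mem t ht =>
        obtain ⟨x, hx, y, _, rfl⟩ := ht
        rw [TensorSquare.tmul, map_mul, hθ1, hθ2, ← Algebra.commutes, ← Algebra.smul_def]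
        exact B.smul_mem hx _
      | zero => rw [map_zero]; exact zero_mem B
      | add x y _ _ hx hy => rw [map_add]; exact add_mem hx hy
      | smul c x _ hx => rw [map_smul]; exact B.smul_mem hx c
    exact h1 _ (hB b hb)
  · intro k
    refine hom_ext ((evC k).comp L) (evC (k * hat h)) ?_ b
    intro i a c
    show evC k (θ (QG.comul (toC (gen i a c)))) = evC (k * hat h) (toC (gen i a c))
    rw [comul_gen, map_sum]
    have h2 : ∀ d, θ (QG.square.tmul (toC (gen i a d)) (toC (gen i d c))) =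
        if d = c then pv (wt i c) h • toC (gen i a d) else 0 := by
      intro d
      rw [TensorSquare.tmul, map_mul, hθ1, hθ2, ← Algebra.commutes, ← Algebra.smul_def, chiC_toC,
        chi_gen]
      split_ifs with hd
      · subst hd; rfl
      · simp
    simp only [h2]
    rw [Finset.sum_ite_eq', if_pos (Finset.mem_univ _), map_smul, evC_toC, evC_toC,
      gen_translate_right]

/-- homogeneous components -/
lemma exists_component (x : W) (b : CG) (hb : b ∈ B) :
    ∃ b' ∈ B, ∀ k, evC k b' = cC x b k • T x := by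
  have h1 : ∀ h : W, ∃ b' ∈ B, ∀ k, evC k b' = evC (hat h.1 * k * hat h.2) b := by
    intro h
    obtain ⟨b1, hb1, h1⟩ := stable_left B hB h.1 b hb
    obtain ⟨b2, hb2, h2⟩ := stable_right B hB h.2 b1 hb1
    refine ⟨b2, hb2, fun k => ?_⟩
    rw [h2, h1, mul_assoc]
  choose β hβ1 hβ2 using h1
  refine ⟨(1 / 4096 : ℂ) • ∑ h, pr x h • β h,
    B.smul_mem (sum_mem fun h _ => B.smul_mem (hβ1 h) _) _, fun k => ?_⟩
  rw [map_smul, map_sum]
  have h2 : ∀ h : W, evC k (pr x h • β h) = ∑ y, (pr x h * pr y h * cC y b k) • T y := by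
    intro h
    rw [map_smul, hβ2, evC_eq_sum, Finset.smul_sum]
    refine Finset.sum_congr rfl fun y _ => ?_
    rw [cC_hat, smul_smul, mul_assoc]
  rw [Finset.sum_congr rfl fun h _ => h2 h, Finset.sum_comm]
  have h3 : ∀ y : W, ∑ h, (pr x h * pr y h * cC y b k) • T y =
      if x = y then ((4096 : ℂ) * cC y b k) • T y else 0 := by
    intro y
    rw [← Finset.sum_smul, ← Finset.sum_mul, sum_pr]
    split_ifs
    · rfl
    · rw [zero_mul, zero_smul]
  rw [Finset.sum_congr rfl fun y _ => h3 y, Finset.sum_ite_eq, if_pos (Finset.mem_univ _),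
    smul_smul]
  congr 1
  ring

end stable

/-- a continuous function on `K` with finitely many values is constant -/
lemma const_of_finite (φ : K → ℂ) (hφ : Continuous φ) (s : Set ℂ) (hs : s.Finite)
    (h : ∀ k, φ k ∈ s) (k k' : K) : φ k = φ k' := by
  have h1 : IsPreconnected (Set.range φ) := isPreconnected_range hφ
  have h2 : Set.range φ ⊆ s := by rintro _ ⟨k, rfl⟩; exact h k
  exact hs.countable.isTotallyDisconnected (Set.range φ) h2 h1 ⟨k, rfl⟩ ⟨k', rfl⟩

/-- elements of finite dimensional subalgebras with scalar values are constant -/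
lemma const_of_mem (B : StarSubalgebra ℂ CG) [FiniteDimensional ℂ B] (z : CG) (hz : z ∈ B)
    (φ : K → ℂ) (hφ : Continuous φ) (h : ∀ k, evC k z = φ k • 1) (k k' : K) : φ k = φ k' := by
  have h1 : IsIntegral ℂ (⟨z, hz⟩ : B) := Algebra.IsIntegral.isIntegral _
  obtain ⟨q, hq1, hq2⟩ := h1
  have h2 : Polynomial.aeval (⟨z, hz⟩ : B) q = 0 := hq2
  have h3 : ∀ k, q.eval (φ k) = 0 := by
    intro k
    let f : B →ₐ[ℂ] Matrix W W ℂ := (((evC k).comp B.subtype : B →⋆ₐ[ℂ] Matrix W W ℂ) :
      B →ₐ[ℂ] Matrix W W ℂ)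
    have h4 := congrArg f h2
    rw [map_zero, ← Polynomial.aeval_algHom_apply] at h4
    have h5 : f ⟨z, hz⟩ = algebraMap ℂ (Matrix W W ℂ) (φ k) := by
      rw [Algebra.algebraMap_eq_smul_one]
      exact h k
    rw [h5, Polynomial.aeval_algebraMap_apply] at h4
    have h6 := congrFun (congrFun h4 0) 0
    rw [Algebra.algebraMap_eq_smul_one, Matrix.smul_apply, Matrix.one_apply_eq, smul_eq_mul,
      mul_one, Matrix.zero_apply] at h6
    rw [← h6, Polynomial.coe_aeval_eq_eval]
  refine const_of_finite φ hφ (q.rootSet ℂ) (q.rootSet_finite ℂ) (fun k => ?_) k k'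
  rw [Polynomial.mem_rootSet]
  refine ⟨hq1.ne_zero, ?_⟩
  rw [Polynomial.coe_aeval_eq_eval]
  exact h3 k

lemma connected_aux (B : StarSubalgebra ℂ CG) (hfin : FiniteDimensional ℂ B)
    (hB : ∀ b ∈ B, QG.comul b ∈
      Submodule.span ℂ {t | ∃ x ∈ B, ∃ y ∈ B, t = QG.square.tmul x y})
    (b : CG) (hb : b ∈ B) : ∃ c : ℂ, b = c • 1 := by
  -- the coefficients are constant
  have h1 : ∀ x k k', cC x b k = cC x b k' := by
    intro x
    obtain ⟨bx, hbx, h1⟩ := exists_component B hB x b hb
    have h2 : ∀ k, evC k (bx * bx) = (cC x b k * cC x b k * sg x x) • 1 := by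
      intro k
      rw [map_mul, h1, smul_mul_smul_comm, T_mul, W.add_self, T_zero, smul_smul]
    have hcont : Continuous fun k => cC x b k * cC x b k * sg x x :=
      ((continuous_cC x b).mul (continuous_cC x b)).mul continuous_const
    have h3 := const_of_mem B (bx * bx) (mul_mem hbx hbx) _ hcont h2
    have h4 : ∀ k, cC x b k ∈ ({cC x b 1, - cC x b 1} : Set ℂ) := by
      intro k
      have h5 := h3 k 1
      have h6 : cC x b k * cC x b k = cC x b 1 * cC x b 1 := by
        have h7 := congrArg (fun z => z * sg x x) h5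
        simp only [mul_assoc, sg_mul_self, mul_one] at h7
        exact h7
      rw [Set.mem_insert_iff, Set.mem_singleton_iff]
      exact mul_self_eq_mul_self_iff.1 h6
    exact const_of_finite _ (continuous_cC x b) _ (by simp) h4
  have h2 : ∀ x, x ≠ 0 → ∀ k, cC x b k = 0 := by
    intro x hx k
    have h3 : ∑ h : W, cC x b (hat h.1 * k * hat h.2) = ∑ h : W, pr x h * cC x b k :=
      Finset.sum_congr rfl fun h _ => cC_hat x h k b
    have h4 : ∑ h : W, pr x h = 0 := by
      have := sum_pr x 0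
      rw [if_neg hx] at this
      simpa only [pr_zero_left, mul_one] using this
    rw [← Finset.sum_mul, h4, zero_mul] at h3
    have h5 : ∑ h : W, cC x b (hat h.1 * k * hat h.2) = 4096 * cC x b k := by
      rw [Finset.sum_congr rfl fun h _ => h1 x (hat h.1 * k * hat h.2) k, Finset.sum_const,
        card_W, nsmul_eq_mul]
      norm_num
    rw [h5] at h3
    rcases mul_eq_zero.1 h3 with h6 | h6
    · norm_num at h6
    · exact h6
  refine ⟨cC 0 b 1, ?_⟩
  rw [← sub_eq_zero]
  apply eq_zero_of_cC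
  intro x k
  rw [cC_sub]
  have h3 : cC x (cC 0 b 1 • (1 : CG)) k = if x = 0 then cC 0 b 1 else 0 := by
    rw [cC, map_smul, map_one, Matrix.smul_apply, one_coef]
    split_ifs <;> simp
  rw [h3]
  split_ifs with hx
  · subst hx
    rw [h1 0 k 1, sub_self]
  · rw [h2 x hx k, sub_self]

/-- a subspace with the properties of a `*`-subalgebra -/
def toStar (B : Submodule ℂ CG) (h1 : (1 : CG) ∈ B) (hm : ∀ x ∈ B, ∀ y ∈ B, x * y ∈ B)
    (hs : ∀ x ∈ B, star x ∈ B) : StarSubalgebra ℂ CG where
  carrier := B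
  mul_mem' {x y} hx hy := hm x hx y hy
  one_mem' := h1
  add_mem' {x y} hx hy := B.add_mem hx hy
  zero_mem' := B.zero_mem
  algebraMap_mem' c := by
    rw [Algebra.algebraMap_eq_smul_one]
    exact B.smul_mem c h1
  star_mem' {x} hx := hs x hx

/-- `G` is connected. -/
theorem connected : QG.IsConnected := by
  rintro B ⟨hfin, h1, hm, hs⟩ hB b hb
  have hfin' : FiniteDimensional ℂ (toStar B h1 hm hs) := hfin
  exact connected_aux (toStar B h1 hm hs) hfin' hB b hb

end Pool.Agent.W444.CC
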