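import Pool.Agent.W444.CC.Norm

/-!
# Evaluation homomorphisms
-/

set_option synthInstance.maxSize 1024

noncomputable section

namespace Pool.Agent.W444.CC

open Quaternion Matrix
open Pool.Agent.W444.QG
open scoped Matrix.Norms.L2Operator

/-- evaluation at a point -/
def evA (k : K) : A →⋆ₐ[ℂ] Matrix W W ℂ where
  toFun F := (F : E) k
  map_one' := one_apply' k
  map_mul' x y := mul_apply' x y k
  map_zero' := zero_apply' k
  map_add' _ _ := rfl
  commutes' c := (algMap_apply c k).trans (Algebra.algebraMap_eq_smul_one c).symm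
  map_star' x := star_apply' x k

lemma evA_apply (k : K) (F : A) : evA k F = (F : E) k := by exact rfl

/-- evaluation at a point -/
def evC (k : K) : CG →⋆ₐ[ℂ] Matrix W W ℂ := Envelope.lift (evA k)

lemma evC_toC (k : K) (F : A) : evC k (toC F) = (F : E) k :=
  (Envelope.lift_incl _ F).trans (evA_apply k F)

lemma norm_evC_le (k : K) (c : CG) : ‖evC k c‖ ≤ ‖c‖ := NonUnitalStarAlgHom.norm_apply_le (evC k) c

lemma continuous_evC (k : K) : Continuous (evC k) :=
  AddMonoidHomClass.continuous_of_bound (evC k) 1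
    (fun x => by rw [one_mul]; exact norm_evC_le k x)

lemma entry_le' {n : Type} [Fintype n] [DecidableEq n] (M : Matrix n n ℂ) (x y : n) :
    ‖M x y‖ ≤ ‖M‖ := by
  have h1 := Matrix.l2_opNorm_mulVec M (EuclideanSpace.single y (1 : ℂ))
  rw [PiLp.norm_single, norm_one, mul_one] at h1
  refine le_trans ?_ h1
  have h2 := PiLp.norm_apply_le (WithLp.toLp 2 (M *ᵥ (EuclideanSpace.single y (1 : ℂ)).ofLp)) x
  refine le_trans (le_of_eq ?_) h2
  congr 1
  show M x y = (M *ᵥ (EuclideanSpace.single y (1 : ℂ)).ofLp) x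
  rw [PiLp.ofLp_single, Matrix.mulVec_single_one]
  rfl

lemma entry_le (M : Matrix W W ℂ) (x y : W) : ‖M x y‖ ≤ ‖M‖ := entry_le' M x y

/-- the coefficients of an element of `C(G)` -/
def cC (x : W) (c : CG) (k : K) : ℂ := evC k c x 0

lemma cC_sub (x : W) (c c' : CG) (k : K) : cC x (c - c') k = cC x c k - cC x c' k := by
  rw [cC, map_sub, Matrix.sub_apply, cC, cC]

lemma norm_cC_le (x : W) (c : CG) (k : K) : ‖cC x c k‖ ≤ ‖c‖ :=
  (entry_le _ _ _).trans (norm_evC_le k c)

lemma cC_toC (x : W) (F : A) (k : K) : cC x (toC F) k = (F : E) k x 0 := by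
  rw [cC, evC_toC]

lemma norm_toC_le (F : A) (M : ℝ) (hM0 : 0 ≤ M) (hM : ∀ x k, ‖cC x (toC F) k‖ ≤ M) :
    ‖toC F‖ ≤ 4096 * M := by
  have h1 : ‖toC F‖ = CStarSeminorm.max bddA F := CStarSeminorm.norm_incl _ F
  rw [h1]
  refine CStarSeminorm.max_le _ _ _ fun p => ?_
  refine seminorm_le p F M hM0 fun x k => ?_
  rw [← cC_toC]
  exact hM x k

/-- approximation by elements of `A` -/
lemma exists_approx (c : CG) {ε : ℝ} (hε : 0 < ε) : ∃ F : A, ‖c - toC F‖ < ε := by
  obtain ⟨F, hF⟩ := Metric.denseRange_iff.1 denseRange_toC c ε hε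
  exact ⟨F, by rwa [← dist_eq_norm]⟩

/-- elements of `C(G)` are determined by their coefficients -/
lemma eq_zero_of_cC (c : CG) (h : ∀ x k, cC x c k = 0) : c = 0 := by
  by_contra hc
  have hn : 0 < ‖c‖ := norm_pos_iff.2 hc
  obtain ⟨F, hF⟩ := exists_approx c (show (0 : ℝ) < ‖c‖ / 8192 by positivity)
  have h1 : ‖toC F‖ ≤ 4096 * (‖c‖ / 8192) := by
    refine norm_toC_le F _ (by positivity) fun x k => ?_
    have h2 : cC x (toC F) k = - cC x (c - toC F) k := by
      rw [cC_sub, h x k]; ring
    rw [h2, norm_neg]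
    exact (norm_cC_le x _ k).trans hF.le
  have h3 : ‖c‖ ≤ ‖c - toC F‖ + ‖toC F‖ := by
    have := norm_add_le (c - toC F) (toC F)
    rwa [sub_add_cancel] at this
  linarith

lemma continuous_cC (x : W) (c : CG) : Continuous (cC x c) := by
  refine continuous_of_uniform_approx_of_continuous ?_
  intro u hu
  obtain ⟨ε, hε, hu2⟩ := Metric.mem_uniformity_dist.1 hu
  obtain ⟨F, hF⟩ := exists_approx c hε
  refine ⟨cC x (toC F), ?_, ?_⟩
  · have h1 : cC x (toC F) = fun k => (F : E) k x 0 := funext (cC_toC x F)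
    rw [h1]
    exact (nice_of_mem F.2).cont x
  · intro k
    apply hu2
    rw [dist_eq_norm, ← cC_sub]
    exact (norm_cC_le x _ k).trans_lt hF

lemma continuous_entry (k : K) (x y : W) : Continuous fun c : CG => evC k c x y := by
  have h1 : LipschitzWith 1 fun c : CG => evC k c x y := by
    refine LipschitzWith.of_dist_le_mul fun c c' => ?_
    rw [dist_eq_norm, dist_eq_norm, ← Matrix.sub_apply, ← map_sub]
    simp only [NNReal.coe_one, one_mul]
    exact (entry_le _ _ _).trans (norm_evC_le k _)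
  exact h1.continuous

/-- the values are good matrices -/
lemma evC_good (k : K) (c : CG) : Good (evC k c) := by
  refine good_of_apply fun p q => ?_
  have h1 : IsClosed {c : CG | evC k c p q = sg (p + q) q * evC k c (p + q) 0} :=
    isClosed_eq (continuous_entry k p q) (continuous_const.mul (continuous_entry k (p + q) 0))
  have h2 : ∀ c, c ∈ {c : CG | evC k c p q = sg (p + q) q * evC k c (p + q) 0} := by
    intro c
    refine denseRange_toC.induction_on c h1 fun F => ?_
    show evC k (toC F) p q = sg (p + q) q * evC k (toC F) (p + q) 0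
    rw [evC_toC]
    exact ((nice_of_mem F.2).good k).apply p q
  exact h2 c

lemma evC_eq_sum (k : K) (c : CG) : evC k c = ∑ x, cC x c k • T x := evC_good k c

/-- equivariance -/
lemma cC_hat (x h : W) (k : K) (c : CG) :
    cC x c (hat h.1 * k * hat h.2) = pr x h * cC x c k := by
  have h1 : IsClosed {c : CG | cC x c (hat h.1 * k * hat h.2) = pr x h * cC x c k} :=
    isClosed_eq (continuous_entry _ x 0) (continuous_const.mul (continuous_entry k x 0))
  have h2 : ∀ c, c ∈ {c : CG | cC x c (hat h.1 * k * hat h.2) = pr x h * cC x c k} := by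
    intro c
    refine denseRange_toC.induction_on c h1 fun F => ?_
    show cC x (toC F) (hat h.1 * k * hat h.2) = pr x h * cC x (toC F) k
    rw [cC_toC, cC_toC]
    exact (nice_of_mem F.2).hat x h k
  exact h2 c

end Pool.Agent.W444.CC
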