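import Pool.Agent.W444.CC.Tori

/-!
# The spun diagonal tori of `G`
-/

set_option synthInstance.maxSize 1024

noncomputable section

namespace Pool.Agent.W444.CC

open Matrix
open scoped TensorProduct
open Pool.Agent.W444.QG

/-- the reindexed matrix -/
def Qre (Q : Matrix (Fin 12) (Fin 12) ℂ) : Matrix I I ℂ := Q.submatrix e12.symm e12.symm

lemma Qre_submatrix (Q : Matrix (Fin 12) (Fin 12) ℂ) : (Qre Q).submatrix e12 e12 = Q := by
  ext i j
  simp [Qre]

lemma scM_submatrix (Q : Matrix (Fin 12) (Fin 12) ℂ) :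
    ((scM A (Qre Q)).submatrix e12 e12).map toC = QG.sc Q := by
  ext i j
  simp only [Matrix.map_apply, Matrix.submatrix_apply, scM, Qre, ClosedSubgroup.sc,
    Equiv.symm_apply_apply]
  exact AlgHomClass.commutes toC (Q i j)

lemma conj_eq (Q : Matrix (Fin 12) (Fin 12) ℂ) :
    QG.conj Q = ((vA (Qre Q)).submatrix e12 e12).map toC := by
  have h1 : (vA (Qre Q)).submatrix e12 e12 = (scM A (Qre Q)).submatrix e12 e12 * u12 *
      (scM A (Qre Qᴴ)).submatrix e12 e12 := by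
    rw [vA, u12, Matrix.submatrix_mul_equiv, Matrix.submatrix_mul_equiv]
    rfl
  rw [h1, Matrix.map_mul, Matrix.map_mul, scM_submatrix, scM_submatrix]
  rfl

lemma Qre_left {Q : Matrix (Fin 12) (Fin 12) ℂ} (hQ : Qᴴ * Q = 1) : (Qre Q)ᴴ * Qre Q = 1 := by
  rw [Qre, Matrix.conjTranspose_submatrix, Matrix.submatrix_mul_equiv, hQ,
    Matrix.submatrix_one_equiv]

lemma Qre_right {Q : Matrix (Fin 12) (Fin 12) ℂ} (hQ : Q * Qᴴ = 1) : Qre Q * (Qre Q)ᴴ = 1 := by
  rw [Qre, Matrix.conjTranspose_submatrix, Matrix.submatrix_mul_equiv, hQ,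
    Matrix.submatrix_one_equiv]

/-- The element `P` vanishes in all the spun diagonal quotients. -/
theorem toTorus_PA (Q : Matrix (Fin 12) (Fin 12) ℂ) (hQ : Q ∈ Matrix.unitaryGroup (Fin 12) ℂ) :
    QG.toTorus Q (toC PA) = 0 := by
  have hQ1 : Qᴴ * Q = 1 := (Matrix.mem_unitaryGroup_iff').1 hQ
  have hQ2 : Q * Qᴴ = 1 := (Matrix.mem_unitaryGroup_iff).1 hQ
  have hP := piB_PA (Qre_left hQ1) (Qre_right hQ2)
  let ρ : A →+* QG.TorusQuot Q := (QG.toTorus Q).comp (toC : A →+* CG)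
  have hρ : ∀ p q : I, p ≠ q → ρ (vA (Qre Q) p q) = 0 := by
    intro p q hpq
    have h1 : toC (vA (Qre Q) p q) = QG.conj Q (e12.symm p) (e12.symm q) := by
      rw [conj_eq]
      simp
    show QG.toTorus Q (toC (vA (Qre Q) p q)) = 0
    rw [h1]
    exact QG.toTorus_off (fun h => hpq (e12.symm.injective h))
  have hρ' : ∀ ⦃a b : A⦄, torRel (Qre Q) a b → ρ a = ρ b := by
    rintro _ _ ⟨i, j, hij, rfl, rfl⟩
    rw [hρ i j hij, map_zero]
  have h4 : RingQuot.lift ⟨ρ, hρ'⟩ (piB (Qre Q) PA) = ρ PA := by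
    have h5 : piB (Qre Q) PA = RingQuot.mkRingHom (torRel (Qre Q)) PA := by
      rw [← RingQuot.mkAlgHom_coe ℂ]; rfl
    rw [h5, RingQuot.lift_mkRingHom_apply]
  rw [hP, map_zero] at h4
  exact h4.symm

end Pool.Agent.W444.CC
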