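import Pool.Agent.W444.CC.Conn
import Pool.Agent.W444.CC.Torus2
import Pool.Agent.W444.QG.Central

/-!
# The central element, and fullness
-/

set_option synthInstance.maxSize 1024

noncomputable section

namespace Pool.Agent.W444.CC

open Quaternion Matrix
open Pool.Agent.W444.QG
open scoped Matrix.Norms.L2Operator TensorProduct

/-- the blocks of the fundamental corepresentation -/
def uB (i : Fin 3) : Matrix Q4 Q4 QG.C := fun a b => toC (gen i a b)

lemma isCorep_uB (i : Fin 3) : QG.IsCorep (uB i) := by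
  refine ⟨?_, ?_, ?_⟩
  · ext1 a b
    have h2 := congrArg toC (gen_col i a b)
    rw [map_sum] at h2
    rw [Matrix.mul_apply, Matrix.one_apply]
    refine Eq.trans (Finset.sum_congr rfl fun c _ => ?_) (h2.trans ?_)
    · show star (toC (gen i c a)) * toC (gen i c b) = toC (star (gen i c a) * gen i c b)
      rw [map_mul, StarHomClass.map_star]
    · split_ifs
      · exact toC_one
      · exact map_zero toC
  · ext1 a b
    have h2 := congrArg toC (gen_row i a b)
    rw [map_sum] at h2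
    rw [Matrix.mul_apply, Matrix.one_apply]
    refine Eq.trans (Finset.sum_congr rfl fun c _ => ?_) (h2.trans ?_)
    · show toC (gen i a c) * star (toC (gen i b c)) = toC (gen i a c * star (gen i b c))
      rw [map_mul, StarHomClass.map_star]
    · split_ifs
      · exact toC_one
      · exact map_zero toC
  · intro a b
    exact comul_gen i a b

lemma trace_mem {n : Type} [Fintype n] [DecidableEq n] {N : ℕ} {G : ClosedSubgroup N}
    {w : Matrix n n G.C} (hw : G.IsCorep w) : w.trace ∈ G.charMonoid := by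
  let e : Fin (Fintype.card n) ≃ n := (Fintype.equivFin n).symm
  refine ⟨Fintype.card n, w.submatrix e e, hw.reindex e, ?_⟩
  rw [Matrix.trace, Matrix.trace]
  exact (e.sum_comp (fun i => w.diag i)).symm

/-- the image of `P` in `C(G)` -/
def PC : QG.C := toC PA

lemma toC_fA_mem (i : Fin 3) : (toC (fA i) : CG) ∈
    Algebra.adjoin ℂ (QG.charMonoid : Set QG.C) := by
  apply Algebra.subset_adjoin
  have h1 := trace_mem (isCorep_uB i)
  have h2 : (uB i).trace = toC (fA i) := by
    rw [fA, map_sum]; rfl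
  rw [h2] at h1
  exact h1

lemma toC_PAi_mem (i : Fin 3) : (toC (PAi i) : CG) ∈
    Algebra.adjoin ℂ (QG.charMonoid : Set QG.C) := by
  have h1 : toC (PAi i) = (toC (fA i) - 1) * toC (fA i) * (toC (fA i) - 4) := by
    have h4 : toC (4 : A) = 4 := map_ofNat toC 4
    rw [PAi, map_mul, map_mul, map_sub, map_sub, toC_one, h4]
  rw [h1]
  have h2 := toC_fA_mem i
  refine mul_mem (mul_mem (sub_mem h2 (one_mem _)) h2) (sub_mem h2 ?_)
  exact ofNat_mem _ 4

/-- `P` is central. -/
theorem PC_mem : PC ∈ QG.central := by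
  apply QG.adjoin_le_central
  have h1 : PC = toC (PAi 0) * toC (PAi 1) * toC (PAi 2) := by
    rw [PC, PA, map_mul, map_mul]
  rw [h1]
  exact mul_mem (mul_mem (toC_PAi_mem 0) (toC_PAi_mem 1)) (toC_PAi_mem 2)

/-- a quaternion -/
def q1 : ℍ[ℝ] := ⟨3/5, 4/5, 0, 0⟩

/-- a unit quaternion -/
def q0 : S3 := ⟨q1, by
  rw [mem_sphere_zero_iff_norm]
  have h1 : ‖q1‖ * ‖q1‖ = 1 := by
    rw [← Quaternion.normSq_eq_norm_mul_self, Quaternion.normSq_def']
    norm_num [q1]
  nlinarith [norm_nonneg q1]⟩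

lemma trace_q0 : ∑ a, r q0 a a = 36/25 := by
  rw [sum_Q4]
  have h1 : ((q0 : S3) : ℍ[ℝ]) = ⟨3/5, 4/5, 0, 0⟩ := rfl
  rw [h1]
  simp [r, co, e_re, e_imI, e_imJ, e_imK]
  norm_num

/-- a point -/
def k0 : K := fun _ => q0

lemma fA_xi (i : Fin 3) : (fA i : E) k0 *ᵥ xi = (36/25 : ℂ) • xi := by
  have h1 : (fA i : E) k0 = ∑ a, ((r q0 a a : ℝ) : ℂ) • T (wt i a, wt i a) := by
    rw [fA, sum_apply']
    rfl
  rw [h1, Matrix.sum_mulVec]
  simp only [Matrix.smul_mulVec, T_xi]
  rw [← Finset.sum_smul, ← Complex.ofReal_sum, trace_q0]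
  congr 1
  norm_num

lemma mul_xi {F F' : A} {k : K} {c c' : ℂ} (h : (F : E) k *ᵥ xi = c • xi)
    (h' : (F' : E) k *ᵥ xi = c' • xi) : ((F * F' : A) : E) k *ᵥ xi = (c * c') • xi := by
  rw [mul_apply', ← Matrix.mulVec_mulVec, h', Matrix.mulVec_smul, h, smul_smul, mul_comm]

lemma sub_xi {F : A} {k : K} {c : ℂ} (h : (F : E) k *ᵥ xi = c • xi) (d : ℂ) :
    ((F - d • (1 : A) : A) : E) k *ᵥ xi = (c - d) • xi := by
  have h1 : ((F - d • (1 : A) : A) : E) k = (F : E) k - d • (1 : Matrix W W ℂ) := rfl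
  rw [h1, Matrix.sub_mulVec, h, Matrix.smul_mulVec, Matrix.one_mulVec, sub_smul]

lemma PAi_xi (i : Fin 3) : (PAi i : E) k0 *ᵥ xi = ((36/25 - 1) * (36/25) * (36/25 - 4) : ℂ) • xi := by
  have h1 : (1 : A) = (1 : ℂ) • (1 : A) := (one_smul ℂ _).symm
  have h4 : (4 : A) = (4 : ℂ) • (1 : A) := by
    rw [← Algebra.algebraMap_eq_smul_one]; exact (map_ofNat (algebraMap ℂ A) 4).symm
  have h5 : PAi i = (fA i - (1 : ℂ) • (1 : A)) * fA i * (fA i - (4 : ℂ) • (1 : A)) := by
    rw [PAi, ← h1, ← h4]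
  rw [h5]
  exact mul_xi (mul_xi (sub_xi (fA_xi i) 1) (fA_xi i)) (sub_xi (fA_xi i) 4)

/-- `P` is non-zero. -/
theorem PC_ne_zero : PC ≠ 0 := by
  intro h
  have h1 : evC k0 (toC PA) = 0 := by
    rw [show toC PA = (0 : CG) from h, map_zero]
  rw [evC_toC] at h1
  have h2 := mul_xi (mul_xi (PAi_xi 0) (PAi_xi 1)) (PAi_xi 2)
  rw [← PA, h1, Matrix.zero_mulVec] at h2
  have h3 := congrFun h2 0
  rw [Pi.smul_apply, xi_zero, smul_eq_mul, mul_one, Pi.zero_apply] at h3
  norm_num at h3

section full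

variable {N : ℕ}

/-- the evaluation as an algebra homomorphism -/
def evalHom {D : Type} [CStarAlgebra D] (w : Matrix (Fin N) (Fin N) D) :
    FreeAlgebra ℂ (Bool × Fin N × Fin N) →ₐ[ℂ] D :=
  FreeAlgebra.lift ℂ (fun x => if x.1 then star (w x.2.1 x.2.2) else w x.2.1 x.2.2)

lemma evalPoly_eq {D : Type} [CStarAlgebra D] (w : Matrix (Fin N) (Fin N) D)
    (p : FreeAlgebra ℂ (Bool × Fin N × Fin N)) :
    ClosedSubgroup.evalPoly w p = evalHom w p := rfl

lemma evalHom_iota {D : Type} [CStarAlgebra D] (w : Matrix (Fin N) (Fin N) D)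
    (x : Bool × Fin N × Fin N) :
    evalHom w (FreeAlgebra.ι ℂ x) = if x.1 then star (w x.2.1 x.2.2) else w x.2.1 x.2.2 := by
  rw [evalHom, FreeAlgebra.lift_ι_apply]

/-- Every noncommutative polynomial has an adjoint. -/
lemma exists_adjoint (p : FreeAlgebra ℂ (Bool × Fin N × Fin N)) :
    ∃ q, ∀ (D : Type) [CStarAlgebra D] (w : Matrix (Fin N) (Fin N) D),
      evalHom w q = star (evalHom w p) := by
  induction p using FreeAlgebra.induction with
  | grade0 c =>
    refine ⟨algebraMap ℂ _ (star c), fun D _ w => ?_⟩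
    rw [AlgHom.commutes, AlgHom.commutes, algebraMap_star_comm]
  | grade1 x =>
    refine ⟨FreeAlgebra.ι ℂ (!x.1, x.2), fun D _ w => ?_⟩
    rw [evalHom_iota, evalHom_iota]
    rcases x with ⟨b, i, j⟩
    cases b <;> simp
  | add p q hp hq =>
    obtain ⟨p', hp'⟩ := hp
    obtain ⟨q', hq'⟩ := hq
    exact ⟨p' + q', fun D _ w => by rw [map_add, map_add, star_add, hp', hq']⟩
  | mul p q hp hq =>
    obtain ⟨p', hp'⟩ := hp
    obtain ⟨q', hq'⟩ := hq
    exact ⟨q' * p', fun D _ w => by rw [map_mul, map_mul, star_mul, hp', hq']⟩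

/-- the matrix `u` over `C(G)` -/
def uCG : Matrix (Fin 12) (Fin 12) CG := u12.map toC

lemma exists_poly (a : A) : ∃ p, evalHom uCG p = toC a := by
  induction a using A_induction with
  | hgen i a b =>
    refine ⟨FreeAlgebra.ι ℂ (false, e12.symm (i, a), e12.symm (i, b)), ?_⟩
    rw [evalHom_iota]
    show (if false = true then _ else toC (uA (e12 (e12.symm (i, a))) (e12 (e12.symm (i, b))))) = _
    rw [Equiv.apply_symm_apply, Equiv.apply_symm_apply, uA_same]
    rfl
  | halg c => exact ⟨algebraMap ℂ _ c, by rw [AlgHom.commutes, AlgHomClass.commutes toC c]⟩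
  | hadd x y hx hy =>
    obtain ⟨p, hp⟩ := hx
    obtain ⟨q, hq⟩ := hy
    exact ⟨p + q, by rw [map_add, map_add, hp, hq]⟩
  | hmul x y hx hy =>
    obtain ⟨p, hp⟩ := hx
    obtain ⟨q, hq⟩ := hy
    exact ⟨p * q, by rw [map_mul, map_mul, hp, hq]⟩

/-- `C(G)` is the full C*-algebra. -/
theorem isFull : QG.IsFull := by
  intro D _ w hw
  have hw' : ∀ p q, evalHom uCG p = evalHom uCG q → evalHom w p = evalHom w q := by
    intro p q hpq
    have h1 := hw (p - q) (by
      refine (map_sub (evalHom uCG) p q).trans ?_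
      rw [hpq]
      exact sub_self (evalHom uCG q))
    rw [evalPoly_eq, map_sub] at h1
    exact sub_eq_zero.1 h1
  choose P hP using exists_poly
  let ψ : A →⋆ₐ[ℂ] D :=
    { toFun := fun a => evalHom w (P a)
      map_one' := by
        rw [← map_one (evalHom w)]
        refine hw' _ _ ?_
        rw [hP, toC_one]
        exact (map_one (evalHom uCG)).symm
      map_mul' := fun a b => by
        rw [← map_mul]
        refine hw' _ _ ?_
        rw [map_mul, hP, hP, hP, map_mul]
      map_zero' := by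
        rw [← map_zero (evalHom w)]
        refine hw' _ _ ?_
        rw [hP, map_zero, map_zero]
      map_add' := fun a b => by
        rw [← map_add]
        refine hw' _ _ ?_
        rw [map_add, hP, hP, hP, map_add]
      commutes' := fun c => by
        rw [← AlgHom.commutes (evalHom w) c]
        refine hw' _ _ ?_
        rw [hP, AlgHom.commutes, AlgHomClass.commutes toC c]
      map_star' := fun a => by
        obtain ⟨q, hq⟩ := exists_adjoint (P a)
        show evalHom w (P (star a)) = star (evalHom w (P a))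
        rw [← hq D w]
        refine hw' _ _ ?_
        rw [hq CG uCG, hP, hP, StarHomClass.map_star] }
  refine ⟨Envelope.lift ψ, fun i j => ?_⟩
  refine (Envelope.lift_incl ψ (u12 i j)).trans ?_
  show evalHom w (P (u12 i j)) = w i j
  have h2 : evalHom w (P (u12 i j)) = evalHom w (FreeAlgebra.ι ℂ (false, i, j)) := by
    refine hw' _ _ ?_
    rw [hP]
    refine Eq.trans ?_ (evalHom_iota _ _).symm
    rfl
  rw [h2, evalHom_iota]
  simp

end full

end Pool.Agent.W444.CC
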