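import Pool.Agent.W444.CC.Rel

/-!
# Fourier analysis on `V`
-/

noncomputable section

namespace Pool.Agent.W444.CC

open Quaternion Matrix

/-- pairing of `V` with itself with complex values -/
def pv (x h : V) : ℂ := ((sgn (omV x h) : ℤ) : ℂ)

lemma om_comm (x y : Q4) : om x y = om y x := by
  simp only [om]; ring

lemma omV_comm (x h : V) : omV x h = omV h x := by
  simp only [omV]
  exact Finset.sum_congr rfl fun i _ => om_comm _ _

lemma pv_comm (x h : V) : pv x h = pv h x := by rw [pv, omV_comm, pv]

lemma pv_add_left (x y h : V) : pv (x + y) h = pv x h * pv y h := by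
  rw [pv, pv, pv, ← Int.cast_mul, ← sgn_add, omV_add_left]

lemma pv_add_right (x y h : V) : pv x (y + h) = pv x y * pv x h := by
  rw [pv_comm, pv_add_left, pv_comm y, pv_comm h]

lemma pv_mul_self (x h : V) : pv x h * pv x h = 1 := by
  rw [pv, ← Int.cast_mul, sgn_mul_self, Int.cast_one]

@[simp] lemma pv_zero_left (h : V) : pv 0 h = 1 := by simp [pv, omV_zero_left]

@[simp] lemma pv_zero_right (h : V) : pv h 0 = 1 := by rw [pv_comm, pv_zero_left]

lemma star_pv (x h : V) : star (pv x h) = pv x h := by
  rw [pv]; simp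

lemma pr_eq (x h : W) : pr x h = pv x.1 h.1 * pv x.2 h.2 := by
  rw [pr, pv, pv, ← Int.cast_mul, ← sgn_add]

lemma sgn_sum {ι : Type*} (s : Finset ι) (f : ι → ZMod 2) :
    sgn (∑ i ∈ s, f i) = ∏ i ∈ s, sgn (f i) := by
  classical
  induction s using Finset.induction_on with
  | empty => simp
  | insert i s hi ih => rw [Finset.sum_insert hi, Finset.prod_insert hi, sgn_add, ih]

lemma sum_om' (a : Q4) : ∑ c, ((sgn (om a c) : ℤ) : ℂ) = if a = 0 then 4 else 0 := by
  have h : ∑ c, sgn (om a c) = if a = 0 then 4 else 0 := by revert a; decide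
  have h2 := congrArg (fun z : ℤ => (z : ℂ)) h
  simp only [Int.cast_sum] at h2
  rw [h2]
  split_ifs <;> simp

lemma sum_pv (c : V) : ∑ h, pv c h = if c = 0 then 64 else 0 := by
  have h1 : ∀ h, pv c h = ∏ i, ((sgn (om (c i) (h i)) : ℤ) : ℂ) := by
    intro h
    rw [pv, omV, sgn_sum, Int.cast_prod]
  simp only [h1]
  have h2 := Finset.prod_univ_sum (fun _ : Fin 3 => (Finset.univ : Finset Q4))
    (fun i x => ((sgn (om (c i) x) : ℤ) : ℂ))
  rw [Fintype.piFinset_univ] at h2
  rw [← h2]
  simp only [sum_om']
  by_cases hc : c = 0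
  · subst hc
    simp
    norm_num
  · rw [if_neg hc]
    obtain ⟨i, hi⟩ : ∃ i, c i ≠ 0 := by
      by_contra hcon
      push Not at hcon
      exact hc (funext hcon)
    exact Finset.prod_eq_zero (Finset.mem_univ i) (if_neg hi)

lemma sum_pv' (h : V) : ∑ c, pv c h = if h = 0 then 64 else 0 := by
  rw [← sum_pv h]
  exact Finset.sum_congr rfl fun c _ => pv_comm c h

lemma sum_pr (x y : W) : ∑ h, pr x h * pr y h = if x = y then 4096 else 0 := by
  have h1 : ∀ h : W, pr x h * pr y h = pv (x.1 + y.1) h.1 * pv (x.2 + y.2) h.2 := by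
    intro h
    rw [pr_eq, pr_eq, pv_add_left, pv_add_left]; ring
  simp only [h1]
  rw [Fintype.sum_prod_type]
  simp only [← Finset.mul_sum, sum_pv, ← Finset.sum_mul]
  have h2 : ∀ a b : V, a + b = 0 ↔ a = b := by
    intro a b
    constructor
    · intro h
      have := congrArg (· + b) h
      simpa [add_assoc, V.add_self] using this
    · rintro rfl; exact V.add_self a
  by_cases hxy : x = y
  · subst hxy
    rw [if_pos (V.add_self _), if_pos (V.add_self _), if_pos rfl]
    norm_num
  · rw [if_neg hxy]
    by_cases h3 : x.1 = y.1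
    · rw [if_neg (fun h4 => hxy (Prod.ext h3 ((h2 _ _).1 h4))), mul_zero]
    · rw [if_neg (fun h4 => h3 ((h2 _ _).1 h4)), zero_mul]

/-- the projections -/
def P (h : V) : Matrix W W ℂ := (1 / 64 : ℂ) • ∑ c, pv c h • T (c, c)

lemma T_diag_mul (c d : V) : T (c, c) * T (d, d) = T (c + d, c + d) := by
  rw [T_mul, sg]
  have : BV c d + BV c d = 0 := by
    generalize BV c d = x; revert x; decide
  simp only [this, sgn_zero, Int.cast_one, one_smul, Prod.mk_add_mk]

lemma T_diag_conjTranspose (c : V) : (T (c, c))ᴴ = T (c, c) := by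
  rw [T_conjTranspose, sg]
  have : BV c c + BV c c = 0 := by
    generalize BV c c = x; revert x; decide
  simp only [this, sgn_zero, Int.cast_one, one_smul]

lemma P_conjTranspose (h : V) : (P h)ᴴ = P h := by
  rw [P, Matrix.conjTranspose_smul, Matrix.conjTranspose_sum]
  simp only [Matrix.conjTranspose_smul, T_diag_conjTranspose, star_pv]
  simp

lemma fourier (c : V) : ∑ h, pv c h • P h = T (c, c) := by
  simp only [P, smul_comm (pv c _) (1 / 64 : ℂ), ← Finset.smul_sum]
  have h1 : ∀ h : V, pv c h • ∑ c', pv c' h • T (c', c') = ∑ c', pv (c + c') h • T (c', c') := by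
    intro h
    rw [Finset.smul_sum]
    exact Finset.sum_congr rfl fun c' _ => by rw [smul_smul, pv_add_left]
  simp only [h1]
  rw [Finset.sum_comm]
  simp only [← Finset.sum_smul, sum_pv]
  rw [Finset.sum_eq_single c]
  · rw [V.add_self, if_pos rfl, smul_smul]
    norm_num
  · intro c' _ hc'
    rw [if_neg, zero_smul]
    intro h
    apply hc'
    have := congrArg (· + c') h
    simp only [add_assoc, V.add_self, add_zero, zero_add] at this
    exact this.symm
  · simp

lemma sum_P : ∑ h, P h = 1 := by
  have := fourier 0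
  simp only [pv_zero_left, one_smul] at this
  rw [this]
  exact T_zero

lemma P_mul (h h' : V) : P h * P h' = if h = h' then P h else 0 := by
  rw [P, P, smul_mul_smul_comm, Finset.sum_mul_sum]
  have h1 : ∀ c c' : V, pv c h • T (c, c) * pv c' h' • T (c', c') =
      (pv c (h + h') * pv (c + c') h') • T (c + c', c + c') := by
    intro c c'
    rw [smul_mul_smul_comm, T_diag_mul, pv_add_left, pv_add_right]
    congr 1
    have := pv_mul_self c h'
    linear_combination (-(pv c h * pv c' h')) * this
  simp only [h1]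
  have h2 : ∀ c : V, ∑ c', (pv c (h + h') * pv (c + c') h') • T (c + c', c + c') =
      ∑ d, (pv c (h + h') * pv d h') • T (d, d) := by
    intro c
    exact (Equiv.addLeft c : V ≃ V).bijective.sum_comp
      (fun d => (pv c (h + h') * pv d h') • T (d, d))
  simp only [h2]
  rw [Finset.sum_comm]
  simp only [← Finset.sum_smul, ← Finset.sum_mul, sum_pv']
  have h3 : h + h' = 0 ↔ h = h' := by
    constructor
    · intro h4
      have := congrArg (· + h') h4
      simpa [add_assoc, V.add_self] using this
    · rintro rfl; exact V.add_self h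
  by_cases h4 : h = h'
  · subst h4
    rw [if_pos (V.add_self _), if_pos rfl]
    have h5 : ∀ d : V, ((64 : ℂ) * pv d h) • T (d, d) = (64 : ℂ) • (pv d h • T (d, d)) :=
      fun d => mul_smul _ _ _
    simp only [h5, ← Finset.smul_sum]
    rw [smul_smul]
    norm_num
  · rw [if_neg h4, if_neg (fun h5 => h4 (h3.1 h5))]
    simp

end Pool.Agent.W444.CC
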