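import Pool.Agent.W444.CC.Comul

/-!
# Boundedness, characters and the antipode
-/

noncomputable section

namespace Pool.Agent.W444.CC

open Quaternion Matrix
open scoped TensorProduct Kronecker
open Pool.Agent.W444.QG

/-- `A` is generated by the `gen i a b` as an algebra. -/
lemma A_induction {p : A → Prop} (F : A) (hgen : ∀ i a b, p (gen i a b))
    (halg : ∀ c, p (algebraMap ℂ A c)) (hadd : ∀ x y, p x → p y → p (x + y))
    (hmul : ∀ x y, p x → p y → p (x * y)) : p F := by
  have h1 : star (Set.range w) = Set.range w := by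
    ext x
    rw [Set.mem_star]
    have h2 : ∀ g, star (w g) = w g := fun g => congrArg Subtype.val (star_gen g.1 g.2.1 g.2.2)
    constructor
    · rintro ⟨g, hg⟩
      refine ⟨g, ?_⟩
      rw [← star_star x, ← hg, h2]
    · rintro ⟨g, rfl⟩
      exact ⟨g, (h2 g).symm⟩
  have h3 : A.toSubalgebra = Algebra.adjoin ℂ (Set.range w) := by
    rw [A, StarAlgebra.adjoin_toSubalgebra, h1, Set.union_self]
  have h4 : ∀ x : E, x ∈ Algebra.adjoin ℂ (Set.range w) → x ∈ A := by
    intro x hx
    rw [← h3] at hx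
    exact hx
  have h5 : ∀ x : E, x ∈ Algebra.adjoin ℂ (Set.range w) → ∀ h : x ∈ A, p ⟨x, h⟩ := by
    intro x hx
    induction hx using Algebra.adjoin_induction with
    | mem x hx => obtain ⟨g, rfl⟩ := hx; intro h; exact hgen g.1 g.2.1 g.2.2
    | algebraMap c => intro h; exact halg c
    | add x y hx hy ihx ihy =>
      intro h; exact hadd ⟨x, h4 x hx⟩ ⟨y, h4 y hy⟩ (ihx _) (ihy _)
    | mul x y hx hy ihx ihy =>
      intro h; exact hmul ⟨x, h4 x hx⟩ ⟨y, h4 y hy⟩ (ihx _) (ihy _)
  refine h5 F.1 ?_ F.2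
  rw [← h3]
  exact F.2

/-- entries of unitaries are contractions -/
lemma norm_entry_le_one {D : Type*} [CStarAlgebra D] {n : Type*} [Fintype n] (x : n → D)
    (h : ∑ j, x j * star (x j) = 1) (j : n) : ‖x j‖ ≤ 1 := by
  classical
  let _ : PartialOrder D := CStarAlgebra.spectralOrder D
  have _ : StarOrderedRing D := CStarAlgebra.spectralOrderedRing D
  have h1 : x j * star (x j) ≤ 1 := by
    rw [← h]
    exact Finset.single_le_sum (f := fun j => x j * star (x j))
      (fun i _ => mul_star_self_nonneg (x i)) (Finset.mem_univ j)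
  have h2 : ‖x j * star (x j)‖ ≤ ‖(1 : D)‖ :=
    CStarAlgebra.norm_le_norm_of_nonneg_of_le (mul_star_self_nonneg (x j)) h1
  have h3 : ‖(1 : D)‖ ≤ 1 := by
    rcases subsingleton_or_nontrivial D with h | h
    · rw [Subsingleton.elim (1 : D) 0, norm_zero]; exact zero_le_one
    · rw [CStarRing.norm_one]
  rw [CStarRing.norm_self_mul_star] at h2
  nlinarith [norm_nonneg (x j)]

lemma seminorm_gen_le (p : CStarSeminorm A) (i : Fin 3) (a b : Q4) : p (gen i a b) ≤ 1 := by
  rw [← p.norm_incl]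
  refine norm_entry_le_one (fun b => p.incl (gen i a b)) ?_ b
  have h := congrArg p.incl (gen_row i a a)
  have h1 : p.incl (1 : A) = 1 := p.ofPre_one
  rw [if_pos rfl, map_sum, h1] at h
  rw [← h]
  exact Finset.sum_congr rfl fun b _ => by rw [map_mul, StarHomClass.map_star]

lemma seminorm_one_le (p : CStarSeminorm A) : p 1 ≤ 1 := by
  have := seminorm_gen_le p 0 0 0
  rwa [gen_zero_right, if_pos rfl] at this

lemma bddA : CStarSeminorm.Bdd A := by
  intro F
  induction F using A_induction with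
  | hgen i a b => exact ⟨1, by rintro _ ⟨p, rfl⟩; exact seminorm_gen_le p i a b⟩
  | halg c =>
    refine ⟨‖c‖, ?_⟩
    rintro _ ⟨p, rfl⟩
    simp only
    rw [Algebra.algebraMap_eq_smul_one, map_smul_eq_mul p.toSeminorm]
    have := mul_le_mul_of_nonneg_left (seminorm_one_le p) (norm_nonneg c)
    rwa [mul_one] at this
  | hadd x y hx hy =>
    obtain ⟨M, hM⟩ := hx
    obtain ⟨M', hM'⟩ := hy
    refine ⟨M + M', ?_⟩
    rintro _ ⟨p, rfl⟩
    exact (map_add_le_add p.toSeminorm _ _).trans (add_le_add (hM ⟨p, rfl⟩) (hM' ⟨p, rfl⟩))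
  | hmul x y hx hy =>
    obtain ⟨M, hM⟩ := hx
    obtain ⟨M', hM'⟩ := hy
    refine ⟨M * M', ?_⟩
    rintro _ ⟨p, rfl⟩
    exact (p.mul_le _ _).trans (mul_le_mul (hM ⟨p, rfl⟩) (hM' ⟨p, rfl⟩) (p.nonneg _)
      ((p.nonneg _).trans (hM ⟨p, rfl⟩)))

/-- the vector `∑ δ_(v,v)` -/
def xi : W → ℂ := fun p => if p.1 = p.2 then 1 else 0

lemma xi_zero : xi 0 = 1 := rfl

lemma T_xi (v : V) : T (v, v) *ᵥ xi = xi := by
  funext p
  rw [Matrix.mulVec, dotProduct, Finset.sum_eq_single (p + (v, v))]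
  · rw [T_apply, if_pos, sg]
    · by_cases h : p.1 = p.2
      · rw [xi, xi, if_pos h, Prod.fst_add, Prod.snd_add, h, if_pos rfl]
        have : ∀ t : ZMod 2, t + t = 0 := by decide
        simp only [this, sgn_zero, Int.cast_one, one_mul]
      · rw [xi, xi, if_neg h, if_neg, mul_zero]
        intro h2
        exact h (add_right_cancel h2)
    · rw [add_comm p, W.add_add_cancel]
  · intro q _ hq
    rw [T_apply, if_neg, zero_mul]
    intro h
    apply hq
    rw [h, add_comm, W.add_add_cancel]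
  · simp

lemma gen_hat (h : V) (i : Fin 3) (a b : Q4) : (gen i a b : E) (hat h) =
    if a = b then pv (wt i a) h • T (wt i a, wt i a) else 0 := by
  rw [gen_apply]
  change ((r (e (h i)) a b : ℝ) : ℂ) • _ = _
  rw [r_e]
  split_ifs with hab
  · subst hab
    rw [pv, omV_wt]
    simp
  · simp

lemma xi_eigen (h : V) (F : A) :
    ∃ c : ℂ, (F : E) (hat h) *ᵥ xi = c • xi ∧ ((F : E) (hat h))ᴴ *ᵥ xi = star c • xi := by
  induction F using A_induction with
  | hgen i a b =>
    rw [gen_hat]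
    split_ifs with hab
    · refine ⟨pv (wt i a) h, ?_, ?_⟩
      · rw [Matrix.smul_mulVec, T_xi]
      · rw [Matrix.conjTranspose_smul, T_diag_conjTranspose, Matrix.smul_mulVec, T_xi]
    · exact ⟨0, by simp, by simp⟩
  | halg c =>
    refine ⟨c, ?_, ?_⟩
    · rw [show ((algebraMap ℂ A c : A) : E) (hat h) = c • 1 from algMap_apply c _,
        Matrix.smul_mulVec, Matrix.one_mulVec]
    · rw [show ((algebraMap ℂ A c : A) : E) (hat h) = c • 1 from algMap_apply c _,
        Matrix.conjTranspose_smul, Matrix.conjTranspose_one, Matrix.smul_mulVec, Matrix.one_mulVec]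
  | hadd x y hx hy =>
    obtain ⟨c, h1, h2⟩ := hx
    obtain ⟨c', h1', h2'⟩ := hy
    refine ⟨c + c', ?_, ?_⟩
    · rw [show ((x + y : A) : E) (hat h) = (x : E) (hat h) + (y : E) (hat h) from rfl,
        Matrix.add_mulVec, h1, h1', add_smul]
    · rw [show ((x + y : A) : E) (hat h) = (x : E) (hat h) + (y : E) (hat h) from rfl,
        Matrix.conjTranspose_add, Matrix.add_mulVec, h2, h2', star_add, add_smul]
  | hmul x y hx hy =>
    obtain ⟨c, h1, h2⟩ := hx
    obtain ⟨c', h1', h2'⟩ := hy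
    refine ⟨c * c', ?_, ?_⟩
    · rw [mul_apply', ← Matrix.mulVec_mulVec, h1', Matrix.mulVec_smul, h1, smul_smul, mul_comm]
    · rw [mul_apply', Matrix.conjTranspose_mul, ← Matrix.mulVec_mulVec, h2, Matrix.mulVec_smul,
        h2', smul_smul, star_mul, mul_comm]

/-- the value of the character -/
def chiFun (h : V) (F : A) : ℂ := ((F : E) (hat h) *ᵥ xi) 0

lemma chiFun_spec (h : V) (F : A) : (F : E) (hat h) *ᵥ xi = chiFun h F • xi ∧
    ((F : E) (hat h))ᴴ *ᵥ xi = star (chiFun h F) • xi := by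
  obtain ⟨c, h1, h2⟩ := xi_eigen h F
  have h3 : chiFun h F = c := by
    rw [chiFun, h1, Pi.smul_apply, xi_zero, smul_eq_mul, mul_one]
  rw [h3]
  exact ⟨h1, h2⟩

lemma smul_xi_inj {c c' : ℂ} (h : c • xi = c' • xi) : c = c' := by
  have := congrFun h 0
  simpa [xi_zero] using this

/-- the characters of `A` given by the elements of `V` -/
def chi (h : V) : A →⋆ₐ[ℂ] ℂ where
  toFun := chiFun h
  map_one' := by
    apply smul_xi_inj
    rw [← (chiFun_spec h 1).1, one_apply', Matrix.one_mulVec, one_smul]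
  map_mul' x y := by
    apply smul_xi_inj
    rw [← (chiFun_spec h _).1, mul_apply', ← Matrix.mulVec_mulVec, (chiFun_spec h y).1,
      Matrix.mulVec_smul, (chiFun_spec h x).1, smul_smul, mul_comm]
  map_zero' := by
    apply smul_xi_inj
    rw [← (chiFun_spec h 0).1, zero_apply', Matrix.zero_mulVec, zero_smul]
  map_add' x y := by
    apply smul_xi_inj
    rw [← (chiFun_spec h _).1]
    rw [show ((x + y : A) : E) (hat h) = (x : E) (hat h) + (y : E) (hat h) from rfl,
        Matrix.add_mulVec, (chiFun_spec h y).1, (chiFun_spec h x).1, add_smul]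
  commutes' c := by
    apply smul_xi_inj
    rw [← (chiFun_spec h _).1]
    rw [show ((algebraMap ℂ A c : A) : E) (hat h) = c • 1 from algMap_apply c _,
        Matrix.smul_mulVec, Matrix.one_mulVec]
    rfl
  map_star' x := by
    apply smul_xi_inj
    rw [← (chiFun_spec h _).1, star_apply', (chiFun_spec h x).2]

set_option maxRecDepth 4000 in
lemma chi_apply (h : V) (F : A) : chi h F = chiFun h F := by
  with_unfolding_all rfl

lemma chi_gen (h : V) (i : Fin 3) (a b : Q4) :
    chi h (gen i a b) = if a = b then pv (wt i a) h else 0 := by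
  apply smul_xi_inj
  rw [chi_apply, ← (chiFun_spec h _).1, gen_hat]
  split_ifs
  · rw [Matrix.smul_mulVec, T_xi]
  · simp

/-- the antipode on functions -/
def SE (F : E) : E := fun k => ((F k⁻¹)ᵀ).submatrix Prod.swap Prod.swap

lemma T_transpose (x : W) : (T x)ᵀ = sg x x • T x := by
  rw [← T_conjTranspose]
  ext p q
  rw [Matrix.transpose_apply, Matrix.conjTranspose_apply, T_apply]
  split_ifs
  · rw [conj_sg]
  · rw [star_zero]

lemma T_swap (x : W) : (T x).submatrix Prod.swap Prod.swap = T x.swap := by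
  ext ⟨a, b⟩ ⟨a', b'⟩
  simp only [Matrix.submatrix_apply, T_apply, sg, Prod.swap, Prod.ext_iff, Prod.fst_add,
    Prod.snd_add]
  by_cases h1 : a = x.2 + a' <;> by_cases h2 : b = x.1 + b' <;> simp [h1, h2, add_comm]
  simp only [add_comm a', add_comm b', and_comm]

lemma r_inv (q : S3) (a b : Q4) : r ((q⁻¹ : S3) : ℍ[ℝ]) a b = r q b a := by
  have h1 : ((q⁻¹ : S3) : ℍ[ℝ]) * q = 1 := congrArg Subtype.val (inv_mul_cancel q)
  have h2 : ((q⁻¹ : S3) : ℍ[ℝ]) = star (q : ℍ[ℝ]) := by
    calc ((q⁻¹ : S3) : ℍ[ℝ]) = ((q⁻¹ : S3) : ℍ[ℝ]) * (q * star (q : ℍ[ℝ])) := by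
          rw [q.mul_star_self, mul_one]
      _ = star (q : ℍ[ℝ]) := by rw [← mul_assoc, h1, one_mul]
  rw [h2, r_symm]

lemma SE_gen (i : Fin 3) (a b : Q4) : SE (gen i a b : E) = gen i b a := by
  funext k
  rw [SE, gen_apply, gen_apply, Matrix.transpose_smul, T_transpose]
  change (((r ((((k i)⁻¹ : S3)) : ℍ[ℝ]) a b : ℝ) : ℂ) • sg (wt i a, wt i b) (wt i a, wt i b) •
    T (wt i a, wt i b)).submatrix Prod.swap Prod.swap = _
  rw [r_inv, smul_smul]
  have h1 : ((r (k i) b a : ℝ) : ℂ) * sg (wt i a, wt i b) (wt i a, wt i b) =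
      ((r (k i) b a : ℝ) : ℂ) := by
    have := r_sg i (k i) b a
    rw [sg, add_comm] at this
    exact this
  rw [h1]
  exact congrArg (fun Z : Matrix W W ℂ => ((r (k i) b a : ℝ) : ℂ) • Z) (T_swap _)

lemma SE_algebraMap (c : ℂ) : SE (algebraMap ℂ E c) = algebraMap ℂ E c := by
  funext k
  rw [SE, algMap_apply, algMap_apply]
  ext p q
  simp [Matrix.one_apply, Prod.ext_iff, and_comm]

lemma SE_add (F F' : E) : SE (F + F') = SE F + SE F' := rfl

lemma SE_mul (F F' : E) : SE (F * F') = SE F' * SE F := by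
  funext k
  show ((F k⁻¹ * F' k⁻¹)ᵀ).submatrix Prod.swap Prod.swap = _
  rw [Matrix.transpose_mul]
  exact (Matrix.submatrix_mul_equiv (F' k⁻¹)ᵀ (F k⁻¹)ᵀ Prod.swap (Equiv.prodComm V V)
    Prod.swap).symm

lemma SE_star (F : E) : SE (star F) = star (SE F) := by
  funext k
  rfl

lemma SE_mem (F : A) : SE (F : E) ∈ A := by
  induction F using A_induction with
  | hgen i a b => rw [SE_gen]; exact (gen i b a).2
  | halg c =>
    rw [show ((algebraMap ℂ A c : A) : E) = algebraMap ℂ E c from rfl, SE_algebraMap]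
    exact A.algebraMap_mem c
  | hadd x y hx hy => exact add_mem hx hy
  | hmul x y hx hy =>
    rw [show ((x * y : A) : E) = (x : E) * (y : E) from rfl, SE_mul]
    exact mul_mem hy hx

/-- the antipode -/
def anti : A →⋆ₐ[ℂ] Aᵐᵒᵖ where
  toFun F := MulOpposite.op ⟨SE (F : E), SE_mem F⟩
  map_one' := by
    apply congrArg MulOpposite.op
    apply Subtype.ext
    have h := SE_algebraMap 1
    have h1 : algebraMap ℂ E 1 = 1 := RingHom.map_one _
    rw [h1] at h
    exact h
  map_mul' x y := by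
    apply congrArg MulOpposite.op
    exact Subtype.ext (SE_mul _ _)
  map_zero' := rfl
  map_add' x y := rfl
  commutes' c := by
    apply congrArg MulOpposite.op
    exact Subtype.ext (SE_algebraMap c)
  map_star' x := rfl

lemma anti_gen (i : Fin 3) (a b : Q4) : anti (gen i a b) = MulOpposite.op (gen i b a) :=
  congrArg MulOpposite.op (Subtype.ext (SE_gen i a b))

end Pool.Agent.W444.CC
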