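import Pool.Agent.W444.CC.Hopf

/-!
# The compact quantum group
-/

noncomputable section

namespace Pool.Agent.W444.CC

open Quaternion Matrix
open scoped TensorProduct Kronecker
open Pool.Agent.W444.QG

/-- The tensor product of two `*`-homomorphisms. -/
def mapStar {A B C D : Type*} [Ring A] [StarRing A] [Algebra ℂ A] [StarModule ℂ A]
    [Ring B] [StarRing B] [Algebra ℂ B] [StarModule ℂ B]
    [Ring C] [StarRing C] [Algebra ℂ C] [StarModule ℂ C]
    [Ring D] [StarRing D] [Algebra ℂ D] [StarModule ℂ D]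
    (f : A →⋆ₐ[ℂ] C) (g : B →⋆ₐ[ℂ] D) : A ⊗[ℂ] B →⋆ₐ[ℂ] C ⊗[ℂ] D where
  __ := Algebra.TensorProduct.map (f : A →ₐ[ℂ] C) (g : B →ₐ[ℂ] D)
  map_star' t := by
    show Algebra.TensorProduct.map (f : A →ₐ[ℂ] C) (g : B →ₐ[ℂ] D) (star t) =
      star (Algebra.TensorProduct.map (f : A →ₐ[ℂ] C) (g : B →ₐ[ℂ] D) t)
    induction t with
    | zero => simp
    | tmul a b => simp [TensorProduct.star_tmul, StarHomClass.map_star]
    | add s t hs ht => rw [star_add, map_add, map_add, star_add, hs, ht]

lemma mapStar_tmul {A B C D : Type*} [Ring A] [StarRing A] [Algebra ℂ A] [StarModule ℂ A]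
    [Ring B] [StarRing B] [Algebra ℂ B] [StarModule ℂ B]
    [Ring C] [StarRing C] [Algebra ℂ C] [StarModule ℂ C]
    [Ring D] [StarRing D] [Algebra ℂ D] [StarModule ℂ D]
    (f : A →⋆ₐ[ℂ] C) (g : B →⋆ₐ[ℂ] D) (a : A) (b : B) :
    mapStar f g (a ⊗ₜ b) = f a ⊗ₜ g b := rfl

/-- the opposite of a `*`-homomorphism -/
def opStar {A C : Type*} [Ring A] [StarRing A] [Algebra ℂ A] [StarModule ℂ A]
    [Ring C] [StarRing C] [Algebra ℂ C] [StarModule ℂ C] (f : A →⋆ₐ[ℂ] C) :
    Aᵐᵒᵖ →⋆ₐ[ℂ] Cᵐᵒᵖ where
  __ := AlgHom.op (f : A →ₐ[ℂ] C)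
  map_star' t := by
    show MulOpposite.op (f (MulOpposite.unop (star t))) =
      star (MulOpposite.op (f (MulOpposite.unop t)))
    rw [MulOpposite.unop_star, StarHomClass.map_star, MulOpposite.op_star]

lemma opStar_op {A C : Type*} [Ring A] [StarRing A] [Algebra ℂ A] [StarModule ℂ A]
    [Ring C] [StarRing C] [Algebra ℂ C] [StarModule ℂ C] (f : A →⋆ₐ[ℂ] C) (a : A) :
    opStar f (MulOpposite.op a) = MulOpposite.op (f a) := rfl

/-- a unitary corepresentation of `A` compatible with counit and antipode -/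
structure IsRep {n : Type} [Fintype n] [DecidableEq n] (u : Matrix n n A) : Prop where
  row : ∀ i j, ∑ k, u i k * star (u j k) = if i = j then 1 else 0
  col : ∀ i j, ∑ k, star (u k i) * u k j = if i = j then 1 else 0
  comul : ∀ i j, Del (u i j) = ∑ k, u i k ⊗ₜ[ℂ] u k j
  counit : ∀ i j, chi 0 (u i j) = if i = j then 1 else 0
  antip : ∀ i j, anti (u i j) = MulOpposite.op (star (u j i))

/-- Reindexing. -/
lemma IsRep.reindex {n m : Type} [Fintype n] [DecidableEq n] [Fintype m] [DecidableEq m]
    {u : Matrix n n A} (hu : IsRep u) (e : m ≃ n) : IsRep (u.submatrix e e) where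
  row i j := by
    simp only [Matrix.submatrix_apply]
    rw [e.sum_comp (fun k => u (e i) k * star (u (e j) k)), hu.row]
    simp
  col i j := by
    simp only [Matrix.submatrix_apply]
    rw [e.sum_comp (fun k => star (u k (e i)) * u k (e j)), hu.col]
    simp
  comul i j := by
    simp only [Matrix.submatrix_apply]
    rw [hu.comul, e.sum_comp (fun k => u (e i) k ⊗ₜ[ℂ] u k (e j))]
  counit i j := by
    simp only [Matrix.submatrix_apply]
    rw [hu.counit]
    simp
  antip i j := by
    simp only [Matrix.submatrix_apply]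
    rw [hu.antip]

/-- the block diagonal fundamental corepresentation -/
def uA : Matrix (Fin 3 × Q4) (Fin 3 × Q4) A :=
  fun p q => if p.1 = q.1 then gen p.1 p.2 q.2 else 0

lemma uA_same (i : Fin 3) (a b : Q4) : uA (i, a) (i, b) = gen i a b := by
  rw [uA]; simp

lemma uA_off {i j : Fin 3} (h : i ≠ j) (a b : Q4) : uA (i, a) (j, b) = 0 := by
  rw [uA, if_neg h]

lemma sum_block {M : Type*} [AddCommMonoid M] (i : Fin 3) (f : Fin 3 × Q4 → M)
    (h : ∀ j, j ≠ i → ∀ c, f (j, c) = 0) : ∑ p, f p = ∑ c, f (i, c) := by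
  rw [Fintype.sum_prod_type, Finset.sum_eq_single i]
  · intro j _ hj
    exact Finset.sum_eq_zero fun c _ => h j hj c
  · simp

lemma pair_eq_iff (i : Fin 3) (a b : Q4) : ((i, a) = (i, b)) ↔ a = b := by simp

lemma isRep_uA : IsRep uA where
  row := by
    rintro ⟨i, a⟩ ⟨j, b⟩
    rw [sum_block i _ (fun k hk c => by rw [uA_off (Ne.symm hk), zero_mul])]
    by_cases hij : i = j
    · subst hij
      simp only [uA_same, gen_row, pair_eq_iff]
    · have : ((i, a) : Fin 3 × Q4) ≠ (j, b) := fun h => hij (congrArg Prod.fst h)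
      rw [if_neg this]
      exact Finset.sum_eq_zero fun c _ => by rw [uA_off (Ne.symm hij), star_zero, mul_zero]
  col := by
    rintro ⟨i, a⟩ ⟨j, b⟩
    rw [sum_block i _ (fun k hk c => by rw [uA_off hk, star_zero, zero_mul])]
    by_cases hij : i = j
    · subst hij
      simp only [uA_same, gen_col, pair_eq_iff]
    · have : ((i, a) : Fin 3 × Q4) ≠ (j, b) := fun h => hij (congrArg Prod.fst h)
      rw [if_neg this]
      exact Finset.sum_eq_zero fun c _ => by rw [uA_off hij, mul_zero]
  comul := by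
    rintro ⟨i, a⟩ ⟨j, b⟩
    rw [sum_block i _ (fun k hk c => by rw [uA_off (Ne.symm hk), TensorProduct.zero_tmul])]
    by_cases hij : i = j
    · subst hij
      simp only [uA_same, Del_gen]
    · rw [uA_off hij, map_zero]
      symm
      exact Finset.sum_eq_zero fun c _ => by rw [uA_off hij, TensorProduct.tmul_zero]
  counit := by
    rintro ⟨i, a⟩ ⟨j, b⟩
    by_cases hij : i = j
    · subst hij
      simp only [uA_same, chi_gen, pv_zero_right, pair_eq_iff]
    · have : ((i, a) : Fin 3 × Q4) ≠ (j, b) := fun h => hij (congrArg Prod.fst h)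
      rw [if_neg this, uA_off hij, map_zero]
  antip := by
    rintro ⟨i, a⟩ ⟨j, b⟩
    by_cases hij : i = j
    · subst hij
      simp only [uA_same, anti_gen, star_gen]
    · rw [uA_off hij, uA_off (Ne.symm hij), map_zero, star_zero]
      rfl

/-- the C*-algebra `C(G)` -/
abbrev CG : Type := Envelope A bddA

/-- the canonical map `A → C(G)` -/
def toC : A →⋆ₐ[ℂ] CG := (CStarSeminorm.max bddA).incl

lemma denseRange_toC : DenseRange toC := (CStarSeminorm.max bddA).denseRange_incl

/-- The comultiplication of `C(G)`. -/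
def comulC : CG →⋆ₐ[ℂ] MaxTensor CG CG :=
  Envelope.lift ((toMax.comp (mapStar toC toC)).comp Del)

lemma comulC_toC (a : A) : comulC (toC a) = toMax (mapStar toC toC (Del a)) :=
  Envelope.lift_incl _ a

/-- The counit of `C(G)`. -/
def chiC (h : V) : CG →⋆ₐ[ℂ] ℂ := Envelope.lift (chi h)

lemma chiC_toC (h : V) (a : A) : chiC h (toC a) = chi h a := Envelope.lift_incl _ a

/-- The antipode of `C(G)`. -/
def antiC : CG →⋆ₐ[ℂ] CGᵐᵒᵖ := Envelope.lift ((opStar toC).comp anti)

lemma antiC_toC (a : A) : antiC (toC a) = opStar toC (anti a) :=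
  Envelope.lift_incl _ a

/-- an enumeration of the index set -/
def e12 : Fin 12 ≃ Fin 3 × Q4 := (Fintype.equivFinOfCardEq (by simp [Q4])).symm

/-- the fundamental corepresentation over `A` -/
def u12 : Matrix (Fin 12) (Fin 12) A := uA.submatrix e12 e12

lemma isRep_u12 : IsRep u12 := isRep_uA.reindex e12

lemma toC_one : toC (1 : A) = 1 := (CStarSeminorm.max bddA).ofPre_one

/-- The closed subgroup `G ⊂ U₁₂⁺`. -/
def QG : ClosedSubgroup 12 where
  C := CG
  u := u12.map toC
  unitary_left := by
    ext i j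
    have h2 := congrArg toC (isRep_u12.col i j)
    rw [map_sum] at h2
    rw [Matrix.mul_apply, Matrix.one_apply]
    simp only [Matrix.conjTranspose_apply, Matrix.map_apply, ← StarHomClass.map_star, ← map_mul]
    rw [h2]
    split_ifs
    · exact toC_one
    · exact map_zero toC
  unitary_right := by
    ext i j
    have h2 := congrArg toC (isRep_u12.row i j)
    rw [map_sum] at h2
    rw [Matrix.mul_apply, Matrix.one_apply]
    simp only [Matrix.conjTranspose_apply, Matrix.map_apply, ← StarHomClass.map_star, ← map_mul]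
    rw [h2]
    split_ifs
    · exact toC_one
    · exact map_zero toC
  generates := by
    rw [eq_top_iff]
    intro z _
    have hd : z ∈ closure (Set.range (toC : A → CG)) := denseRange_toC z
    refine closure_mono ?_ hd
    rintro _ ⟨a, rfl⟩
    show toC a ∈ StarAlgebra.adjoin ℂ {a | ∃ i j, u12.map toC i j = a}
    induction a using A_induction with
    | hgen i a b =>
      refine StarAlgebra.subset_adjoin _ _ ⟨e12.symm (i, a), e12.symm (i, b), ?_⟩
      simp [u12, uA_same]
    | halg c =>
      rw [AlgHomClass.commutes]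
      exact StarSubalgebra.algebraMap_mem _ c
    | hadd x y hx hy => rw [map_add]; exact add_mem hx hy
    | hmul x y hx hy => rw [map_mul]; exact mul_mem hx hy
  square := maxSquare CG
  comul := comulC
  comul_u i j := by
    simp only [Matrix.map_apply, maxSquare_tmul]
    refine (comulC_toC _).trans ?_
    rw [isRep_u12.comul, map_sum, map_sum]
    simp only [mapStar_tmul]
    rfl
  counit := chiC 0
  counit_u i j := by
    simp only [Matrix.map_apply]
    rw [chiC_toC, isRep_u12.counit]
  antipode := antiC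
  antipode_u i j := by
    simp only [Matrix.map_apply]
    rw [antiC_toC, isRep_u12.antip, opStar_op, StarHomClass.map_star]

end Pool.Agent.W444.CC
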