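import Pool.Agent.W444.CC.Point
import Pool.Agent.W444.CC.QGroup

/-!
# The elements of `C(G)` are determined by their values
-/

set_option synthInstance.maxSize 1024

noncomputable section

namespace Pool.Agent.W444.CC

open Quaternion Matrix
open Pool.Agent.W444.QG

lemma j0_sq (g : G) : j0 ⟨rf g * rf g, sq_mem_S0 g⟩ =
    star (gen g.1 g.2.1 g.2.2) * gen g.1 g.2.1 g.2.2 := by
  apply A_ext
  intro k
  rw [gen_mul_self, j0_apply]; rfl

/-- bound of the C*-seminorms on the degree zero part -/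
lemma seminorm_deg0 (p : CStarSeminorm A) (φ : S0) (hsa : star φ = φ) (M : ℝ)
    (hM : ∀ k, ‖(φ : K → ℂ) k‖ ≤ M) : p (j0 φ) ≤ M := by
  rw [← p.norm_incl]
  rcases subsingleton_or_nontrivial p.Compl with hD | hD
  · rw [Subsingleton.elim (p.incl (j0 φ)) 0, norm_zero]
    exact (norm_nonneg _).trans (hM 1)
  · let ι : S0 →⋆ₐ[ℂ] p.Compl := p.incl.comp j0
    have hcomm : ∀ x y : ι.range, x * y = y * x := by
      rintro ⟨_, x, rfl⟩ ⟨_, y, rfl⟩
      apply Subtype.ext
      show ι x * ι y = ι y * ι x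
      rw [← map_mul, mul_comm, map_mul]
    have hz : IsSelfAdjoint (ι φ) := by
      rw [IsSelfAdjoint, ← StarHomClass.map_star, hsa]
    obtain ⟨ω, hω1, hω2⟩ := exists_norm_character ι.range hcomm (ι φ) ⟨φ, rfl⟩ hz
    let ω' : S0 →ₐ[ℂ] ℂ := ω.comp (ι.rangeRestrict : S0 →ₐ[ℂ] ι.range)
    obtain ⟨k, hk⟩ := exists_point ω' (by
      intro g
      have h1 : ι ⟨rf g * rf g, sq_mem_S0 g⟩ =
          star (p.incl (gen g.1 g.2.1 g.2.2)) * p.incl (gen g.1 g.2.1 g.2.2) := by
        show p.incl (j0 _) = _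
        rw [j0_sq, map_mul, StarHomClass.map_star]
      obtain ⟨t, ht, h2⟩ := hω2 (p.incl (gen g.1 g.2.1 g.2.2)) (by rw [← h1]; exact ⟨_, rfl⟩)
      refine ⟨t, ht, ?_⟩
      rw [← h2]
      exact congrArg ω (Subtype.ext h1))
    have h3 : ω ⟨ι φ, ⟨φ, rfl⟩⟩ = (φ : K → ℂ) k := hk φ
    rw [h3] at hω1
    show ‖ι φ‖ ≤ M
    rw [← hω1]
    exact hM k

/-- homogeneous components as elements of `A` -/
def compA (x : W) (F : A) : A := ⟨comp x (F : E), (nice_of_mem F.2).comp_mem x⟩

lemma compA_coe (x : W) (F : A) : (compA x F : E) = comp x (F : E) := rfl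

lemma compA_apply (x : W) (F : A) (k : K) : (compA x F : E) k = (F : E) k x 0 • T x :=
  (congrFun (compA_coe x F) k).trans (comp_apply x (F : E) k)

lemma sum_compA_aux (s : Finset W) (F : A) (k : K) :
    ((∑ x ∈ s, compA x F : A) : E) k = ∑ x ∈ s, (F : E) k x 0 • T x := by
  rw [sum_apply']
  exact Finset.sum_congr rfl fun x _ => compA_apply x F k

lemma sum_compA (F : A) : F = ∑ x, compA x F := by
  apply A_ext
  intro k
  refine Eq.trans ?_ (sum_compA_aux Finset.univ F k).symm
  exact (nice_of_mem F.2).good k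

lemma star_compA_mul (x : W) (F : A) (k : K) :
    ((star (compA x F) * compA x F : A) : E) k =
      (star ((F : E) k x 0) * (F : E) k x 0) • 1 := by
  rw [mul_apply', star_apply', compA_apply, Matrix.conjTranspose_smul, smul_mul_smul_comm,
    T_conjTranspose_mul, W.add_self, sg_zero_right, one_smul, T_zero]

lemma seminorm_comp (p : CStarSeminorm A) (x : W) (F : A) (M : ℝ) (hM0 : 0 ≤ M)
    (hM : ∀ k, ‖(F : E) k x 0‖ ≤ M) : p (compA x F) ≤ M := by
  let φ : K → ℂ := fun k => star ((F : E) k x 0) * (F : E) k x 0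
  have h1 : sE φ = ((star (compA x F) * compA x F : A) : E) := by
    funext k
    rw [star_compA_mul, sE_apply]
  have hφ : φ ∈ S0 := by
    rw [mem_S0, h1]
    exact SetLike.coe_mem _
  have h2 : j0 ⟨φ, hφ⟩ = star (compA x F) * compA x F := Subtype.ext h1
  have h3 : p (j0 ⟨φ, hφ⟩) ≤ M ^ 2 := by
    refine seminorm_deg0 p ⟨φ, hφ⟩ ?_ _ ?_
    · apply Subtype.ext
      funext k
      show star (star ((F : E) k x 0) * (F : E) k x 0) = star ((F : E) k x 0) * (F : E) k x 0
      rw [star_mul, star_star]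
    · intro k
      show ‖star ((F : E) k x 0) * (F : E) k x 0‖ ≤ M ^ 2
      have h4 : ‖star ((F : E) k x 0)‖ = ‖(F : E) k x 0‖ := norm_star _
      rw [norm_mul, h4, ← sq]
      exact pow_le_pow_left₀ (norm_nonneg _) (hM k) 2
  rw [h2, p.cstar] at h3
  exact (sq_le_sq₀ (p.nonneg _) hM0).1 h3

lemma seminorm_sum_le (p : CStarSeminorm A) {ι : Type*} (s : Finset ι) (f : ι → A) :
    p (∑ i ∈ s, f i) ≤ ∑ i ∈ s, p (f i) := by
  classical
  induction s using Finset.induction_on with
  | empty => simp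
  | insert i s hi ih =>
    rw [Finset.sum_insert hi, Finset.sum_insert hi]
    exact (map_add_le_add p.toSeminorm _ _).trans (add_le_add le_rfl ih)

lemma card_W : (Finset.univ : Finset W).card = 4096 := by
  have h1 : Fintype.card Q4 = 4 := by rw [Fintype.card_prod, ZMod.card]
  have h2 : Fintype.card V = 64 := by rw [Fintype.card_fun, h1, Fintype.card_fin]; norm_num
  rw [Finset.card_univ, Fintype.card_prod, h2]

/-- bound of the C*-seminorms by the supremum norms of the coefficients -/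
lemma seminorm_le (p : CStarSeminorm A) (F : A) (M : ℝ) (hM0 : 0 ≤ M)
    (hM : ∀ x k, ‖(F : E) k x 0‖ ≤ M) : p F ≤ 4096 * M := by
  have h1 : p F ≤ ∑ x, p (compA x F) := by
    conv_lhs => rw [sum_compA F]
    exact seminorm_sum_le p _ _
  refine h1.trans ?_
  refine (Finset.sum_le_sum fun x _ => seminorm_comp p x F M hM0 (hM x)).trans ?_
  rw [Finset.sum_const, nsmul_eq_mul, card_W]
  norm_num

end Pool.Agent.W444.CC
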