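import Pool.Agent.W444.CC.Char

/-!
# Characters of the degree zero part are evaluations
-/

set_option synthInstance.maxSize 1024

noncomputable section

namespace Pool.Agent.W444.CC

open Quaternion Matrix
open Pool.Agent.W444.QG

/-- scalar functions as elements of `E` -/
def sE : (K → ℂ) →⋆ₐ[ℂ] E where
  toFun φ := fun k => φ k • 1
  map_one' := funext fun k => one_smul ℂ (1 : Matrix W W ℂ)
  map_mul' φ ψ := by
    funext k
    rw [Pi.mul_apply, Pi.mul_apply, smul_mul_smul_comm, mul_one]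
  map_zero' := funext fun k => zero_smul ℂ (1 : Matrix W W ℂ)
  map_add' φ ψ := funext fun k => add_smul (φ k) (ψ k) (1 : Matrix W W ℂ)
  commutes' c := by
    funext k
    rw [algMap_apply]; rfl
  map_star' φ := by
    funext k
    rw [Pi.star_apply, Pi.star_apply, Matrix.star_eq_conjTranspose, Matrix.conjTranspose_smul,
      Matrix.conjTranspose_one]

lemma sE_apply (φ : K → ℂ) (k : K) : sE φ k = φ k • 1 := by exact rfl

/-- the degree zero part, as an algebra of functions -/
def S0 : StarSubalgebra ℂ (K → ℂ) := A.comap sE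

lemma mem_S0 {φ : K → ℂ} : φ ∈ S0 ↔ sE φ ∈ A := Iff.rfl

/-- the inclusion in `A` -/
def j0 : S0 →⋆ₐ[ℂ] A := (sE.comp S0.subtype).codRestrict A fun φ => φ.2

lemma j0_apply (φ : S0) (k : K) : (j0 φ : E) k = (φ : K → ℂ) k • 1 := by exact rfl

lemma S0_le_O {φ : K → ℂ} (h : φ ∈ S0) : φ ∈ O := by
  have h1 : (fun k => sE φ k 0 0) ∈ O := (nice_of_mem h).poly 0
  have h2 : (fun k => sE φ k 0 0) = φ := by
    funext k
    rw [sE_apply, Matrix.smul_apply, Matrix.one_apply_eq, smul_eq_mul, mul_one]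
  rwa [h2] at h1

lemma gen_mul_self (i : Fin 3) (a b : Q4) (k : K) :
    ((star (gen i a b) * gen i a b : A) : E) k = (rf (i, a, b) k * rf (i, a, b) k) • 1 := by
  rw [mul_apply', star_apply', gen_apply, Matrix.conjTranspose_smul, smul_mul_smul_comm,
    T_conjTranspose_mul, W.add_self, sg_zero_right, one_smul, T_zero]
  congr 1
  simp [rf]

lemma sq_mem_S0 (g : G) : rf g * rf g ∈ S0 := by
  rw [mem_S0]
  have : sE (rf g * rf g) = ((star (gen g.1 g.2.1 g.2.2) * gen g.1 g.2.1 g.2.2 : A) : E) := by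
    funext k
    rw [gen_mul_self, sE_apply]; rfl
  rw [this]
  exact SetLike.coe_mem _

/-- the inclusion of `S0` in `O` -/
def iO : S0 →+* O where
  toFun φ := ⟨φ, S0_le_O φ.2⟩
  map_one' := rfl
  map_mul' _ _ := rfl
  map_zero' := rfl
  map_add' _ _ := rfl

/-- Characters of the degree zero part which are nonnegative on the squares of the generators are
evaluations. -/
lemma exists_point (ω : S0 →ₐ[ℂ] ℂ)
    (hpos : ∀ g, ∃ t : ℝ, 0 ≤ t ∧ ω ⟨rf g * rf g, sq_mem_S0 g⟩ = (t : ℂ)) :
    ∃ k : K, ∀ φ : S0, ω φ = (φ : K → ℂ) k := by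
  let _ : Algebra S0 O := iO.toAlgebra
  -- generators of `O`
  let x : G → O := fun g => ⟨rf g, rf_mem g⟩
  have hind : ∀ (p : O → Prop), (∀ g, p (x g)) → (∀ c : ℂ, p (algebraMap ℂ O c)) →
      (∀ y z, p y → p z → p (y + z)) → (∀ y z, p y → p z → p (y * z)) → ∀ y, p y := by
    intro p h1 h2 h3 h4
    have h5 : ∀ y : K → ℂ, y ∈ Algebra.adjoin ℂ (Set.range rf) → ∀ h : y ∈ O, p ⟨y, h⟩ := by
      intro y hy
      induction hy using Algebra.adjoin_induction with
      | mem y hy => obtain ⟨g, rfl⟩ := hy; intro h; exact h1 g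
      | algebraMap c => intro h; exact h2 c
      | add y z hy hz ihy ihz => intro h; exact h3 ⟨y, hy⟩ ⟨z, hz⟩ (ihy _) (ihz _)
      | mul y z hy hz ihy ihz => intro h; exact h4 ⟨y, hy⟩ ⟨z, hz⟩ (ihy _) (ihz _)
    intro y
    exact h5 y.1 y.2 y.2
  have hint : Algebra.IsIntegral S0 O := by
    constructor
    apply hind
    · intro g
      have h1 : IsIntegral S0 (x g ^ 2) := by
        have : x g ^ 2 = algebraMap S0 O ⟨rf g * rf g, sq_mem_S0 g⟩ := by
          rw [sq]; rfl
        rw [this]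
        exact isIntegral_algebraMap
      exact h1.of_pow (by norm_num)
    · intro c
      have h2 : (algebraMap ℂ O c) = algebraMap S0 O (algebraMap ℂ S0 c) := rfl
      rw [h2]
      exact isIntegral_algebraMap
    · intro y z hy hz; exact hy.add hz
    · intro y z hy hz; exact hy.mul hz
  have hsurj : Function.Surjective ω := fun c => ⟨algebraMap ℂ S0 c, AlgHom.commutes ω c⟩
  have hmax : (RingHom.ker (ω : S0 →+* ℂ)).IsMaximal :=
    RingHom.ker_isMaximal_of_surjective _ hsurj
  obtain ⟨M, hM, hM2⟩ := Ideal.exists_ideal_over_maximal_of_isIntegral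
    (S := O) (RingHom.ker (ω : S0 →+* ℂ)) (by
      intro φ hφ
      rw [RingHom.mem_ker] at hφ
      have h3 : (φ : K → ℂ) = 0 := congrArg Subtype.val hφ
      have h4 : φ = 0 := Subtype.ext h3
      rw [h4]
      exact zero_mem _)
  have hprime : M.IsPrime := hM.isPrime
  let q : O →ₐ[ℂ] O ⧸ M := Ideal.Quotient.mkₐ ℂ M
  have hq : ∀ φ : S0, q (iO φ) = algebraMap ℂ (O ⧸ M) (ω φ) := by
    intro φ
    have h5 : φ - algebraMap ℂ S0 (ω φ) ∈ RingHom.ker (ω : S0 →+* ℂ) := by
      rw [RingHom.mem_ker]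
      show ω (φ - algebraMap ℂ S0 (ω φ)) = 0
      rw [map_sub, AlgHom.commutes]
      exact sub_self _
    rw [← hM2, Ideal.mem_comap] at h5
    have h6 : q (algebraMap S0 O (φ - algebraMap ℂ S0 (ω φ))) = 0 :=
      Ideal.Quotient.eq_zero_iff_mem.2 h5
    rw [map_sub, map_sub, sub_eq_zero] at h6
    exact h6
  have hint2 : Algebra.IsIntegral ℂ (O ⧸ M) := by
    constructor
    intro z
    obtain ⟨y, rfl⟩ := Ideal.Quotient.mk_surjective z
    revert y
    show ∀ y : O, IsIntegral ℂ (q y)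
    apply hind
    · intro g
      have h1 : IsIntegral ℂ (q (x g) ^ 2) := by
        have : q (x g) ^ 2 = algebraMap ℂ (O ⧸ M) (ω ⟨rf g * rf g, sq_mem_S0 g⟩) := by
          rw [← hq, ← map_pow, sq]; rfl
        rw [this]
        exact isIntegral_algebraMap
      exact h1.of_pow (by norm_num)
    · intro c
      rw [AlgHom.commutes]
      exact isIntegral_algebraMap
    · intro y z hy hz; rw [map_add]; exact hy.add hz
    · intro y z hy hz; rw [map_mul]; exact hy.mul hz
  have hbij : Function.Bijective (algebraMap ℂ (O ⧸ M)) :=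
    IsAlgClosed.algebraMap_bijective_of_isIntegral
  let κ : O →ₐ[ℂ] ℂ :=
    ((AlgEquiv.ofBijective (Algebra.ofId ℂ (O ⧸ M)) hbij).symm : (O ⧸ M) →ₐ[ℂ] ℂ).comp q
  have hκ0 : ∀ y, algebraMap ℂ (O ⧸ M) (κ y) = q y := fun y =>
    (AlgEquiv.ofBijective (Algebra.ofId ℂ (O ⧸ M)) hbij).apply_symm_apply (q y)
  have hκ : ∀ φ : S0, κ (iO φ) = ω φ := fun φ => hbij.1 ((hκ0 _).trans (hq φ))
  -- the values at the generators are real
  have hreal : ∀ g, κ (x g) = ((κ (x g)).re : ℂ) := by
    intro g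
    obtain ⟨t, ht, h⟩ := hpos g
    have h7 : κ (x g) * κ (x g) = (t : ℂ) := by
      rw [← h, ← hκ, ← map_mul]; rfl
    have h8 := congrArg Complex.im h7
    have h9 := congrArg Complex.re h7
    rw [Complex.mul_im, Complex.ofReal_im] at h8
    rw [Complex.mul_re, Complex.ofReal_re] at h9
    apply Complex.ext
    · simp
    · rw [Complex.ofReal_im]
      have h10 : (κ (x g)).re * (κ (x g)).im = 0 := by linarith
      rcases mul_eq_zero.1 h10 with h11 | h11
      · rw [h11] at h9
        nlinarith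
      · exact h11
  -- relations
  have hrel0 : ∀ i a, x (i, a, 0) = if a = 0 then 1 else 0 := by
    intro i a
    apply Subtype.ext
    funext k
    show ((r (k i) a 0 : ℝ) : ℂ) = _
    rw [r_zero_right]
    split_ifs <;> simp
  have hrel : ∀ i c b b', ∑ a, (((sgn (B0 a (c + a)) : ℤ) : ℝ) : ℂ) •
      (x (i, a, b) * x (i, c + a, b')) = (((sgn (B0 b b') : ℤ) : ℝ) : ℂ) • x (i, c, b + b') := by
    intro i c b b'
    apply Subtype.ext
    funext k
    have h12 := congrArg (fun t : ℝ => (t : ℂ)) (r_mul (k i) c b b')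
    rw [Complex.ofReal_sum] at h12
    rw [AddSubmonoidClass.coe_finsetSum, Finset.sum_apply]
    refine Eq.trans (Finset.sum_congr rfl fun a _ => ?_) (h12.trans ?_)
    · show (((sgn (B0 a (c + a)) : ℤ) : ℝ) : ℂ) * (((r (k i) a b : ℝ) : ℂ) *
        ((r (k i) (c + a) b' : ℝ) : ℂ)) = _
      rw [← Complex.ofReal_mul, ← Complex.ofReal_mul]
    · rw [Complex.ofReal_mul]; rfl
  have hq3 : ∀ i, ∃ q : S3, ∀ a b, r q a b = (κ (x (i, a, b))).re := by
    intro i
    apply exists_quat
    · intro a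
      rw [hrel0]
      split_ifs
      · rw [map_one]; rfl
      · rw [map_zero]; rfl
    · intro c b b'
      have h13 := congrArg κ (hrel i c b b')
      rw [map_sum, map_smul] at h13
      simp only [map_smul, map_mul] at h13
      apply Complex.ofReal_injective
      rw [Complex.ofReal_sum, Complex.ofReal_mul, ← hreal, ← smul_eq_mul, ← h13]
      refine Finset.sum_congr rfl fun a _ => ?_
      rw [Complex.ofReal_mul, Complex.ofReal_mul, ← hreal, ← hreal, smul_eq_mul]
  choose k hk using hq3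
  refine ⟨k, fun φ => ?_⟩
  have hall : ∀ y : O, κ y = (y : K → ℂ) k := by
    apply hind
    · intro g
      rw [hreal]
      show _ = ((r (k g.1) g.2.1 g.2.2 : ℝ) : ℂ)
      rw [hk]
    · intro c
      rw [AlgHom.commutes]; rfl
    · intro y z hy hz; rw [map_add, hy, hz]; rfl
    · intro y z hy hz; rw [map_mul, hy, hz]; rfl
  rw [← hκ, hall]; rfl

end Pool.Agent.W444.CC
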