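import Mathlib

/-!
# Unit quaternions, rotations and the Klein four-group
-/

noncomputable section

namespace Pool.Agent.W444.CC

open Quaternion

/-- The Klein four-group, written additively. -/
abbrev Q4 : Type := ZMod 2 × ZMod 2

lemma forall_Q4 {p : Q4 → Prop} : (∀ a, p a) ↔ p (0,0) ∧ p (1,0) ∧ p (0,1) ∧ p (1,1) := by
  constructor
  · intro h; exact ⟨h _, h _, h _, h _⟩
  · rintro ⟨h1, h2, h3, h4⟩ ⟨a, b⟩
    have ha : a = 0 ∨ a = 1 := by revert a; decide
    have hb : b = 0 ∨ b = 1 := by revert b; decide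
    rcases ha with rfl | rfl <;> rcases hb with rfl | rfl <;> assumption

lemma sum_Q4 {M : Type*} [AddCommMonoid M] (f : Q4 → M) :
    ∑ a, f a = f (0,0) + f (1,0) + f (0,1) + f (1,1) := by
  rw [Fintype.sum_prod_type]
  have h2 : ∀ g : ZMod 2 → M, ∑ a, g a = g 0 + g 1 := fun g => Fin.sum_univ_two g
  rw [h2, h2, h2]
  abel

lemma Q4.add_self (a : Q4) : a + a = 0 := by revert a; decide

lemma Q4.add_add (a c : Q4) : a + (c + a) = c := by revert a c; decide

lemma Q4.eq_add_of (a a' c : Q4) (h : c = a + a') : a' = c + a := by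
  revert a a' c; decide

/-- sign of an element of `ZMod 2` -/
def sgn (t : ZMod 2) : ℤ := if t = 0 then 1 else -1

@[simp] lemma sgn_zero : sgn 0 = 1 := rfl
@[simp] lemma sgn_one : sgn 1 = -1 := rfl

lemma sgn_add (s t : ZMod 2) : sgn (s + t) = sgn s * sgn t := by
  revert s t; decide

lemma sgn_mul_self (s : ZMod 2) : sgn s * sgn s = 1 := by
  revert s; decide

/-- bilinear form defining the quaternion cocycle -/
def B0 (x y : Q4) : ZMod 2 := x.1 * y.1 + x.1 * y.2 + x.2 * y.2

/-- the symplectic form -/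
def om (x y : Q4) : ZMod 2 := x.1 * y.2 + x.2 * y.1

/-- a linear map of order three -/
def phi (x : Q4) : Q4 := (x.2, x.1 + x.2)

lemma B0_add_left (x y z : Q4) : B0 (x + y) z = B0 x z + B0 y z := by
  simp only [B0, Prod.fst_add, Prod.snd_add]; ring

lemma B0_add_right (x y z : Q4) : B0 x (y + z) = B0 x y + B0 x z := by
  simp only [B0, Prod.fst_add, Prod.snd_add]; ring

lemma om_add_left (x y z : Q4) : om (x + y) z = om x z + om y z := by
  simp only [om, Prod.fst_add, Prod.snd_add]; ring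

lemma om_add_right (x y z : Q4) : om x (y + z) = om x y + om x z := by
  simp only [om, Prod.fst_add, Prod.snd_add]; ring

lemma phi_add (x y : Q4) : phi (x + y) = phi x + phi y := by
  simp only [phi, Prod.fst_add, Prod.snd_add, Prod.mk_add_mk]
  congr 1
  ring

/-- the basis of the quaternions -/
def e (a : Q4) : ℍ[ℝ] :=
  ⟨if a = (0,0) then 1 else 0, if a = (1,0) then 1 else 0, if a = (0,1) then 1 else 0,
    if a = (1,1) then -1 else 0⟩

lemma e_re (a : Q4) : (e a).re = if a = (0,0) then 1 else 0 := rfl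
lemma e_imI (a : Q4) : (e a).imI = if a = (1,0) then 1 else 0 := rfl
lemma e_imJ (a : Q4) : (e a).imJ = if a = (0,1) then 1 else 0 := rfl
lemma e_imK (a : Q4) : (e a).imK = if a = (1,1) then -1 else 0 := rfl

lemma e_zero : e 0 = 1 := by
  ext <;> simp [e_re, e_imI, e_imJ, e_imK, Prod.ext_iff]

lemma e_mul (a b : Q4) : e a * e b = ((sgn (B0 a b) : ℤ) : ℝ) • e (a + b) := by
  revert a b
  have h : (1 : ZMod 2) + 1 = 0 := by decide
  rw [forall_Q4]
  refine ⟨?_, ?_, ?_, ?_⟩ <;> rw [forall_Q4] <;>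
    refine ⟨?_, ?_, ?_, ?_⟩ <;> ext <;> simp [B0, h, e_re, e_imI, e_imJ, e_imK]

lemma star_e (a : Q4) : star (e a) = ((sgn (B0 a a) : ℤ) : ℝ) • e a := by
  have h : (1 : ZMod 2) + 1 = 0 := by decide
  revert a
  rw [forall_Q4]
  refine ⟨?_, ?_, ?_, ?_⟩ <;> ext <;> simp [B0, h, e_re, e_imI, e_imJ, e_imK]

lemma sgnR_mul_self (t : ZMod 2) : ((sgn t : ℤ) : ℝ) * ((sgn t : ℤ) : ℝ) = 1 := by
  rw [← Int.cast_mul, sgn_mul_self, Int.cast_one]

lemma star_e_mul_e (a : Q4) : star (e a) * e a = 1 := by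
  have h2 : a + a = 0 := by revert a; decide
  rw [star_e, smul_mul_assoc, e_mul, smul_smul, sgnR_mul_self, one_smul, h2, e_zero]

lemma e_mul_star_e (a : Q4) : e a * star (e a) = 1 := by
  have h2 : a + a = 0 := by revert a; decide
  rw [star_e, mul_smul_comm, e_mul, smul_smul, sgnR_mul_self, one_smul, h2, e_zero]

/-- the coordinates of a quaternion with respect to the basis `e` -/
def co (a : Q4) (x : ℍ[ℝ]) : ℝ := (star (e a) * x).re

lemma co_add (a : Q4) (x y : ℍ[ℝ]) : co a (x + y) = co a x + co a y := by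
  simp [co, mul_add]

lemma co_smul (a : Q4) (c : ℝ) (x : ℍ[ℝ]) : co a (c • x) = c * co a x := by
  simp only [co, mul_smul_comm, Quaternion.re_smul, smul_eq_mul]

lemma co_sum {ι : Type*} (s : Finset ι) (a : Q4) (f : ι → ℍ[ℝ]) :
    co a (∑ i ∈ s, f i) = ∑ i ∈ s, co a (f i) := by
  classical
  induction s using Finset.induction_on with
  | empty => simp [co]
  | insert i s hi ih => rw [Finset.sum_insert hi, Finset.sum_insert hi, co_add, ih]

lemma co_e (a b : Q4) : co a (e b) = if a = b then 1 else 0 := by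
  revert a b
  rw [forall_Q4]
  refine ⟨?_, ?_, ?_, ?_⟩ <;> rw [forall_Q4] <;>
    refine ⟨?_, ?_, ?_, ?_⟩ <;> simp [co, e_re, e_imI, e_imJ, e_imK]

lemma expand (x : ℍ[ℝ]) : x = ∑ a, co a x • e a := by
  rw [sum_Q4]
  ext <;> simp [co, e_re, e_imI, e_imJ, e_imK]

/-- Two quaternions with the same coordinates are equal. -/
lemma co_ext {x y : ℍ[ℝ]} (h : ∀ a, co a x = co a y) : x = y := by
  rw [expand x, expand y]
  exact Finset.sum_congr rfl fun a _ => by rw [h]

/-- the matrix of the conjugation by `q` -/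
def r (q : ℍ[ℝ]) (a b : Q4) : ℝ := co a (q * e b * star q)

lemma conj_e (q : ℍ[ℝ]) (b : Q4) : q * e b * star q = ∑ a, r q a b • e a := expand _

lemma re_mul_comm (x y : ℍ[ℝ]) : (x * y).re = (y * x).re := by
  simp only [Quaternion.re_mul]; ring

lemma co_star_swap (x y : ℍ[ℝ]) : (star x * y).re = (star y * x).re := by
  simp only [Quaternion.re_mul, Quaternion.re_star, Quaternion.imI_star, Quaternion.imJ_star,
    Quaternion.imK_star]
  ring

/-- unit quaternions -/
abbrev S3 : Type := Metric.sphere (0 : ℍ[ℝ]) 1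

lemma S3.norm_eq (q : S3) : ‖(q : ℍ[ℝ])‖ = 1 := by
  have := q.2
  rwa [mem_sphere_zero_iff_norm] at this

lemma S3.star_mul_self (q : S3) : star (q : ℍ[ℝ]) * q = 1 := by
  rw [Quaternion.star_mul_self, Quaternion.normSq_eq_norm_mul_self, q.norm_eq]
  simp

lemma S3.mul_star_self (q : S3) : (q : ℍ[ℝ]) * star (q : ℍ[ℝ]) = 1 := by
  rw [Quaternion.self_mul_star, Quaternion.normSq_eq_norm_mul_self, q.norm_eq]
  simp

lemma r_zero_right (q : S3) (a : Q4) : r q a 0 = if a = 0 then 1 else 0 := by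
  rw [r, e_zero, mul_one, q.mul_star_self, ← e_zero, co_e]

lemma r_symm (q : ℍ[ℝ]) (a b : Q4) : r (star q) a b = r q b a := by
  rw [r, r, co, co, star_star, ← mul_assoc, ← mul_assoc, re_mul_comm,
    show q * (star (e a) * star q * e b) = star (q * e a * star q) * e b by
      simp only [star_mul, star_star, mul_assoc], co_star_swap]

/-- the conjugate of a unit quaternion -/
def S3.conj (q : S3) : S3 := ⟨star (q : ℍ[ℝ]), by
  rw [mem_sphere_zero_iff_norm, Quaternion.norm_star]; exact q.norm_eq⟩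

lemma r_zero_left (q : S3) (b : Q4) : r q 0 b = if b = 0 then 1 else 0 := by
  rw [← r_symm]
  exact r_zero_right q.conj b

/-- orthogonality of the columns -/
lemma r_col (q : S3) (b b' : Q4) : ∑ a, r q a b * r q a b' = if b = b' then 1 else 0 := by
  have h : (star (q * e b * star (q : ℍ[ℝ])) * (q * e b' * star (q : ℍ[ℝ]))).re =
      if b = b' then 1 else 0 := by
    have h1 : star ((q : ℍ[ℝ]) * e b * star (q : ℍ[ℝ])) * (q * e b' * star (q : ℍ[ℝ])) =
        q * (star (e b) * ((star (q : ℍ[ℝ]) * q) * (e b' * star (q : ℍ[ℝ])))) := by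
      simp only [star_mul, star_star, mul_assoc]
    rw [h1, q.star_mul_self, one_mul, re_mul_comm, mul_assoc, mul_assoc, q.star_mul_self, mul_one]
    exact co_e b b'
  rw [← h]
  conv_rhs => rw [conj_e q b, star_sum, Finset.sum_mul]
  have h2 : ∀ (s : Finset Q4) (f : Q4 → ℍ[ℝ]), (∑ i ∈ s, f i).re = ∑ i ∈ s, (f i).re := by
    classical
    intro s f
    induction s using Finset.induction_on with
    | empty => simp
    | insert i s hi ih => rw [Finset.sum_insert hi, Finset.sum_insert hi, Quaternion.re_add, ih]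
  rw [h2]
  refine Finset.sum_congr rfl fun a _ => ?_
  rw [Quaternion.star_smul, smul_mul_assoc, Quaternion.re_smul, smul_eq_mul]
  rfl

/-- orthogonality of the rows -/
lemma r_row (q : S3) (a a' : Q4) : ∑ b, r q a b * r q a' b = if a = a' then 1 else 0 := by
  have h := r_col q.conj a a'
  simpa only [S3.conj, r_symm] using h

/-- multiplicativity of the conjugation -/
lemma r_mul (q : S3) (c b b' : Q4) :
    ∑ a, ((sgn (B0 a (c + a)) : ℤ) : ℝ) * (r q a b * r q (c + a) b') =
      ((sgn (B0 b b') : ℤ) : ℝ) * r q c (b + b') := by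
  have h1 : ((q : ℍ[ℝ]) * e b * star (q : ℍ[ℝ])) * (q * e b' * star (q : ℍ[ℝ])) =
      ((sgn (B0 b b') : ℤ) : ℝ) • (q * e (b + b') * star (q : ℍ[ℝ])) := by
    calc ((q : ℍ[ℝ]) * e b * star (q : ℍ[ℝ])) * (q * e b' * star (q : ℍ[ℝ]))
        = q * (e b * ((star (q : ℍ[ℝ]) * q) * (e b' * star (q : ℍ[ℝ])))) := by
          simp only [mul_assoc]
      _ = q * ((e b * e b') * star (q : ℍ[ℝ])) := by
          rw [q.star_mul_self, one_mul, mul_assoc]
      _ = _ := by rw [e_mul, smul_mul_assoc, mul_smul_comm, ← mul_assoc]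
  have h2 := congrArg (co c) h1
  rw [co_smul] at h2
  rw [show r q c (b + b') = co c (q * e (b + b') * star (q : ℍ[ℝ])) from rfl, ← h2]
  rw [conj_e q b, conj_e q b', Finset.sum_mul_sum, co_sum]
  refine Finset.sum_congr rfl fun a _ => ?_
  rw [co_sum, Finset.sum_eq_single (c + a)]
  · rw [smul_mul_smul_comm, e_mul, smul_smul, co_smul, co_e, if_pos, mul_one]
    · ring
    · exact (Q4.add_add a c).symm
  · intro a' _ ha'
    rw [smul_mul_smul_comm, e_mul, smul_smul, co_smul, co_e, if_neg, mul_zero]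
    intro h
    exact ha' (Q4.eq_add_of _ _ _ h)
  · simp

/-- the rotation matrix of a product -/
lemma r_comp (p q : ℍ[ℝ]) (a b : Q4) : r (p * q) a b = ∑ c, r p a c * r q c b := by
  have h : p * q * e b * star (p * q) = p * (q * e b * star q) * star p := by
    simp only [star_mul, mul_assoc]
  rw [r, h, conj_e q b, Finset.mul_sum, Finset.sum_mul, co_sum]
  refine Finset.sum_congr rfl fun c _ => ?_
  rw [mul_smul_comm, smul_mul_assoc, co_smul, mul_comm]
  rfl

lemma e_conj_e (h a : Q4) : e h * e a * star (e h) = ((sgn (om a h) : ℤ) : ℝ) • e a := by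
  have key : B0 h h + B0 h a + B0 (h + a) h = om a h := by
    revert h a; decide
  have h2 : h + a + h = a := by revert h a; decide
  rw [star_e, mul_smul_comm, e_mul, smul_mul_assoc, e_mul, smul_smul, smul_smul, h2,
    ← Int.cast_mul, ← Int.cast_mul, ← sgn_add, ← sgn_add, key]

lemma r_e (h a b : Q4) : r (e h) a b = if a = b then ((sgn (om a h) : ℤ) : ℝ) else 0 := by
  rw [r, e_conj_e, co_smul, co_e]
  by_cases hab : a = b
  · subst hab; simp
  · simp [hab]

/-- the elements of the Klein four-group as unit quaternions -/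
def eS (h : Q4) : S3 := ⟨e h, by
  rw [mem_sphere_zero_iff_norm]
  have h1 := congrArg norm (star_e_mul_e h)
  rw [norm_mul, Quaternion.norm_star, norm_one] at h1
  nlinarith [norm_nonneg (e h)]⟩

lemma continuous_r (a b : Q4) : Continuous fun q : ℍ[ℝ] => r q a b := by
  unfold r co
  refine Quaternion.continuous_re.comp ?_
  exact continuous_const.mul ((continuous_id.mul continuous_const).mul continuous_star)

lemma sum_om (a : Q4) : ∑ c, ((sgn (om a c) : ℤ) : ℝ) = if a = 0 then 4 else 0 := by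
  have h : ∑ c, sgn (om a c) = if a = 0 then 4 else 0 := by revert a; decide
  have h2 := congrArg (fun z : ℤ => (z : ℝ)) h
  simp only [Int.cast_sum] at h2
  rw [h2]
  split_ifs <;> simp

/-- Every multiplicative real matrix is the matrix of a conjugation. -/
lemma exists_quat (x : Q4 → Q4 → ℝ) (h0 : ∀ a, x a 0 = if a = 0 then 1 else 0)
    (hm : ∀ c b b', ∑ a, ((sgn (B0 a (c + a)) : ℤ) : ℝ) * (x a b * x (c + a) b') =
      ((sgn (B0 b b') : ℤ) : ℝ) * x c (b + b')) :
    ∃ q : S3, ∀ a b, r q a b = x a b := by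
  set E : Q4 → ℍ[ℝ] := fun b => ∑ a, x a b • e a with hE
  have hco : ∀ a b, co a (E b) = x a b := by
    intro a b
    rw [hE, co_sum, Finset.sum_eq_single a]
    · rw [co_smul, co_e, if_pos rfl, mul_one]
    · intro c _ hc
      rw [co_smul, co_e, if_neg (Ne.symm hc), mul_zero]
    · simp
  have hE0 : E 0 = 1 := by
    apply co_ext
    intro a
    rw [hco, h0, ← e_zero, co_e]
  have hEmul : ∀ b b', E b * E b' = ((sgn (B0 b b') : ℤ) : ℝ) • E (b + b') := by
    intro b b'
    apply co_ext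
    intro c
    rw [co_smul, hco, ← hm, hE]
    simp only
    rw [Finset.sum_mul_sum, co_sum]
    refine Finset.sum_congr rfl fun a _ => ?_
    rw [co_sum, Finset.sum_eq_single (c + a)]
    · rw [smul_mul_smul_comm, e_mul, smul_smul, co_smul, co_e, if_pos, mul_one]
      · ring
      · exact (Q4.add_add a c).symm
    · intro a' _ ha'
      rw [smul_mul_smul_comm, e_mul, smul_smul, co_smul, co_e, if_neg, mul_zero]
      intro h
      exact ha' (Q4.eq_add_of _ _ _ h)
    · simp
  set Z : ℍ[ℝ] → ℍ[ℝ] := fun c => ∑ a, E a * c * star (e a) with hZ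
  have hZE : ∀ b c, E b * Z c = Z c * e b := by
    intro b c
    rw [hZ]
    simp only
    rw [Finset.mul_sum, Finset.sum_mul]
    have hb : Function.Bijective (fun a : Q4 => b + a) := (Equiv.addLeft b).bijective
    rw [← hb.sum_comp (fun a => E a * c * star (e a) * e b)]
    refine Finset.sum_congr rfl fun a _ => ?_
    have h1 : star (e (b + a)) * e b = ((sgn (B0 b a) : ℤ) : ℝ) • star (e a) := by
      have h2 : e (b + a) = ((sgn (B0 b a) : ℤ) : ℝ) • (e b * e a) := by
        rw [e_mul, smul_smul, sgnR_mul_self, one_smul]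
      rw [h2, Quaternion.star_smul, star_mul, smul_mul_assoc, mul_assoc, star_e_mul_e, mul_one]
    rw [mul_assoc (E (b + a) * c), h1, ← mul_assoc, ← mul_assoc, hEmul]
    simp only [smul_mul_assoc, mul_smul_comm]
  have hsum : ∑ c, Z (e c) * star (e c) = (4 : ℝ) • (1 : ℍ[ℝ]) := by
    have h1 : ∀ a c, E a * e c * star (e a) * star (e c) =
        ((sgn (om a c) : ℤ) : ℝ) • (E a * star (e a)) := by
      intro a c
      have h2 : e c * star (e a) * star (e c) = ((sgn (om a c) : ℤ) : ℝ) • star (e a) := by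
        rw [star_e a, mul_smul_comm, smul_mul_assoc, e_conj_e, smul_comm]
      rw [mul_assoc (E a), mul_assoc (E a), h2, mul_smul_comm]
    calc ∑ c, Z (e c) * star (e c) = ∑ c, ∑ a, ((sgn (om a c) : ℤ) : ℝ) • (E a * star (e a)) := by
          refine Finset.sum_congr rfl fun c _ => ?_
          rw [hZ]
          simp only
          rw [Finset.sum_mul]
          exact Finset.sum_congr rfl fun a _ => h1 a c
      _ = ∑ a, (∑ c, ((sgn (om a c) : ℤ) : ℝ)) • (E a * star (e a)) := by
          rw [Finset.sum_comm]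
          exact Finset.sum_congr rfl fun a _ => by rw [Finset.sum_smul]
      _ = (4 : ℝ) • (E 0 * star (e 0)) := by
          rw [Finset.sum_eq_single 0]
          · rw [sum_om, if_pos rfl]
          · intro a _ ha
            rw [sum_om, if_neg ha, zero_smul]
          · simp
      _ = (4 : ℝ) • (1 : ℍ[ℝ]) := by
          rw [hE0, e_zero, star_one, mul_one]
  obtain ⟨c, hc⟩ : ∃ c, Z (e c) ≠ 0 := by
    by_contra hcon
    push Not at hcon
    rw [Finset.sum_eq_zero (fun c _ => by rw [hcon c, zero_mul])] at hsum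
    have := congrArg (fun z : ℍ[ℝ] => z.re) hsum
    simp at this
  have hn : ‖Z (e c)‖ ≠ 0 := norm_ne_zero_iff.2 hc
  let q : S3 := ⟨(‖Z (e c)‖⁻¹ : ℝ) • Z (e c), by
    rw [mem_sphere_zero_iff_norm, norm_smul, norm_inv, norm_norm, inv_mul_cancel₀ hn]⟩
  refine ⟨q, fun a b => ?_⟩
  have h1 : E b * (q : ℍ[ℝ]) = q * e b := by
    show E b * ((‖Z (e c)‖⁻¹ : ℝ) • Z (e c)) = ((‖Z (e c)‖⁻¹ : ℝ) • Z (e c)) * e b
    rw [mul_smul_comm, smul_mul_assoc, hZE]
  have h2 : (q : ℍ[ℝ]) * e b * star (q : ℍ[ℝ]) = E b := by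
    rw [← h1, mul_assoc, q.mul_star_self, mul_one]
  rw [r, h2, hco]

instance : CompactSpace S3 := isCompact_iff_compactSpace.1 (isCompact_sphere _ _)

lemma rank_quat : Module.rank ℝ ℍ[ℝ] = 4 := QuaternionAlgebra.rank_eq_four _ _ _

instance : ConnectedSpace S3 := isConnected_iff_connectedSpace.1
  (isConnected_sphere (by rw [rank_quat]; norm_num) _ zero_le_one)

end Pool.Agent.W444.CC
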