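import Pool.Agent.W444.CC.Alg

/-!
# Relations between the generators
-/

noncomputable section

namespace Pool.Agent.W444.CC

open Quaternion Matrix

/-- the generators as elements of `A` -/
def gen (i : Fin 3) (a b : Q4) : A := ⟨w (i, a, b), w_mem _⟩

lemma gen_apply (i : Fin 3) (a b : Q4) (k : K) :
    (gen i a b : E) k = ((r (k i) a b : ℝ) : ℂ) • T (wt i a, wt i b) := rfl

lemma A_ext {x y : A} (h : ∀ k, (x : E) k = (y : E) k) : x = y := Subtype.ext (funext h)

lemma one_apply' (k : K) : ((1 : A) : E) k = 1 := rfl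
lemma zero_apply' (k : K) : ((0 : A) : E) k = 0 := rfl
lemma mul_apply' (x y : A) (k : K) : ((x * y : A) : E) k = (x : E) k * (y : E) k := rfl
lemma smul_apply' (c : ℂ) (x : A) (k : K) : ((c • x : A) : E) k = c • (x : E) k := rfl
lemma star_apply' (x : A) (k : K) : ((star x : A) : E) k = ((x : E) k)ᴴ := rfl

lemma sum_apply' {ι : Type*} (s : Finset ι) (f : ι → A) (k : K) :
    ((∑ i ∈ s, f i : A) : E) k = ∑ i ∈ s, (f i : E) k := by
  rw [AddSubmonoidClass.coe_finsetSum, Finset.sum_apply]

lemma ite_apply' (p : Prop) [Decidable p] (k : K) :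
    (((if p then 1 else 0 : A)) : E) k = if p then 1 else 0 := by
  split_ifs <;> rfl

lemma r_sg (i : Fin 3) (q : S3) (a b : Q4) :
    ((r q a b : ℝ) : ℂ) * sg (wt i a, wt i b) (wt i a, wt i b) = ((r q a b : ℝ) : ℂ) := by
  rw [sg, BV_wt_self, BV_wt_self]
  have key : ∀ a b : Q4, (a = 0 ∧ b ≠ 0) ∨ (a ≠ 0 ∧ b = 0) ∨ sgn (B0 a a + B0 b b) = 1 := by
    decide
  rcases key a b with ⟨h1, h2⟩ | ⟨h1, h2⟩ | h
  · rw [h1, r_zero_left, if_neg h2]; simp
  · rw [h2, r_zero_right, if_neg h1]; simp
  · rw [h]; simp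

lemma star_gen (i : Fin 3) (a b : Q4) : star (gen i a b) = gen i a b := by
  apply A_ext
  intro k
  rw [star_apply', gen_apply, Matrix.conjTranspose_smul, T_conjTranspose, smul_smul]
  congr 1
  have h : star ((r (k i) a b : ℝ) : ℂ) = ((r (k i) a b : ℝ) : ℂ) := by simp
  rw [h]
  exact r_sg i (k i) a b

lemma gen_zero_right (i : Fin 3) (a : Q4) : gen i a 0 = if a = 0 then 1 else 0 := by
  apply A_ext
  intro k
  rw [gen_apply, r_zero_right, ite_apply']
  split_ifs with h
  · subst h
    rw [wt_zero, Complex.ofReal_one, one_smul]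
    exact T_zero
  · simp

lemma gen_zero_left (i : Fin 3) (b : Q4) : gen i 0 b = if b = 0 then 1 else 0 := by
  apply A_ext
  intro k
  rw [gen_apply, r_zero_left, ite_apply']
  split_ifs with h
  · subst h
    rw [wt_zero, Complex.ofReal_one, one_smul]
    exact T_zero
  · simp

lemma T_mul_conjTranspose (x y : W) : T x * (T y)ᴴ = sg (x + y) y • T (x + y) := by
  rw [T_conjTranspose, mul_smul_comm, T_mul, smul_smul, sg_add_left, mul_comm]

lemma T_conjTranspose_mul (x y : W) : (T x)ᴴ * T y = sg x (x + y) • T (x + y) := by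
  rw [T_conjTranspose, smul_mul_assoc, T_mul, smul_smul, sg_add_right]

lemma wt_add_eq (i : Fin 3) (a b : Q4) (c d : Q4) :
    ((wt i a, wt i b) : W) + (wt i c, wt i d) = (wt i (a + c), wt i (b + d)) := by
  rw [Prod.mk_add_mk, wt_add, wt_add]

/-- orthogonality of the rows -/
lemma gen_row (i : Fin 3) (a a' : Q4) :
    ∑ b, gen i a b * star (gen i a' b) = if a = a' then 1 else 0 := by
  apply A_ext
  intro k
  rw [sum_apply', ite_apply']
  have h1 : ∀ b, ((gen i a b * star (gen i a' b) : A) : E) k =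
      (((r (k i) a b * r (k i) a' b : ℝ)) : ℂ) •
        (((sgn (BV (wt i (a + a')) (wt i a')) : ℤ) : ℂ) • T (wt i (a + a'), 0)) := by
    intro b
    rw [mul_apply', star_apply', gen_apply, gen_apply, Matrix.conjTranspose_smul,
      smul_mul_smul_comm, T_mul_conjTranspose, wt_add_eq, Q4.add_self, wt_zero, sg]
    simp only [BV_zero_left, add_zero, RCLike.star_def, Complex.conj_ofReal, Complex.ofReal_mul]
  simp only [h1]
  rw [← Finset.sum_smul, ← Complex.ofReal_sum, r_row]
  split_ifs with h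
  · subst h
    rw [Q4.add_self, wt_zero, BV_zero_left, sgn_zero, Int.cast_one, one_smul, Complex.ofReal_one,
      one_smul]
    exact T_zero
  · simp

/-- orthogonality of the columns -/
lemma gen_col (i : Fin 3) (b b' : Q4) :
    ∑ a, star (gen i a b) * gen i a b' = if b = b' then 1 else 0 := by
  apply A_ext
  intro k
  rw [sum_apply', ite_apply']
  have h1 : ∀ a, ((star (gen i a b) * gen i a b' : A) : E) k =
      (((r (k i) a b * r (k i) a b' : ℝ)) : ℂ) •
        (((sgn (BV (wt i b) (wt i (b + b'))) : ℤ) : ℂ) • T (0, wt i (b + b'))) := by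
    intro a
    rw [mul_apply', star_apply', gen_apply, gen_apply, Matrix.conjTranspose_smul,
      smul_mul_smul_comm, T_conjTranspose_mul, wt_add_eq, Q4.add_self, wt_zero, sg]
    simp only [BV_zero_right, zero_add, RCLike.star_def, Complex.conj_ofReal, Complex.ofReal_mul]
  simp only [h1]
  rw [← Finset.sum_smul, ← Complex.ofReal_sum, r_col]
  split_ifs with h
  · subst h
    rw [Q4.add_self, wt_zero, BV_zero_right, sgn_zero, Int.cast_one, one_smul, Complex.ofReal_one,
      one_smul]
    exact T_zero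
  · simp

/-- multiplicativity -/
lemma gen_mul (i : Fin 3) (c b b' : Q4) :
    ∑ a, gen i a b * gen i (c + a) b' = gen i c (b + b') := by
  apply A_ext
  intro k
  rw [sum_apply', gen_apply]
  have h1 : ∀ a, ((gen i a b * gen i (c + a) b' : A) : E) k =
      ((((sgn (B0 a (c + a)) : ℤ) : ℝ) * (r (k i) a b * r (k i) (c + a) b') : ℝ) : ℂ) •
        (((sgn (B0 b b') : ℤ) : ℂ) • T (wt i c, wt i (b + b'))) := by
    intro a
    rw [mul_apply', gen_apply, gen_apply, smul_mul_smul_comm, T_mul, wt_add_eq, Q4.add_add, sg,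
      BV_wt_self, BV_wt_self, sgn_add, smul_smul, smul_smul]
    congr 1
    push_cast
    ring
  simp only [h1]
  rw [← Finset.sum_smul, ← Complex.ofReal_sum, r_mul, smul_smul]
  congr 1
  have h2 : ((sgn (B0 b b') : ℤ) : ℂ) * ((sgn (B0 b b') : ℤ) : ℂ) = 1 := by
    rw [← Int.cast_mul, sgn_mul_self, Int.cast_one]
  push_cast
  calc ((sgn (B0 b b') : ℤ) : ℂ) * ((r (k i) c (b + b') : ℝ) : ℂ) * ((sgn (B0 b b') : ℤ) : ℂ)
      = (((sgn (B0 b b') : ℤ) : ℂ) * ((sgn (B0 b b') : ℤ) : ℂ)) * ((r (k i) c (b + b') : ℝ) : ℂ) := by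
        ring
    _ = _ := by rw [h2, one_mul]

/-- commutation of the entries of two blocks -/
lemma gen_comm (i j : Fin 3) (a b c d : Q4) :
    gen i a b * gen j c d =
      (((sgn (cr i j a c + cr i j b d) : ℤ) : ℂ)) • (gen j c d * gen i a b) := by
  apply A_ext
  intro k
  rw [smul_apply', mul_apply', mul_apply', gen_apply, gen_apply, smul_mul_smul_comm,
    smul_mul_smul_comm, T_mul, T_mul, add_comm ((wt j c, wt j d) : W), smul_smul, smul_smul,
    smul_smul]
  congr 1
  have h : sg (wt i a, wt i b) (wt j c, wt j d) =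
      ((sgn (cr i j a c + cr i j b d) : ℤ) : ℂ) * sg (wt j c, wt j d) (wt i a, wt i b) := by
    rw [sg, sg, ← Int.cast_mul, ← sgn_add, cr, cr]
    congr 2
    generalize BV (wt i a) (wt j c) = x
    generalize BV (wt j c) (wt i a) = y
    generalize BV (wt i b) (wt j d) = z
    generalize BV (wt j d) (wt i b) = t
    revert x y z t
    decide
  rw [h]
  ring

end Pool.Agent.W444.CC
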