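import Pool.Agent.W444.CC.Block
import Pool.Agent.W444.CC.QGroup
import Pool.Agent.W444.QG.GrpLike

/-!
# The diagonal quotients
-/

set_option synthInstance.maxSize 1024

noncomputable section

namespace Pool.Agent.W444.CC

open Matrix
open scoped TensorProduct
open Pool.Agent.W444.QG

/-- the index set of the blocks -/
abbrev I : Type := Fin 3 × Q4

section scalars

/-- scalar matrix over a complex algebra -/
def scM (R : Type*) [Ring R] [Algebra ℂ R] (T : Matrix I I ℂ) : Matrix I I R :=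
  T.map (algebraMap ℂ R)

lemma scM_mul (R : Type*) [Ring R] [Algebra ℂ R] (S T : Matrix I I ℂ) :
    scM R (S * T) = scM R S * scM R T := by
  simp [scM, Matrix.map_mul]

lemma scM_one (R : Type*) [Ring R] [Algebra ℂ R] : scM R (1 : Matrix I I ℂ) = 1 := by
  simp [scM]

lemma scM_map {R S : Type*} [Ring R] [Algebra ℂ R] [Ring S] [Algebra ℂ S] (φ : R →ₐ[ℂ] S)
    (T : Matrix I I ℂ) : (scM R T).map φ = scM S T := by
  ext i j
  simp [scM]

end scalars

/-- `v = Q u Q*` over `A` -/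
def vA (Q : Matrix I I ℂ) : Matrix I I A := scM A Q * uA * scM A Qᴴ

/-- the relations `v_ij = 0` for `i ≠ j` -/
def torRel (Q : Matrix I I ℂ) : A → A → Prop :=
  fun z z' => ∃ i j, i ≠ j ∧ z = vA Q i j ∧ z' = 0

/-- the algebraic quotient by the `v_ij`, `i ≠ j` -/
abbrev QB (Q : Matrix I I ℂ) : Type := RingQuot (torRel Q)

/-- the quotient map -/
def piB (Q : Matrix I I ℂ) : A →ₐ[ℂ] QB Q := RingQuot.mkAlgHom ℂ (torRel Q)

variable {Q : Matrix I I ℂ}

lemma piB_v {i j : I} (hij : i ≠ j) : piB Q (vA Q i j) = 0 := by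
  have h : torRel Q (vA Q i j) 0 := ⟨i, j, hij, rfl, rfl⟩
  have := RingQuot.mkAlgHom_rel ℂ h
  rw [map_zero] at this
  exact this

lemma star_uA (p q : I) : star (uA p q) = uA p q := by
  rw [uA]
  split_ifs
  · exact star_gen _ _ _
  · exact star_zero _

lemma uA_transpose : uA * uAᵀ = 1 := by
  ext1 i j
  rw [Matrix.mul_apply, Matrix.one_apply, ← isRep_uA.row i j]
  exact Finset.sum_congr rfl fun k _ => by rw [Matrix.transpose_apply, star_uA]

lemma transpose_uA : uAᵀ * uA = 1 := by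
  ext1 i j
  rw [Matrix.mul_apply, Matrix.one_apply, ← isRep_uA.col i j]
  exact Finset.sum_congr rfl fun k _ => by rw [Matrix.transpose_apply, star_uA]

section unitary

variable (hQ : Qᴴ * Q = 1) (hQ' : Q * Qᴴ = 1)

include hQ hQ'

omit hQ' in
lemma scQ_left (R : Type*) [Ring R] [Algebra ℂ R] : scM R Qᴴ * scM R Q = 1 := by
  rw [← scM_mul, hQ, scM_one]

omit hQ in
lemma scQ_right (R : Type*) [Ring R] [Algebra ℂ R] : scM R Q * scM R Qᴴ = 1 := by
  rw [← scM_mul, hQ', scM_one]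

/-- the transposed matrix -/
def vA' (Q : Matrix I I ℂ) : Matrix I I A := scM A Q * uAᵀ * scM A Qᴴ

lemma vA_mul : vA Q * vA' Q = 1 := by
  have h1 := scQ_left hQ A
  have h2 := scQ_right hQ' A
  rw [vA, vA']
  calc scM A Q * uA * scM A Qᴴ * (scM A Q * uAᵀ * scM A Qᴴ)
      = scM A Q * (uA * ((scM A Qᴴ * scM A Q) * uAᵀ)) * scM A Qᴴ := by
        simp only [Matrix.mul_assoc]
    _ = 1 := by rw [h1, Matrix.one_mul, uA_transpose, Matrix.mul_one, h2]

lemma mul_vA : vA' Q * vA Q = 1 := by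
  have h1 := scQ_left hQ A
  have h2 := scQ_right hQ' A
  rw [vA, vA']
  calc scM A Q * uAᵀ * scM A Qᴴ * (scM A Q * uA * scM A Qᴴ)
      = scM A Q * (uAᵀ * ((scM A Qᴴ * scM A Q) * uA)) * scM A Qᴴ := by
        simp only [Matrix.mul_assoc]
    _ = 1 := by rw [h1, Matrix.one_mul, transpose_uA, Matrix.mul_one, h2]

/-- the group-like elements -/
def gl (Q : Matrix I I ℂ) (m : I) : QB Q := piB Q (vA Q m m)

/-- their inverses -/
def gl' (Q : Matrix I I ℂ) (m : I) : QB Q := piB Q (vA' Q m m)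

lemma gl_mul (m : I) : gl Q m * gl' Q m = 1 := by
  have h := congrFun (congrFun (vA_mul hQ hQ') m) m
  rw [Matrix.mul_apply, Matrix.one_apply, if_pos rfl] at h
  have h2 := congrArg (piB Q) h
  rw [map_sum, map_one] at h2
  rw [← h2, Finset.sum_eq_single m]
  · rw [map_mul]; rfl
  · intro k _ hk
    rw [map_mul, piB_v (Ne.symm hk), zero_mul]
  · simp

lemma mul_gl (m : I) : gl' Q m * gl Q m = 1 := by
  have h := congrFun (congrFun (mul_vA hQ hQ') m) m
  rw [Matrix.mul_apply, Matrix.one_apply, if_pos rfl] at h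
  have h2 := congrArg (piB Q) h
  rw [map_sum, map_one] at h2
  rw [← h2, Finset.sum_eq_single m]
  · rw [map_mul]; rfl
  · intro k _ hk
    rw [map_mul, piB_v hk, mul_zero]
  · simp

omit hQ hQ' in
lemma map_vA : (vA Q).map (piB Q) = Matrix.diagonal (gl Q) := by
  ext1 i j
  rw [Matrix.map_apply]
  by_cases hij : i = j
  · subst hij; rw [Matrix.diagonal_apply_eq]; rfl
  · rw [Matrix.diagonal_apply_ne _ hij, piB_v hij]

omit hQ' in
/-- `u` is recovered from `v`. -/
lemma map_uA : uA.map (piB Q) = scM (QB Q) Qᴴ * Matrix.diagonal (gl Q) * scM (QB Q) Q := by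
  have h1 := scQ_left hQ (QB Q)
  rw [← map_vA, vA, Matrix.map_mul, Matrix.map_mul, scM_map, scM_map]
  calc uA.map (piB Q) = 1 * uA.map (piB Q) * 1 := by rw [Matrix.one_mul, Matrix.mul_one]
    _ = _ := by rw [← h1]; simp only [Matrix.mul_assoc]

/-- the coefficients -/
def cf (Q : Matrix I I ℂ) (l p q : I) : ℂ := star (Q l p) * Q l q

omit hQ' in
lemma piB_u (p q : I) : piB Q (uA p q) = ∑ l, cf Q l p q • gl Q l := by
  have h := congrFun (congrFun (map_uA hQ) p) q
  rw [Matrix.map_apply] at h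
  rw [h, Matrix.mul_apply]
  refine Finset.sum_congr rfl fun l _ => ?_
  rw [Matrix.mul_diagonal, scM, scM, Matrix.map_apply, Matrix.map_apply,
    Matrix.conjTranspose_apply, cf, mul_smul, Algebra.algebraMap_eq_smul_one,
    Algebra.algebraMap_eq_smul_one, smul_mul_assoc, one_mul, mul_smul_comm, mul_one, smul_comm]

omit hQ in
lemma cf_mul (l l' p q : I) : ∑ k, cf Q l p k * cf Q l' k q = if l = l' then cf Q l p q else 0 := by
  have h := congrFun (congrFun hQ' l) l'
  rw [Matrix.mul_apply, Matrix.one_apply] at h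
  have h1 : ∑ k, cf Q l p k * cf Q l' k q = star (Q l p) * Q l' q * ∑ k, Q l k * Qᴴ k l' := by
    rw [Finset.mul_sum]
    refine Finset.sum_congr rfl fun k _ => ?_
    rw [cf, cf, Matrix.conjTranspose_apply]; ring
  rw [h1, h]
  split_ifs with hl
  · subst hl; rw [mul_one, cf]
  · rw [mul_zero]

lemma vA_counit (i j : I) : chi 0 (vA Q i j) = if i = j then 1 else 0 := by
  have h : (vA Q).map (chi 0 : A →ₐ[ℂ] ℂ) = 1 := by
    rw [vA, Matrix.map_mul, Matrix.map_mul, scM_map, scM_map]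
    have h1 : uA.map (chi 0 : A →ₐ[ℂ] ℂ) = 1 := by
      ext i j
      rw [Matrix.map_apply, Matrix.one_apply]
      exact isRep_uA.counit i j
    rw [h1, Matrix.mul_one, ← scM_mul, hQ', scM_one]
  have h2 := congrFun (congrFun h i) j
  rw [Matrix.map_apply, Matrix.one_apply] at h2
  exact h2

lemma vA_comul (i j : I) : Del (vA Q i j) = ∑ k, vA Q i k ⊗ₜ[ℂ] vA Q k j := by
  let L : A →ₐ[ℂ] A ⊗[ℂ] A := Algebra.TensorProduct.includeLeft
  let R : A →ₐ[ℂ] A ⊗[ℂ] A := Algebra.TensorProduct.includeRight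
  have h0 : ∀ z : Matrix I I A, ∀ i j, ((z.map L) * (z.map R)) i j =
      ∑ k, z i k ⊗ₜ[ℂ] z k j := by
    intro z i j
    rw [Matrix.mul_apply]
    refine Finset.sum_congr rfl fun k _ => ?_
    show (z i k ⊗ₜ[ℂ] (1 : A)) * ((1 : A) ⊗ₜ[ℂ] z k j) = _
    rw [Algebra.TensorProduct.tmul_mul_tmul, mul_one, one_mul]
  have h1 : uA.map (Del : A →ₐ[ℂ] A ⊗[ℂ] A) = uA.map L * uA.map R := by
    ext1 i j
    rw [h0]
    exact isRep_uA.comul i j
  have h2 : (vA Q).map (Del : A →ₐ[ℂ] A ⊗[ℂ] A) = (vA Q).map L * (vA Q).map R := by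
    rw [vA, Matrix.map_mul, Matrix.map_mul, Matrix.map_mul, Matrix.map_mul, Matrix.map_mul,
      Matrix.map_mul, scM_map, scM_map, scM_map, scM_map, scM_map, scM_map, h1]
    have h3 : scM (A ⊗[ℂ] A) Qᴴ * scM (A ⊗[ℂ] A) Q = 1 := by
      rw [← scM_mul, hQ, scM_one]
    calc scM (A ⊗[ℂ] A) Q * (uA.map L * uA.map R) * scM (A ⊗[ℂ] A) Qᴴ
        = scM (A ⊗[ℂ] A) Q * (uA.map L * 1 * uA.map R) * scM (A ⊗[ℂ] A) Qᴴ := by
          rw [Matrix.mul_one]
      _ = _ := by rw [← h3]; simp only [Matrix.mul_assoc]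
  have h4 := congrFun (congrFun h2 i) j
  rw [h0, Matrix.map_apply] at h4
  exact h4

/-- `(π ⊗ π) Δ` -/
def DB (Q : Matrix I I ℂ) : A →ₐ[ℂ] QB Q ⊗[ℂ] QB Q :=
  (Algebra.TensorProduct.map (piB Q) (piB Q)).comp (Del : A →ₐ[ℂ] A ⊗[ℂ] A)

lemma DB_v (i j : I) : DB Q (vA Q i j) =
    ∑ k, piB Q (vA Q i k) ⊗ₜ[ℂ] piB Q (vA Q k j) := by
  show Algebra.TensorProduct.map (piB Q) (piB Q) (Del (vA Q i j)) = _
  rw [vA_comul hQ hQ', map_sum]
  simp only [Algebra.TensorProduct.map_tmul]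

lemma DB_v_off {i j : I} (hij : i ≠ j) : DB Q (vA Q i j) = 0 := by
  rw [DB_v hQ hQ']
  refine Finset.sum_eq_zero fun k _ => ?_
  by_cases hk : i = k
  · subst hk; rw [piB_v hij, TensorProduct.tmul_zero]
  · rw [piB_v hk, TensorProduct.zero_tmul]

lemma DB_v_diag (i : I) : DB Q (vA Q i i) = gl Q i ⊗ₜ[ℂ] gl Q i := by
  rw [DB_v hQ hQ', Finset.sum_eq_single i]
  · rfl
  · intro k _ hk
    rw [piB_v hk, TensorProduct.tmul_zero]
  · simp

/-- the coproduct of the quotient -/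
def comulQ : QB Q →ₐ[ℂ] QB Q ⊗[ℂ] QB Q :=
  RingQuot.liftAlgHom ℂ ⟨DB Q, by
    rintro _ _ ⟨i, j, hij, rfl, rfl⟩
    rw [DB_v_off hQ hQ' hij, map_zero]⟩

lemma comulQ_piB (z : A) : comulQ hQ hQ' (piB Q z) = DB Q z := by
  exact RingQuot.liftAlgHom_mkAlgHom_apply ℂ _ _ z

/-- the counit of the quotient -/
def epsQ : QB Q →ₐ[ℂ] ℂ :=
  RingQuot.liftAlgHom ℂ ⟨(chi 0 : A →ₐ[ℂ] ℂ), by
    rintro _ _ ⟨i, j, hij, rfl, rfl⟩
    have := vA_counit hQ hQ' i j
    rw [if_neg hij] at this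
    rw [map_zero]
    exact this⟩

lemma epsQ_piB (z : A) : epsQ hQ hQ' (piB Q z) = chi 0 z := by
  exact RingQuot.liftAlgHom_mkAlgHom_apply ℂ _ _ z

lemma gl_ne_zero (m : I) : gl Q m ≠ 0 := by
  intro h
  have h1 := epsQ_piB hQ hQ' (vA Q m m)
  rw [vA_counit hQ hQ', if_pos rfl] at h1
  rw [show piB Q (vA Q m m) = gl Q m from rfl, h, map_zero] at h1
  exact zero_ne_one h1

/-- coordinates with respect to the group-like elements -/
lemma exists_fun (m : I) [DecidableEq (QB Q)] : ∃ f : QB Q →ₗ[ℂ] ℂ,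
    ∀ l, f (gl Q l) = if gl Q l = gl Q m then 1 else 0 := by
  classical
  let P := {b : QB Q // b ≠ 0 ∧ comulQ hQ hQ' b = b ⊗ₜ b}
  have hmem : ∀ l, gl Q l ≠ 0 ∧ comulQ hQ hQ' (gl Q l) = gl Q l ⊗ₜ gl Q l := fun l =>
    ⟨gl_ne_zero hQ hQ' l, (comulQ_piB hQ hQ' _).trans (DB_v_diag hQ hQ' l)⟩
  have hli : LinearIndependent ℂ (Subtype.val : P → QB Q) :=
    linearIndependent_groupLike (comulQ hQ hQ').toLinearMap _ Subtype.val_injective
      (fun p => p.2.1) (fun p => p.2.2)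
  obtain ⟨f, hf⟩ := exists_coord _ hli ⟨gl Q m, hmem m⟩
  refine ⟨f, fun l => ?_⟩
  have := hf ⟨gl Q l, hmem l⟩
  rw [this]
  simp only [Subtype.mk.injEq]

open Classical in
/-- the spectral projections -/
def Eh (Q : Matrix I I ℂ) (h : QB Q) (p q : I) : ℂ := ∑ l, if gl Q l = h then cf Q l p q else 0

lemma Eh_off {i j : Fin 3} (hij : i ≠ j) (a b : Q4) (m : I) :
    Eh Q (gl Q m) (i, a) (j, b) = 0 := by
  classical
  obtain ⟨f, hf⟩ := exists_fun hQ hQ' m
  have h1 := congrArg f (piB_u hQ (i, a) (j, b))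
  rw [uA_off hij, map_zero, map_zero, map_sum] at h1
  rw [h1, Eh]
  refine Finset.sum_congr rfl fun l _ => ?_
  rw [map_smul, hf, smul_eq_mul]
  split_ifs <;> simp

omit hQ in
lemma Eh_mul (h : QB Q) (p q : I) : ∑ k, Eh Q h p k * Eh Q h k q = Eh Q h p q := by
  classical
  have h1 : ∀ k, Eh Q h p k * Eh Q h k q = ∑ l, ∑ l', if gl Q l = h ∧ gl Q l' = h then
      cf Q l p k * cf Q l' k q else 0 := by
    intro k
    rw [Eh, Eh, Finset.sum_mul_sum]
    refine Finset.sum_congr rfl fun l _ => Finset.sum_congr rfl fun l' _ => ?_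
    by_cases h2 : gl Q l = h <;> by_cases h3 : gl Q l' = h <;> simp [h2, h3]
  simp only [h1]
  rw [Finset.sum_comm, Eh]
  refine Finset.sum_congr rfl fun l _ => ?_
  rw [Finset.sum_comm]
  rw [Finset.sum_eq_single l]
  · by_cases h2 : gl Q l = h
    · simp only [h2, and_self, if_true]
      rw [cf_mul hQ', if_pos rfl]
    · simp [h2]
  · intro l' _ hl'
    by_cases h2 : gl Q l = h ∧ gl Q l' = h
    · simp only [h2, and_self, if_true]
      rw [cf_mul hQ', if_neg (Ne.symm hl')]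
    · simp [h2]
  · simp

lemma Eh_right (h : QB Q) (p q : I) :
    ∑ k, Eh Q h k q • piB Q (uA p k) = Eh Q h p q • h := by
  classical
  have h1 : ∀ k, Eh Q h k q • piB Q (uA p k) = ∑ l, ∑ l', (if gl Q l' = h then
      cf Q l p k * cf Q l' k q else 0) • gl Q l := by
    intro k
    rw [piB_u hQ, Finset.smul_sum]
    refine Finset.sum_congr rfl fun l _ => ?_
    rw [Eh, smul_smul, Finset.sum_mul, Finset.sum_smul]
    refine Finset.sum_congr rfl fun l' _ => ?_
    split_ifs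
    · rw [mul_comm]
    · simp
  simp only [h1]
  rw [Finset.sum_comm, Eh, Finset.sum_smul]
  refine Finset.sum_congr rfl fun l _ => ?_
  rw [Finset.sum_comm, Finset.sum_eq_single l]
  · by_cases h2 : gl Q l = h
    · simp only [h2, if_true]
      rw [← Finset.sum_smul, cf_mul hQ', if_pos rfl]
    · simp [h2]
  · intro l' _ hl'
    by_cases h2 : gl Q l' = h
    · simp only [h2, if_true]
      rw [← Finset.sum_smul, cf_mul hQ', if_neg (Ne.symm hl'), zero_smul]
    · simp [h2]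
  · simp

lemma Eh_left (h : QB Q) (p q : I) :
    ∑ k, Eh Q h p k • piB Q (uA k q) = Eh Q h p q • h := by
  classical
  have h1 : ∀ k, Eh Q h p k • piB Q (uA k q) = ∑ l, ∑ l', (if gl Q l' = h then
      cf Q l' p k * cf Q l k q else 0) • gl Q l := by
    intro k
    rw [piB_u hQ, Finset.smul_sum]
    refine Finset.sum_congr rfl fun l _ => ?_
    rw [Eh, smul_smul, Finset.sum_mul, Finset.sum_smul]
    refine Finset.sum_congr rfl fun l' _ => ?_
    split_ifs
    · rfl
    · simp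
  simp only [h1]
  rw [Finset.sum_comm, Eh, Finset.sum_smul]
  refine Finset.sum_congr rfl fun l _ => ?_
  rw [Finset.sum_comm, Finset.sum_eq_single l]
  · by_cases h2 : gl Q l = h
    · simp only [h2, if_true]
      rw [← Finset.sum_smul, cf_mul hQ', if_pos rfl]
    · simp [h2]
  · intro l' _ hl'
    by_cases h2 : gl Q l' = h
    · simp only [h2, if_true]
      rw [← Finset.sum_smul, cf_mul hQ', if_neg hl', zero_smul]
    · simp [h2]
  · simp

/-- the entries of a block in the quotient -/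
def Ub (Q : Matrix I I ℂ) (i : Fin 3) (a b : Q4) : QB Q := piB Q (gen i a b)

omit hQ hQ' in
lemma Ub_eq (i : Fin 3) (a b : Q4) : piB Q (uA (i, a) (i, b)) = Ub Q i a b := by
  rw [uA_same, Ub]

omit hQ hQ' in
lemma Ub_off {i j : Fin 3} (hij : i ≠ j) (a b : Q4) : piB Q (uA (i, a) (j, b)) = 0 := by
  rw [uA_off hij, map_zero]

omit hQ hQ' in
lemma isBlock_Ub (i : Fin 3) : IsBlock (Ub Q i) where
  zero_right a := by
    rw [Ub, gen_zero_right]; split_ifs <;> simp
  zero_left b := by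
    rw [Ub, gen_zero_left]; split_ifs <;> simp
  mul c b b' := by
    simp only [Ub]
    rw [← gen_mul, map_sum]
    exact Finset.sum_congr rfl fun a _ => by rw [map_mul]
  row a a' := by
    have h := congrArg (piB Q) (gen_row i a a')
    rw [map_sum] at h
    simp only [star_gen, map_mul] at h
    simp only [Ub]
    rw [h]; split_ifs <;> simp
  col b b' := by
    have h := congrArg (piB Q) (gen_col i b b')
    rw [map_sum] at h
    simp only [star_gen, map_mul] at h
    simp only [Ub]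
    rw [h]; split_ifs <;> simp

omit hQ hQ' in
lemma Inv_sum {B : Type} [Ring B] [Algebra ℂ B] (U : Q4 → Q4 → B) {ι : Type*} (s : Finset ι)
    (f : ι → Q4 → ℂ) (h : ∀ i ∈ s, f i ∈ Inv U) : (fun c => ∑ i ∈ s, f i c) ∈ Inv U := by
  intro c
  simp only [Finset.sum_smul]
  rw [Finset.sum_comm]
  exact Finset.sum_congr rfl fun i hi => h i hi c

/-- the invariant vectors -/
def dh (Q : Matrix I I ℂ) (i : Fin 3) (h : QB Q) (c : Q4) : ℂ := ∑ a, Eh Q h (i, a) (i, c + a)

lemma dh_mem (i : Fin 3) (m : I) : dh Q i (gl Q m) ∈ Inv (Ub Q i) := by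
  have hconv : dh Q i (gl Q m) = fun c => ∑ b, conv (fun a => Eh Q (gl Q m) (i, a) (i, b))
      (fun a => Eh Q (gl Q m) (i, b) (i, a)) c := by
    funext c
    simp only [dh, conv]
    rw [Finset.sum_comm]
    refine Finset.sum_congr rfl fun a _ => ?_
    rw [← Eh_mul hQ', sum_block i]
    intro j hj b
    rw [Eh_off hQ hQ' (Ne.symm hj), zero_mul]
  rw [hconv]
  refine Inv_sum _ _ _ fun b _ => ?_
  refine (isBlock_Ub i).conv_mem (g := gl Q m) (g' := gl' Q m) (gl_mul hQ hQ' m) ?_ ?_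
  · intro c
    have h := Eh_right hQ hQ' (gl Q m) (i, c) (i, b)
    rw [sum_block i] at h
    · simpa only [Ub_eq] using h
    · intro j hj d
      rw [Ub_off (Ne.symm hj), smul_zero]
  · intro c
    have h1 : ∀ c', ∑ b', Eh Q (gl Q m) (i, b) (i, b') • Ub Q i b' c' =
        Eh Q (gl Q m) (i, b) (i, c') • gl Q m := by
      intro c'
      have h := Eh_left hQ hQ' (gl Q m) (i, b) (i, c')
      rw [sum_block i] at h
      · simpa only [Ub_eq] using h
      · intro j hj d
        rw [Ub_off hj, smul_zero]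
    have h2 : ∑ c', (∑ b', Eh Q (gl Q m) (i, b) (i, b') • Ub Q i b' c') * Ub Q i c c' =
        Eh Q (gl Q m) (i, b) (i, c) • (1 : QB Q) := by
      simp only [Finset.sum_mul, smul_mul_assoc]
      rw [Finset.sum_comm]
      simp only [← Finset.smul_sum, (isBlock_Ub (Q := Q) i).row]
      rw [Finset.sum_eq_single c]
      · rw [if_pos rfl]
      · intro b' _ hb'
        rw [if_neg hb', smul_zero]
      · simp
    simp only [h1, smul_mul_assoc] at h2
    have h3 : gl Q m * ∑ c', Eh Q (gl Q m) (i, b) (i, c') • Ub Q i c c' =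
        Eh Q (gl Q m) (i, b) (i, c) • (1 : QB Q) := by
      rw [← h2, Finset.mul_sum]
      exact Finset.sum_congr rfl fun c' _ => by rw [mul_smul_comm]
    calc ∑ c', Eh Q (gl Q m) (i, b) (i, c') • Ub Q i c c'
        = (gl' Q m * gl Q m) * ∑ c', Eh Q (gl Q m) (i, b) (i, c') • Ub Q i c c' := by
          rw [mul_gl hQ hQ', one_mul]
      _ = gl' Q m * (Eh Q (gl Q m) (i, b) (i, c) • (1 : QB Q)) := by rw [mul_assoc, h3]
      _ = _ := by rw [mul_smul_comm, mul_one]

lemma xinv (i : Fin 3) : XInv (Ub Q i) := by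
  classical
  refine ⟨Finset.univ.image (gl Q), dh Q i, ?_, ?_⟩
  · intro h hh
    rw [Finset.mem_image] at hh
    obtain ⟨m, _, rfl⟩ := hh
    exact dh_mem hQ hQ' i m
  · intro c
    have h1 : ∀ h : QB Q, dh Q i h c • h = ∑ a, ∑ l,
        if gl Q l = h then cf Q l (i, a) (i, c + a) • h else 0 := by
      intro h
      rw [dh, Finset.sum_smul]
      refine Finset.sum_congr rfl fun a _ => ?_
      rw [Eh, Finset.sum_smul]
      refine Finset.sum_congr rfl fun l _ => ?_
      split_ifs <;> simp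
    simp only [h1]
    rw [Finset.sum_comm, Xc]
    refine Finset.sum_congr rfl fun a _ => ?_
    rw [← Ub_eq, piB_u hQ, Finset.sum_comm]
    refine Finset.sum_congr rfl fun l _ => ?_
    rw [Finset.sum_ite_eq, if_pos (Finset.mem_image_of_mem _ (Finset.mem_univ l))]

/-- the trace of a block -/
def fA (i : Fin 3) : A := ∑ a, gen i a a

/-- the factor of a block -/
def PAi (i : Fin 3) : A := (fA i - 1) * fA i * (fA i - 4)

/-- the central element -/
def PA : A := PAi 0 * PAi 1 * PAi 2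

omit hQ hQ' in
lemma piB_PAi (i : Fin 3) : piB Q (PAi i) =
    (Xc (Ub Q i) 0 - 1) * Xc (Ub Q i) 0 * (Xc (Ub Q i) 0 - 4) := by
  have h1 : piB Q (fA i) = Xc (Ub Q i) 0 := by
    rw [fA, map_sum, Xc]
    exact Finset.sum_congr rfl fun c _ => by rw [zero_add, Ub]
  rw [PAi, map_mul, map_mul, map_sub, map_sub, h1, map_one, map_ofNat]

omit hQ hQ' in
lemma Ub_comm (i j : Fin 3) (a : Q4) (h : Ub Q i a a = 1) (c d : Q4) :
    Ub Q j c d = ((sgn (cr i j a c + cr i j a d) : ℤ) : ℂ) • Ub Q j c d := by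
  have h1 := congrArg (piB Q) (gen_comm i j a a c d)
  rw [map_smul, map_mul, map_mul] at h1
  change Ub Q i a a * Ub Q j c d = _ • (Ub Q j c d * Ub Q i a a) at h1
  rwa [h, one_mul, mul_one] at h1

omit hQ hQ' in
lemma key4 : ∀ a b c : Q4, (a ≠ 0 ∧ b ≠ 0 ∧ c ≠ 0) → om a b = 1 ∨ om b c = 1 ∨ om (phi a) c = 1 := by
  decide

/-- The central element vanishes in every diagonal quotient. -/
theorem piB_PA : piB Q PA = 0 := by
  have hkey : ∃ i, piB Q (PAi i) = 0 := by
    by_cases hax : ∀ i, ∃ a : Q4, a ≠ 0 ∧ Pi.single a 1 ∈ Inv (Ub Q i)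
    · obtain ⟨a, ha0, ha⟩ := hax 0
      obtain ⟨b, hb0, hb⟩ := hax 1
      obtain ⟨c, hc0, hc⟩ := hax 2
      have ha1 : Ub Q 0 a a = 1 := by rw [(isBlock_Ub 0).axis_right ha, if_pos rfl]
      have hb1 : Ub Q 1 b b = 1 := by rw [(isBlock_Ub 1).axis_right hb, if_pos rfl]
      rcases key4 a b c ⟨ha0, hb0, hc0⟩ with h | h | h
      · refine ⟨1, ?_⟩
        rw [piB_PAi]
        refine (isBlock_Ub 1).diag hb a h fun x y => ?_
        have := Ub_comm 0 1 a ha1 x y
        rwa [cr01, cr01] at this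
      · refine ⟨2, ?_⟩
        rw [piB_PAi]
        refine (isBlock_Ub 2).diag hc b h fun x y => ?_
        have := Ub_comm 1 2 b hb1 x y
        rwa [cr12, cr12] at this
      · refine ⟨2, ?_⟩
        rw [piB_PAi]
        refine (isBlock_Ub 2).diag hc (phi a) h fun x y => ?_
        have := Ub_comm 0 2 a ha1 x y
        rwa [cr02, cr02] at this
    · push Not at hax
      obtain ⟨i, hi⟩ := hax
      refine ⟨i, ?_⟩
      rw [piB_PAi]
      exact (isBlock_Ub i).noaxis (xinv hQ hQ' i) hi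
  obtain ⟨i, hi⟩ := hkey
  rw [PA, map_mul, map_mul]
  fin_cases i
  · simp only [Fin.zero_eta] at hi
    rw [hi, zero_mul, zero_mul]
  · simp only [Fin.mk_one] at hi
    rw [hi, mul_zero, zero_mul]
  · simp only [Fin.reduceFinMk] at hi
    rw [hi, mul_zero]

end unitary

end Pool.Agent.W444.CC
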