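import Pool.Agent.W444.CC.Quat

/-!
# The twisted group algebra acting on `ℂ^W`, and the function algebra
-/

noncomputable section

namespace Pool.Agent.W444.CC

open Quaternion Matrix

/-- three copies of the Klein four-group -/
abbrev V : Type := Fin 3 → Q4

/-- the grading group -/
abbrev W : Type := V × V

/-- the bilinear form on `V` -/
def BV (x y : V) : ZMod 2 :=
  ∑ i, B0 (x i) (y i) + om (x 0) (y 1) + om (x 1) (y 2) + om (phi (x 0)) (y 2)

lemma BV_add_left (x y z : V) : BV (x + y) z = BV x z + BV y z := by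
  simp only [BV, Pi.add_apply, B0_add_left, om_add_left, phi_add, Finset.sum_add_distrib]
  ring

lemma BV_add_right (x y z : V) : BV x (y + z) = BV x y + BV x z := by
  simp only [BV, Pi.add_apply, B0_add_right, om_add_right, Finset.sum_add_distrib]
  ring

/-- the bicharacter on `W` -/
def sg (x y : W) : ℂ := ((sgn (BV x.1 y.1 + BV x.2 y.2) : ℤ) : ℂ)

lemma sg_add_left (x y z : W) : sg (x + y) z = sg x z * sg y z := by
  rw [sg, sg, sg, ← Int.cast_mul, ← sgn_add, Prod.fst_add, Prod.snd_add, BV_add_left, BV_add_left]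
  congr 2
  ring

lemma sg_add_right (x y z : W) : sg x (y + z) = sg x y * sg x z := by
  rw [sg, sg, sg, ← Int.cast_mul, ← sgn_add, Prod.fst_add, Prod.snd_add, BV_add_right,
    BV_add_right]
  congr 2
  ring

lemma sg_mul_self (x y : W) : sg x y * sg x y = 1 := by
  rw [sg, ← Int.cast_mul, sgn_mul_self, Int.cast_one]

lemma BV_zero_left (x : V) : BV 0 x = 0 := by
  have := BV_add_left 0 0 x
  rw [add_zero] at this
  simpa using this

lemma BV_zero_right (x : V) : BV x 0 = 0 := by
  have := BV_add_right x 0 0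
  rw [add_zero] at this
  simpa using this

@[simp] lemma sg_zero_left (x : W) : sg 0 x = 1 := by
  simp [sg, BV_zero_left]

@[simp] lemma sg_zero_right (x : W) : sg x 0 = 1 := by
  simp [sg, BV_zero_right]

lemma conj_sg (x y : W) : star (sg x y) = sg x y := by
  rw [sg]
  simp

lemma V.add_self (x : V) : x + x = 0 := by
  ext1 i
  exact Q4.add_self (x i)

lemma W.add_self (x : W) : x + x = 0 := Prod.ext (V.add_self x.1) (V.add_self x.2)

lemma W.add_add_cancel (x y : W) : x + (x + y) = y := by
  rw [← add_assoc, W.add_self, zero_add]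

lemma W.eq_add_iff (x y z : W) : x = y + z ↔ z = y + x := by
  constructor
  · rintro rfl; rw [W.add_add_cancel]
  · rintro rfl; rw [W.add_add_cancel]

lemma W.eq_add_iff' (x y z : W) : x = y + z ↔ y = x + z := by
  rw [W.eq_add_iff, eq_comm]
  constructor
  · intro h; rw [← h, add_comm x, add_assoc, W.add_self, add_zero]
  · intro h; rw [h, add_assoc, add_comm z x, W.add_add_cancel]

/-- the twisted translations -/
def T (x : W) : Matrix W W ℂ := Matrix.of fun p q => if p = x + q then sg x q else 0

lemma T_apply (x p q : W) : T x p q = if p = x + q then sg x q else 0 := rfl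

lemma T_apply_zero (x p : W) : T x p 0 = if p = x then 1 else 0 := by
  rw [T_apply, add_zero, sg_zero_right]

lemma T_zero : T 0 = 1 := by
  ext p q
  rw [T_apply, zero_add, sg_zero_left, Matrix.one_apply]

lemma T_mul (x y : W) : T x * T y = sg x y • T (x + y) := by
  ext p q
  rw [Matrix.mul_apply, Finset.sum_eq_single (y + q)]
  · simp only [T_apply, if_true, Matrix.smul_apply, smul_eq_mul, sg_add_right, sg_add_left,
      ← add_assoc]
    split_ifs
    · ring
    · ring
  · intro s _ hs
    rw [T_apply y, if_neg hs, mul_zero]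
  · simp

lemma T_conjTranspose (x : W) : (T x)ᴴ = sg x x • T x := by
  ext p q
  rw [Matrix.conjTranspose_apply, Matrix.smul_apply, T_apply, T_apply, smul_eq_mul]
  by_cases h : q = x + p
  · have h' : p = x + q := (W.eq_add_iff _ _ _).1 h
    rw [if_pos h, if_pos h', conj_sg, h, sg_add_right, ← mul_assoc, sg_mul_self, one_mul]
  · have h' : ¬ p = x + q := fun h2 => h ((W.eq_add_iff _ _ _).1 h2)
    rw [if_neg h, if_neg h', star_zero, mul_zero]

/-- the matrices in the span of the `T x` -/
def Good (A : Matrix W W ℂ) : Prop := A = ∑ x, A x 0 • T x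

lemma Good.apply {A : Matrix W W ℂ} (hA : Good A) (p q : W) : A p q = sg (p + q) q * A (p + q) 0 := by
  conv_lhs => rw [hA]
  rw [Matrix.sum_apply, Finset.sum_eq_single (p + q)]
  · rw [Matrix.smul_apply, T_apply, if_pos, smul_eq_mul, mul_comm]
    rw [add_assoc, W.add_self, add_zero]
  · intro x _ hx
    rw [Matrix.smul_apply, T_apply, if_neg, smul_zero]
    intro h
    exact hx ((W.eq_add_iff' _ _ _).1 h)
  · simp

lemma good_of_apply {A : Matrix W W ℂ} (h : ∀ p q, A p q = sg (p + q) q * A (p + q) 0) :
    Good A := by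
  refine Matrix.ext fun p q => ?_
  rw [Matrix.sum_apply, Finset.sum_eq_single (p + q)]
  · rw [Matrix.smul_apply, T_apply, if_pos, smul_eq_mul, mul_comm, h p q]
    rw [add_assoc, W.add_self, add_zero]
  · intro x _ hx
    rw [Matrix.smul_apply, T_apply, if_neg, smul_zero]
    intro h
    exact hx ((W.eq_add_iff' _ _ _).1 h)
  · simp

lemma good_T (x : W) : Good (T x) := by
  rw [Good, Finset.sum_eq_single x]
  · rw [T_apply_zero, if_pos rfl, one_smul]
  · intro y _ hy
    rw [T_apply_zero, if_neg hy, zero_smul]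
  · simp

lemma Good.add {A B : Matrix W W ℂ} (hA : Good A) (hB : Good B) : Good (A + B) := by
  refine good_of_apply fun p q => ?_
  rw [Matrix.add_apply, Matrix.add_apply, hA.apply, hB.apply]; ring

lemma Good.smul {A : Matrix W W ℂ} (hA : Good A) (c : ℂ) : Good (c • A) := by
  refine good_of_apply fun p q => ?_
  rw [Matrix.smul_apply, Matrix.smul_apply, hA.apply, smul_eq_mul, smul_eq_mul]; ring

/-- coefficients of a product -/
lemma Good.mul_coef {A : Matrix W W ℂ} (hA : Good A) (B : Matrix W W ℂ) (z : W) :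
    (A * B) z 0 = ∑ p, sg (z + p) p * (A (z + p) 0 * B p 0) := by
  rw [Matrix.mul_apply]
  refine Finset.sum_congr rfl fun p _ => ?_
  rw [hA.apply]; ring

lemma Good.sum {ι : Type*} {s : Finset ι} {A : ι → Matrix W W ℂ} (h : ∀ i ∈ s, Good (A i)) :
    Good (∑ i ∈ s, A i) := by
  refine good_of_apply fun p q => ?_
  rw [Matrix.sum_apply, Matrix.sum_apply, Finset.mul_sum]
  exact Finset.sum_congr rfl fun i hi => (h i hi).apply p q

lemma Good.mul {A B : Matrix W W ℂ} (hA : Good A) (hB : Good B) : Good (A * B) := by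
  rw [hA, hB, Finset.sum_mul_sum]
  refine Good.sum fun x _ => Good.sum fun y _ => ?_
  rw [smul_mul_smul_comm, T_mul]
  exact ((good_T _).smul _).smul _

lemma Good.conjTranspose {A : Matrix W W ℂ} (hA : Good A) : Good Aᴴ := by
  rw [hA, Matrix.conjTranspose_sum]
  refine Good.sum fun x _ => ?_
  rw [Matrix.conjTranspose_smul, T_conjTranspose]
  exact ((good_T _).smul _).smul _

lemma Good.conjTranspose_coef {A : Matrix W W ℂ} (hA : Good A) (x : W) :
    Aᴴ x 0 = sg x x * star (A x 0) := by
  rw [Matrix.conjTranspose_apply, hA.apply, zero_add, star_mul', conj_sg]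

/-- Pairing of `V` with itself. -/
def omV (x h : V) : ZMod 2 := ∑ i, om (x i) (h i)

lemma omV_add_left (x y h : V) : omV (x + y) h = omV x h + omV y h := by
  simp only [omV, Pi.add_apply, om_add_left, Finset.sum_add_distrib]

/-- Pairing of `W` with itself. -/
def pr (x h : W) : ℂ := ((sgn (omV x.1 h.1 + omV x.2 h.2) : ℤ) : ℂ)

lemma pr_add_left (x y h : W) : pr (x + y) h = pr x h * pr y h := by
  rw [pr, pr, pr, ← Int.cast_mul, ← sgn_add, Prod.fst_add, Prod.snd_add, omV_add_left,
    omV_add_left]
  congr 2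
  ring

lemma star_pr (x h : W) : star (pr x h) = pr x h := by
  rw [pr]; simp

lemma omV_zero_left (x : V) : omV 0 x = 0 := by
  have := omV_add_left 0 0 x
  rw [add_zero] at this
  simpa using this

@[simp] lemma pr_zero_left (h : W) : pr 0 h = 1 := by
  simp [pr, omV_zero_left]

/-- The weights. -/
def wt (i : Fin 3) (a : Q4) : V := Pi.single i a

lemma wt_add (i : Fin 3) (a b : Q4) : wt i (a + b) = wt i a + wt i b := by
  simp [wt, Pi.single_add]

@[simp] lemma wt_zero (i : Fin 3) : wt i 0 = 0 := by simp [wt]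

lemma om_zero_left (x : Q4) : om 0 x = 0 := by simp [om]
lemma om_zero_right (x : Q4) : om x 0 = 0 := by simp [om]
lemma B0_zero_left (x : Q4) : B0 0 x = 0 := by simp [B0]
lemma B0_zero_right (x : Q4) : B0 x 0 = 0 := by simp [B0]
lemma phi_zero : phi 0 = 0 := by simp [phi]

lemma omV_wt (i : Fin 3) (a : Q4) (h : V) : omV (wt i a) h = om a (h i) := by
  rw [omV, Finset.sum_eq_single i]
  · simp [wt]
  · intro j _ hj
    rw [wt, Pi.single_eq_of_ne hj, om_zero_left]
  · simp

lemma BV_wt_self (i : Fin 3) (a b : Q4) : BV (wt i a) (wt i b) = B0 a b := by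
  fin_cases i <;>
    simp [BV, wt, Fin.sum_univ_three, B0_zero_left, B0_zero_right, om_zero_left, om_zero_right,
      phi_zero]

/-- the commutation form of the weights of two different blocks -/
def cr (i j : Fin 3) (a c : Q4) : ZMod 2 := BV (wt i a) (wt j c) + BV (wt j c) (wt i a)

lemma cr01 (a c : Q4) : cr 0 1 a c = om a c := by
  simp [cr, BV, wt, Fin.sum_univ_three, B0_zero_left, B0_zero_right, om_zero_left, om_zero_right,
    phi_zero]

lemma cr12 (a c : Q4) : cr 1 2 a c = om a c := by
  simp [cr, BV, wt, Fin.sum_univ_three, B0_zero_left, B0_zero_right, om_zero_left, om_zero_right,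
    phi_zero]

lemma cr02 (a c : Q4) : cr 0 2 a c = om (phi a) c := by
  simp [cr, BV, wt, Fin.sum_univ_three, B0_zero_left, B0_zero_right, om_zero_left, om_zero_right,
    phi_zero]

end Pool.Agent.W444.CC
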